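import Pool.Agent.V8H73.EK.Main

/-! The number of integral points of a residue class where polynomials without common factor are
divisible by a large prime. -/

set_option autoImplicit false
set_option linter.unusedVariables false

namespace Pool.Agent.V8H73.EK

open MvPolynomial Finset Pool.Agent.R492.Bez

/-- the substitution of `a + q X` -/
noncomputable def sb {n : ℕ} (q : ℕ) (a : Fin n → ℤ) :
    MvPolynomial (Fin n) ℤ →ₐ[ℤ] MvPolynomial (Fin n) ℤ :=
  aeval (fun i => C (a i) + C (q : ℤ) * X i)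

theorem eval_sb {n : ℕ} (q : ℕ) (a b : Fin n → ℤ) (f : MvPolynomial (Fin n) ℤ) :
    eval b (sb q a f) = eval (fun i => a i + q * b i) f := by
  unfold sb
  have h : (eval b).comp ((aeval (fun i => C (a i) + C (q : ℤ) * X i) :
      MvPolynomial (Fin n) ℤ →ₐ[ℤ] MvPolynomial (Fin n) ℤ) : _ →+* _) =
      eval (fun i => a i + q * b i) := by
    apply MvPolynomial.ringHom_ext
    · intro r
      simp
    · intro i
      simp
  exact congrArg (fun g => g f) (congrArg DFunLike.coe h)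

theorem td_sb {n : ℕ} (q : ℕ) (a : Fin n → ℤ) (f : MvPolynomial (Fin n) ℤ) :
    (sb q a f).totalDegree ≤ f.totalDegree := by
  unfold sb
  rw [aeval_eq_bind₁, bind₁, aeval_def, eval₂_eq]
  refine (totalDegree_finsetSum _ _).trans (Finset.sup_le fun m hm => ?_)
  refine (totalDegree_mul _ _).trans ?_
  rw [algebraMap_eq, totalDegree_C, zero_add]
  refine (totalDegree_finsetProd _ _).trans ?_
  refine le_trans ?_ (le_totalDegree hm)
  rw [Finsupp.sum]
  refine Finset.sum_le_sum fun i _ => ?_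
  refine (totalDegree_pow _ _).trans ?_
  have h1 : (C (a i) + C (q : ℤ) * X i : MvPolynomial (Fin n) ℤ).totalDegree ≤ 1 := by
    refine (totalDegree_add _ _).trans (max_le ?_ ?_)
    · rw [totalDegree_C]
      exact Nat.zero_le _
    · refine (totalDegree_mul _ _).trans ?_
      rw [totalDegree_C, totalDegree_X]
  calc m i * _ ≤ m i * 1 := Nat.mul_le_mul_left _ h1
    _ = m i := mul_one _

theorem map_sb_ne {n : ℕ} (q : ℕ) (a : Fin n → ℤ) (f : MvPolynomial (Fin n) ℤ) (p : ℕ)
    [hp : Fact p.Prime] (hpq : ¬ p ∣ q) (hf : map (Int.castRingHom (ZMod p)) f ≠ 0) :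
    map (Int.castRingHom (ZMod p)) (sb q a f) ≠ 0 := by
  intro h0
  apply hf
  have hq : (q : ZMod p) ≠ 0 := by
    rwa [Ne, ZMod.natCast_eq_zero_iff]
  let ψ : MvPolynomial (Fin n) (ZMod p) →ₐ[ZMod p] MvPolynomial (Fin n) (ZMod p) :=
    aeval (fun i => C ((q : ZMod p)⁻¹) * (X i - C (a i : ZMod p)))
  have h : (ψ.toRingHom.comp (map (Int.castRingHom (ZMod p)))).comp (sb q a).toRingHom =
      map (Int.castRingHom (ZMod p)) := by
    apply MvPolynomial.ringHom_ext
    · intro r
      simp [sb, ψ]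
    · intro i
      have h3 : ((q : ℕ) : MvPolynomial (Fin n) (ZMod p)) * C ((q : ZMod p)⁻¹) = 1 := by
        rw [← map_natCast (C : ZMod p →+* MvPolynomial (Fin n) (ZMod p)) q, ← C_mul,
          mul_inv_cancel₀ hq, C_1]
      have h4 : ((q : ℕ) : MvPolynomial (Fin n) (ZMod p)) * (C ((q : ZMod p)⁻¹) *
          (X i - ((a i : ℤ) : MvPolynomial (Fin n) (ZMod p)))) =
          X i - ((a i : ℤ) : MvPolynomial (Fin n) (ZMod p)) := by
        rw [← mul_assoc, h3, one_mul]
      simp [sb, ψ, h4]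
  have h1 := congrArg (fun g => g f) (congrArg DFunLike.coe h)
  simp only [RingHom.comp_apply, AlgHom.toRingHom_eq_coe, RingHom.coe_coe] at h1
  rw [h0, map_zero] at h1
  exact h1.symm

open Classical in
/-- The points `b` of the box such that all the polynomials at `a + q b` are divisible by a common
prime number larger than `M`. -/
noncomputable def BadA {n : ℕ} (q : ℕ) (a : Fin n → ℤ) (S : Finset (MvPolynomial (Fin n) ℤ))
    (M H : ℕ) : Finset (Fin n → ℤ) :=
  (bx n H).filter (fun b => ∃ p : ℕ, p.Prime ∧ M < p ∧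
    ∀ f ∈ S, (p : ℤ) ∣ eval (fun i => a i + q * b i) f)

theorem mem_BadA {n : ℕ} {q : ℕ} {a : Fin n → ℤ} {S : Finset (MvPolynomial (Fin n) ℤ)} {M H : ℕ}
    {b : Fin n → ℤ} : b ∈ BadA q a S M H ↔ b ∈ bx n H ∧ ∃ p : ℕ, p.Prime ∧ M < p ∧
      ∀ f ∈ S, (p : ℤ) ∣ eval (fun i => a i + q * b i) f := by
  classical
  unfold BadA
  rw [mem_filter]

/-- The fibre over a point `b`. -/
theorem fibreA_le {n : ℕ} (q : ℕ) (a₀ : Fin (n + 1) → ℤ)
    (S : Finset (MvPolynomial (Fin (n + 1)) ℤ))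
    (S' : Finset (MvPolynomial (Fin n) ℤ)) (r : MvPolynomial (Fin n) ℤ) (e₀ : ℕ)
    (hS'' : ∀ c ∈ S', ∃ f ∈ S, ∃ k, (finSuccEquiv ℤ n f).coeff k = c)
    (hr : Polynomial.C r ∈ Ideal.span ((fun f => finSuccEquiv ℤ n f) '' (S : Set _)))
    (hD : ∀ f ∈ S, (finSuccEquiv ℤ n f).natDegree ≤ e₀) (M H : ℕ)
    (hMq : ∀ p : ℕ, p.Prime → M < p → ¬ p ∣ q) (b : Fin n → ℤ)
    (hb : b ∈ bx n H) (hb0 : eval b (sb q (Fin.tail a₀) r) ≠ 0)
    (hb' : b ∉ BadA q (Fin.tail a₀) S' M H)
    [DecidablePred fun a : Fin (n + 1) → ℤ => Fin.tail a = b] :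
    (((BadA q a₀ S M H).filter (fun a => Fin.tail a = b)).card : ℝ) ≤
      ∑ p ∈ (eval b (sb q (Fin.tail a₀) r)).natAbs.primeFactors.filter (fun p => M < p),
        (if p ≤ 2 * H then (e₀ : ℝ) * (5 * (H : ℝ) / p) else (e₀ : ℝ)) := by
  classical
  set b' : Fin n → ℤ := fun i => Fin.tail a₀ i + q * b i with hb'def
  have hevr : eval b (sb q (Fin.tail a₀) r) = eval b' r := eval_sb _ _ _ _
  have hpt : ∀ t : ℤ, (fun i => a₀ i + q * (Fin.cons t b : Fin (n + 1) → ℤ) i) =
      (Fin.cons (a₀ 0 + q * t) b' : Fin (n + 1) → ℤ) := by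
    intro t
    funext i
    refine Fin.cases ?_ (fun j => ?_) i
    · simp
    · simp [hb'def, Fin.tail]
  have hev : ∀ (t : ℤ) (f : MvPolynomial (Fin (n + 1)) ℤ),
      eval (fun i => a₀ i + q * (Fin.cons t b : Fin (n + 1) → ℤ) i) f =
        Polynomial.eval (a₀ 0 + q * t) (Polynomial.map (eval b') (finSuccEquiv ℤ n f)) := by
    intro t f
    rw [hpt]
    exact eval_eq_eval_mv_eval' b' _ f
  set PF := (eval b (sb q (Fin.tail a₀) r)).natAbs.primeFactors.filter (fun p => M < p) with hPF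
  let A : ℕ → Finset ℤ := fun p => (Icc (-(H : ℤ)) H).filter
    (fun t => ∀ f ∈ S, (p : ℤ) ∣ eval (fun i => a₀ i + q * (Fin.cons t b : Fin (n + 1) → ℤ) i) f)
  -- primes dividing all the values divide `r`
  have hdiv : ∀ (p : ℕ) (t : ℤ),
      (∀ f ∈ S, (p : ℤ) ∣ eval (fun i => a₀ i + q * (Fin.cons t b : Fin (n + 1) → ℤ) i) f) →
      (p : ℤ) ∣ eval b (sb q (Fin.tail a₀) r) := by
    intro p t ht
    let φ : Polynomial (MvPolynomial (Fin n) ℤ) →+* ℤ :=
      (Polynomial.evalRingHom (a₀ 0 + q * t)).comp (Polynomial.mapRingHom (eval b'))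
    have h1 : Ideal.span ((fun f => finSuccEquiv ℤ n f) '' (S : Set _)) ≤
        (Ideal.span {(p : ℤ)}).comap φ := by
      rw [Ideal.span_le]
      rintro _ ⟨f, hf, rfl⟩
      rw [SetLike.mem_coe, Ideal.mem_comap, Ideal.mem_span_singleton]
      have h2 := ht f hf
      rw [hev] at h2
      exact h2
    have h3 := h1 hr
    rw [Ideal.mem_comap, Ideal.mem_span_singleton] at h3
    have h4 : φ (Polynomial.C r) = eval b' r := by simp [φ]
    rw [hevr]
    rwa [h4] at h3
  have hcard : ((BadA q a₀ S M H).filter (fun a => Fin.tail a = b)).card ≤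
      ∑ p ∈ PF, (A p).card := by
    refine le_trans ?_ card_biUnion_le
    refine card_le_card_of_injOn (fun a => a 0) ?_ ?_
    · intro a ha
      rw [mem_coe, mem_filter, mem_BadA] at ha
      obtain ⟨⟨ha1, p, hp, hMp, hpa⟩, ha2⟩ := ha
      have hcons : (Fin.cons (a 0) b : Fin (n + 1) → ℤ) = a := by
        rw [← ha2, Fin.cons_self_tail]
      have hpa' : ∀ f ∈ S, (p : ℤ) ∣
          eval (fun i => a₀ i + q * (Fin.cons (a 0) b : Fin (n + 1) → ℤ) i) f := by
        rw [hcons]
        exact hpa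
      rw [mem_coe, mem_biUnion]
      refine ⟨p, ?_, ?_⟩
      · rw [hPF, mem_filter, Nat.mem_primeFactors]
        refine ⟨⟨hp, ?_, ?_⟩, hMp⟩
        · exact Int.natCast_dvd.1 (hdiv p (a 0) hpa')
        · exact Int.natAbs_ne_zero.2 hb0
      · simp only [A]
        rw [mem_filter]
        refine ⟨?_, hpa'⟩
        have := (Fintype.mem_piFinset.1 ha1) 0
        exact this
    · intro a ha a' ha' h0
      rw [mem_coe, mem_filter] at ha ha'
      rw [← Fin.cons_self_tail a, ← Fin.cons_self_tail a', ha.2, ha'.2]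
      have : a 0 = a' 0 := h0
      rw [this]
  have hcard' : (((BadA q a₀ S M H).filter (fun a => Fin.tail a = b)).card : ℝ) ≤
      ∑ p ∈ PF, ((A p).card : ℝ) := by exact_mod_cast hcard
  refine hcard'.trans (sum_le_sum fun p hp => ?_)
  rw [hPF, mem_filter, Nat.mem_primeFactors] at hp
  have hpp : Fact p.Prime := ⟨hp.1.1⟩
  have hpq := hMq p hp.1.1 hp.2
  obtain ⟨c, hc, hcp⟩ : ∃ c ∈ S', ¬ (p : ℤ) ∣ eval b' c := by
    by_contra hcon
    push Not at hcon
    exact hb' (mem_BadA.2 ⟨hb, p, hp.1.1, hp.2, hcon⟩)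
  obtain ⟨f, hf, k, hk⟩ := hS'' c hc
  set g₀ := Polynomial.map (eval b') (finSuccEquiv ℤ n f) with hg₀
  have hg₀0 : g₀.map (Int.castRingHom (ZMod p)) ≠ 0 := by
    intro h0
    apply hcp
    have h1 := congrArg (fun q => Polynomial.coeff q k) h0
    simp only [Polynomial.coeff_map, Polynomial.coeff_zero, hg₀, hk, eq_intCast] at h1
    rwa [ZMod.intCast_zmod_eq_zero_iff_dvd] at h1
  set g := g₀.comp (Polynomial.C (a₀ 0) + Polynomial.C (q : ℤ) * Polynomial.X) with hg
  have hg0 : g.map (Int.castRingHom (ZMod p)) ≠ 0 := by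
    rw [hg, Polynomial.map_comp]
    intro h0
    have h2 : (Polynomial.map (Int.castRingHom (ZMod p))
        (Polynomial.C (a₀ 0) + Polynomial.C (q : ℤ) * Polynomial.X)).natDegree = 1 := by
      have hq : (q : ZMod p) ≠ 0 := by
        rwa [Ne, ZMod.natCast_eq_zero_iff]
      have h3 : Polynomial.map (Int.castRingHom (ZMod p))
        (Polynomial.C (a₀ 0) + Polynomial.C (q : ℤ) * Polynomial.X) =
        Polynomial.C (q : ZMod p) * Polynomial.X + Polynomial.C (a₀ 0 : ZMod p) := by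
        simp [add_comm]
      rw [h3]
      exact Polynomial.natDegree_linear hq
    rcases Polynomial.comp_eq_zero_iff.1 h0 with h1 | ⟨_, h1⟩
    · exact hg₀0 h1
    · rw [h1, Polynomial.natDegree_C] at h2
      exact absurd h2 (by norm_num)
  have hge : g.natDegree ≤ e₀ := by
    rw [hg]
    refine (Polynomial.natDegree_comp_le).trans ?_
    have h1 : (Polynomial.C (a₀ 0) + Polynomial.C (q : ℤ) * Polynomial.X).natDegree ≤ 1 := by
      rw [add_comm]
      exact Polynomial.natDegree_linear_le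
    calc _ ≤ g₀.natDegree * 1 := Nat.mul_le_mul_left _ h1
      _ = g₀.natDegree := mul_one _
      _ ≤ e₀ := Polynomial.natDegree_map_le.trans (hD f hf)
  refine le_trans ?_ (count_roots g p H e₀ hg0 hge)
  have h2 : (A p).card ≤ ((Icc (-(H : ℤ)) H).filter (fun t => (p : ℤ) ∣ g.eval t)).card := by
    apply card_le_card
    intro t ht
    simp only [A] at ht
    rw [mem_filter] at ht ⊢
    refine ⟨ht.1, ?_⟩
    have h3 := ht.2 f hf
    rw [hev] at h3
    have h4 : g.eval t = g₀.eval (a₀ 0 + q * t) := by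
      rw [hg, Polynomial.eval_comp]
      simp
    rw [h4]
    exact h3
  exact_mod_cast h2

theorem ekA_zero (q : ℕ) (a : Fin 0 → ℤ) (S : Finset (MvPolynomial (Fin 0) ℤ))
    (hS : ∀ d, (∀ f ∈ S, d ∣ f) → IsUnit d) (M H : ℕ) : BadA q a S M H = ∅ := by
  have h := ek_zero S hS M H
  rw [eq_empty_iff_forall_notMem] at h ⊢
  intro b hb
  obtain ⟨hb1, p, hp, hM, hpS⟩ := mem_BadA.1 hb
  apply h b
  refine mem_Bad.2 ⟨hb1, p, hp, hM, ?_⟩
  have h2 : (fun i => a i + q * b i) = b := Subsingleton.elim _ _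
  rwa [h2] at hpS

/-- The number of points `b` of the box with `a + q b` divisible by a large prime: the main term
does not depend on `q` and `a`. -/
theorem ekA (n : ℕ) : ∀ S : Finset (MvPolynomial (Fin n) ℤ),
    (∀ d, (∀ f ∈ S, d ∣ f) → IsUnit d) → ∃ C₁ : ℝ, 0 ≤ C₁ ∧ ∃ M₀ : ℕ, ∀ (q : ℕ) (a : Fin n → ℤ),
    q ≠ 0 → ∃ C₂ : ℝ, 0 ≤ C₂ ∧ ∀ M H : ℕ, M₀ ≤ M → 1 ≤ M → 1 ≤ H →
    (∀ p : ℕ, p.Prime → M < p → ¬ p ∣ q) →
    ((BadA q a S M H).card : ℝ) * H ≤ C₁ * (H : ℝ) ^ (n + 1) / M + C₂ * (H : ℝ) ^ n := by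
  classical
  induction n with
  | zero =>
    intro S hS
    refine ⟨0, le_rfl, 0, fun q a _ => ⟨0, le_rfl, fun M H _ _ _ _ => ?_⟩⟩
    rw [ekA_zero q a S hS]
    simp
  | succ n ih =>
    intro S hS
    let e := finSuccEquiv ℤ n
    obtain ⟨r, hr0, hr⟩ := Pool.Agent.N17.CO.COUNT.exists_const
      ((fun f => finSuccEquiv ℤ n f) '' (S : Set _)) (by
        intro d hd
        have h1 : IsUnit (e.symm d) := by
          apply hS
          intro f hf
          have h2 := map_dvd e.symm (hd _ ⟨f, hf, rfl⟩)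
          rwa [AlgEquiv.symm_apply_apply] at h2
        have h2 := h1.map e
        rwa [AlgEquiv.apply_symm_apply] at h2)
    let S' : Finset (MvPolynomial (Fin n) ℤ) := S.biUnion fun f =>
      (range ((e f).natDegree + 1)).image fun k => (e f).coeff k
    have hS'1 : ∀ d, (∀ f ∈ S', d ∣ f) → IsUnit d := by
      intro d hd
      have h1 : IsUnit (e.symm (Polynomial.C d)) := by
        apply hS
        intro f hf
        have h2 : Polynomial.C d ∣ e f := by
          rw [Polynomial.C_dvd_iff_dvd_coeff]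
          intro k
          by_cases hk : k ≤ (e f).natDegree
          · apply hd
            rw [mem_biUnion]
            exact ⟨f, hf, mem_image.2 ⟨k, mem_range.2 (by omega), rfl⟩⟩
          · rw [Polynomial.coeff_eq_zero_of_natDegree_lt (by omega)]
            exact dvd_zero _
        have h3 := map_dvd e.symm h2
        rwa [AlgEquiv.symm_apply_apply] at h3
      have h2 := h1.map e
      rw [AlgEquiv.apply_symm_apply] at h2
      exact Polynomial.isUnit_C.1 h2
    have hS'2 : ∀ c ∈ S', ∃ f ∈ S, ∃ k, (finSuccEquiv ℤ n f).coeff k = c := by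
      intro c hc
      obtain ⟨f, hf, hc⟩ := mem_biUnion.1 hc
      obtain ⟨k, _, hk⟩ := mem_image.1 hc
      exact ⟨f, hf, k, hk⟩
    obtain ⟨C₁', hC₁', M₀', hih⟩ := ih S' hS'1
    obtain ⟨M₁, hM₁⟩ := map_ne r hr0
    let e₀ := S.sup fun f => (finSuccEquiv ℤ n f).natDegree
    have hD : ∀ f ∈ S, (finSuccEquiv ℤ n f).natDegree ≤ e₀ := fun f hf =>
      Finset.le_sup (f := fun f => (finSuccEquiv ℤ n f).natDegree) hf
    refine ⟨3 * C₁' + e₀ * r.totalDegree * 5 ^ (n + 1), by positivity, max M₀' M₁,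
      fun q a₀ hq => ?_⟩
    obtain ⟨C₂', hC₂', hih⟩ := hih q (Fin.tail a₀) hq
    set r' := sb q (Fin.tail a₀) r with hr'
    have hr'0 : r' ≠ 0 := by
      obtain ⟨p, hp, hpp⟩ := Nat.exists_infinite_primes (M₁ + q + 1)
      have hpf : Fact p.Prime := ⟨hpp⟩
      have h1 := map_sb_ne q (Fin.tail a₀) r p
        (fun h => by have := Nat.le_of_dvd (by omega) h; omega) (hM₁ p (by omega))
      intro h
      rw [← hr', h, map_zero] at h1
      exact h1 rfl
    have htd : (r'.totalDegree : ℝ) ≤ r.totalDegree := by exact_mod_cast td_sb _ _ _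
    obtain ⟨Cr, kr, hbd⟩ := bd r'
    obtain ⟨Cz, hCz⟩ := zeros_le r' hr'0
    refine ⟨3 * Cz + 3 * C₂' + 3 ^ n * e₀ * kr + 3 ^ (n + 1) * Cr, by positivity,
      fun M H hM hM1 hH hMq => ?_⟩
    have hM₁' : ∀ p : ℕ, p.Prime → M < p → map (Int.castRingHom (ZMod p)) r' ≠ 0 := by
      intro p hp hMp
      have hpf : Fact p.Prime := ⟨hp⟩
      exact map_sb_ne q (Fin.tail a₀) r p (hMq p hp hMp) (hM₁ p (by omega))
    have hH0 : (1 : ℝ) ≤ H := by exact_mod_cast hH
    have hM0 : (0 : ℝ) < M := by exact_mod_cast hM1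
    have hbox3 : ∀ k : ℕ, ((2 * H + 1 : ℕ) : ℝ) ^ k ≤ 3 ^ k * (H : ℝ) ^ k := by
      intro k
      rw [← mul_pow]
      apply pow_le_pow_left₀ (by positivity)
      push_cast
      linarith
    have hX : (0 : ℝ) ≤ (H : ℝ) ^ (n + 1 + 1) / M := by positivity
    have hY : (0 : ℝ) ≤ (H : ℝ) ^ (n + 1) := by positivity
    by_cases hCr : Cr < 2 * H
    · -- the main case
      have hmaps : ∀ a ∈ BadA q a₀ S M H, Fin.tail a ∈ bx n H := by
        intro a ha
        have h1 := Fintype.mem_piFinset.1 (mem_BadA.1 ha).1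
        exact Fintype.mem_piFinset.2 fun i => h1 i.succ
      have hcard : ((BadA q a₀ S M H).card : ℝ) =
          ∑ b ∈ bx n H, (((BadA q a₀ S M H).filter (fun a => Fin.tail a = b)).card : ℝ) := by
        rw [card_eq_sum_card_fiberwise hmaps]
        push_cast
        rfl
      have hfib : ∀ b ∈ bx n H, (((BadA q a₀ S M H).filter (fun a => Fin.tail a = b)).card : ℝ) ≤
          2 * H + 1 := by
        intro b hb
        have h1 : ((BadA q a₀ S M H).filter (fun a => Fin.tail a = b)).card ≤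
            (Icc (-(H : ℤ)) H).card := by
          refine card_le_card_of_injOn (fun a => a 0) ?_ ?_
          · intro a ha
            rw [mem_coe, mem_filter, mem_BadA] at ha
            exact (Fintype.mem_piFinset.1 ha.1.1) 0
          · intro a ha a' ha' h0
            rw [mem_coe, mem_filter] at ha ha'
            rw [← Fin.cons_self_tail a, ← Fin.cons_self_tail a', ha.2, ha'.2]
            have : a 0 = a' 0 := h0
            rw [this]
        have h2 : (Icc (-(H : ℤ)) H).card = 2 * H + 1 := by rw [Int.card_Icc]; omega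
        rw [h2] at h1
        exact_mod_cast h1
      have hle : ∀ b ∈ bx n H, (((BadA q a₀ S M H).filter (fun a => Fin.tail a = b)).card : ℝ) ≤
          (if eval b r' = 0 then (2 * (H : ℝ) + 1) else 0) +
          (if b ∈ BadA q (Fin.tail a₀) S' M H then (2 * (H : ℝ) + 1) else 0) +
          (if eval b r' ≠ 0 then
            ∑ p ∈ (eval b r').natAbs.primeFactors.filter (fun p => M < p),
              (if p ≤ 2 * H then (e₀ : ℝ) * (5 * (H : ℝ) / p) else (e₀ : ℝ)) else 0) := by
        intro b hb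
        have hpos : (0 : ℝ) ≤ ∑ p ∈ (eval b r').natAbs.primeFactors.filter (fun p => M < p),
              (if p ≤ 2 * H then (e₀ : ℝ) * (5 * (H : ℝ) / p) else (e₀ : ℝ)) := by
          apply sum_nonneg
          intro p _
          split_ifs <;> positivity
        have h0 : (0 : ℝ) ≤ 2 * (H : ℝ) + 1 := by positivity
        by_cases h1 : eval b r' = 0
        · rw [if_pos h1, if_neg (not_not.2 h1), add_zero]
          have := hfib b hb
          split_ifs <;> linarith
        · rw [if_neg h1, if_pos h1, zero_add]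
          by_cases h2 : b ∈ BadA q (Fin.tail a₀) S' M H
          · rw [if_pos h2]
            have := hfib b hb
            linarith
          · rw [if_neg h2, zero_add]
            exact fibreA_le q a₀ S S' r e₀ hS'2 hr hD M H hMq b hb h1 h2
      have htot : ((BadA q a₀ S M H).card : ℝ) ≤
          (2 * (H : ℝ) + 1) * ((bx n H).filter (fun b => eval b r' = 0)).card +
          (2 * (H : ℝ) + 1) * (BadA q (Fin.tail a₀) S' M H).card +
          (e₀ * r'.totalDegree * 5 ^ (n + 1) * (H : ℝ) ^ (n + 1) / M +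
            e₀ * kr * ((2 * H + 1 : ℕ) : ℝ) ^ n) := by
        rw [hcard]
        refine (sum_le_sum hle).trans ?_
        rw [sum_add_distrib, sum_add_distrib]
        apply add_le_add (add_le_add _ _)
        · rw [← sum_filter]
          exact sum_primes r' M hM₁' Cr kr hbd e₀ M H le_rfl hM1 hH hCr
        · rw [← sum_filter, sum_const, nsmul_eq_mul, mul_comm]
        · rw [← sum_filter, sum_const, nsmul_eq_mul, mul_comm]
          apply mul_le_mul_of_nonneg_left _ (by positivity)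
          have h3 : ((bx n H).filter (fun b => b ∈ BadA q (Fin.tail a₀) S' M H)).card ≤
              (BadA q (Fin.tail a₀) S' M H).card :=
            card_le_card fun b hb => (mem_filter.1 hb).2
          exact_mod_cast h3
      have h1 := hCz H hH
      have h2 := hih M H (by omega) hM1 hH hMq
      have h3 : 2 * (H : ℝ) + 1 ≤ 3 * H := by linarith
      set z : ℝ := (((bx n H).filter (fun b => eval b r' = 0)).card : ℝ) with hz
      set w : ℝ := ((BadA q (Fin.tail a₀) S' M H).card : ℝ) with hw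
      have hz0 : 0 ≤ z := Nat.cast_nonneg _
      have hw0 : 0 ≤ w := Nat.cast_nonneg _
      have i1 : (2 * (H : ℝ) + 1) * z * H ≤ 3 * Cz * (H : ℝ) ^ (n + 1) := by
        calc (2 * (H : ℝ) + 1) * z * H ≤ (3 * H) * z * H := by gcongr
          _ = (3 * H) * (z * H) := by ring
          _ ≤ (3 * H) * (Cz * (H : ℝ) ^ n) := mul_le_mul_of_nonneg_left h1 (by positivity)
          _ = _ := by ring
      have i2 : (2 * (H : ℝ) + 1) * w * H ≤
          3 * C₁' * ((H : ℝ) ^ (n + 1 + 1) / M) + 3 * C₂' * (H : ℝ) ^ (n + 1) := by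
        calc (2 * (H : ℝ) + 1) * w * H ≤ (3 * H) * w * H := by gcongr
          _ = (3 * H) * (w * H) := by ring
          _ ≤ (3 * H) * (C₁' * (H : ℝ) ^ (n + 1) / M + C₂' * (H : ℝ) ^ n) :=
            mul_le_mul_of_nonneg_left h2 (by positivity)
          _ = _ := by ring
      have i3 : e₀ * kr * ((2 * H + 1 : ℕ) : ℝ) ^ n * H ≤ 3 ^ n * e₀ * kr * (H : ℝ) ^ (n + 1) := by
        calc e₀ * kr * ((2 * H + 1 : ℕ) : ℝ) ^ n * H ≤
            e₀ * kr * (3 ^ n * (H : ℝ) ^ n) * H := by
              have := hbox3 n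
              gcongr
          _ = _ := by ring
      have i4 : e₀ * r'.totalDegree * 5 ^ (n + 1) * ((H : ℝ) ^ (n + 1 + 1) / M) ≤
          e₀ * r.totalDegree * 5 ^ (n + 1) * ((H : ℝ) ^ (n + 1 + 1) / M) := by
        gcongr
      have hCr0 : (0 : ℝ) ≤ 3 ^ (n + 1) * Cr := by positivity
      calc ((BadA q a₀ S M H).card : ℝ) * H ≤ ((2 * (H : ℝ) + 1) * z + (2 * (H : ℝ) + 1) * w +
          (e₀ * r'.totalDegree * 5 ^ (n + 1) * (H : ℝ) ^ (n + 1) / M +
            e₀ * kr * ((2 * H + 1 : ℕ) : ℝ) ^ n)) * H :=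
            mul_le_mul_of_nonneg_right htot (Nat.cast_nonneg _)
        _ = (2 * (H : ℝ) + 1) * z * H + (2 * (H : ℝ) + 1) * w * H +
            e₀ * r'.totalDegree * 5 ^ (n + 1) * ((H : ℝ) ^ (n + 1 + 1) / M) +
            e₀ * kr * ((2 * H + 1 : ℕ) : ℝ) ^ n * H := by ring
        _ ≤ 3 * Cz * (H : ℝ) ^ (n + 1) +
            (3 * C₁' * ((H : ℝ) ^ (n + 1 + 1) / M) + 3 * C₂' * (H : ℝ) ^ (n + 1)) +
            e₀ * r.totalDegree * 5 ^ (n + 1) * ((H : ℝ) ^ (n + 1 + 1) / M) +
            3 ^ n * e₀ * kr * (H : ℝ) ^ (n + 1) := by linarith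
        _ ≤ _ := by
            have j1 : 0 ≤ 3 ^ (n + 1) * Cr * (H : ℝ) ^ (n + 1) := mul_nonneg hCr0 hY
            have j2 : (3 * C₁' + e₀ * r.totalDegree * 5 ^ (n + 1)) * (H : ℝ) ^ (n + 1 + 1) / M =
              3 * C₁' * ((H : ℝ) ^ (n + 1 + 1) / M) +
              e₀ * r.totalDegree * 5 ^ (n + 1) * ((H : ℝ) ^ (n + 1 + 1) / M) := by ring
            rw [j2]
            linarith
    · -- small `H`
      have h1 : ((BadA q a₀ S M H).card : ℝ) ≤ 3 ^ (n + 1) * (H : ℝ) ^ (n + 1) := by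
        have h2 : (BadA q a₀ S M H).card ≤ (2 * H + 1) ^ (n + 1) := by
          rw [← card_box]
          exact card_le_card fun a ha => (mem_BadA.1 ha).1
        have h3 : ((BadA q a₀ S M H).card : ℝ) ≤ ((2 * H + 1 : ℕ) : ℝ) ^ (n + 1) := by
          exact_mod_cast h2
        exact h3.trans (hbox3 _)
      have h2 : (H : ℝ) ≤ Cr := by
        have : H ≤ Cr := by omega
        exact_mod_cast this
      have j3 : 0 ≤ (3 * C₁' + e₀ * r.totalDegree * 5 ^ (n + 1)) * (H : ℝ) ^ (n + 1 + 1) / M := by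
        positivity
      have j4 : 0 ≤ (3 * Cz + 3 * C₂' + 3 ^ n * e₀ * kr) * (H : ℝ) ^ (n + 1) := by positivity
      calc ((BadA q a₀ S M H).card : ℝ) * H ≤ (3 ^ (n + 1) * (H : ℝ) ^ (n + 1)) * Cr :=
            mul_le_mul h1 h2 (Nat.cast_nonneg _) (by positivity)
        _ ≤ _ := by linarith

end Pool.Agent.V8H73.EK
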