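import Pool.Agent.V8H73.EK.Small

/-! Regular and nodal equations: congruences and isomorphisms of the base ring. -/

set_option autoImplicit false
set_option linter.unusedVariables false

namespace Pool.Agent.V8H73.EK

open MvPolynomial NumberField Pool.Agent.TH214.RM Pool.Agent.V8H73.ND

theorem Cq_mem {O σ : Type} [CommRing O] (𝔭 : Ideal O) (q : O) (hq : q ∈ 𝔭 ^ 2)
    (Q : Ideal (MvPolynomial σ O)) (hC : ∀ r : O, C r ∈ Q ↔ r ∈ 𝔭) :
    (C q : MvPolynomial σ O) ∈ Q ^ 2 := by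
  have h1 : (𝔭 ^ 2).map (C : O →+* MvPolynomial σ O) ≤ Q ^ 2 := by
    rw [Ideal.map_pow]
    exact Ideal.pow_right_mono (Ideal.map_le_iff_le_comap.2 fun r hr => (hC r).2 hr) 2
  exact h1 (Ideal.mem_map_of_mem _ hq)

theorem critOff_congr {O : Type} [CommRing O] {n : ℕ} (𝔭 : Ideal O)
    (F F₀ B : MvPolynomial (Fin (n + 1)) O) (q : O) (hq : q ∈ 𝔭 ^ 2) (hF : F = F₀ + C q * B)
    (h : CritOff 𝔭 F₀) : CritOff 𝔭 F := by
  intro s Q hQ hC hG
  have hCq := Cq_mem 𝔭 q hq Q hC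
  have hCq1 : (C q : MvPolynomial {j : Fin (n + 1) // j ≠ s} O) ∈ Q :=
    Ideal.pow_le_self two_ne_zero hCq
  have hd : deh s F = deh s F₀ + C q * deh s B := by
    rw [hF]
    unfold deh
    rw [map_add, map_mul, aeval_C, algebraMap_eq]
  have h2 : deh s F₀ ∈ Q := by
    have h3 := Q.sub_mem hG (Q.mul_mem_right (deh s B) hCq1)
    rwa [hd, add_sub_cancel_right] at h3
  rcases h s Q hQ hC h2 with ⟨j, hj⟩ | h4 | h4
  · left
    refine ⟨j, fun h5 => hj ?_⟩
    rw [hd, map_add, pderiv_C_mul] at h5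
    have h6 := Q.sub_mem h5 (Q.mul_mem_right (pderiv j (deh s B)) hCq1)
    rwa [add_sub_cancel_right] at h6
  · right
    left
    intro f hf hfG
    refine h4 f hf ?_
    have h3 := (Q ^ 2).sub_mem hfG ((Q ^ 2).mul_mem_right (f * deh s B) hCq)
    rw [hd] at h3
    have h5 : f * (deh s F₀ + C q * deh s B) - C q * (f * deh s B) = f * deh s F₀ := by ring
    rwa [h5] at h3
  · exact Or.inr (Or.inr h4)

theorem nodeO_congr {O : Type} [CommRing O] {n : ℕ} (𝔭 : Ideal O)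
    (F F₀ B : MvPolynomial (Fin (n + 1)) O) (q : O) (hq : q ∈ 𝔭 ^ 2) (hF : F = F₀ + C q * B)
    (h : NodeO 𝔭 F₀) : NodeO 𝔭 F := by
  obtain ⟨h1, h2, h3, h4⟩ := h
  have hq1 : q ∈ 𝔭 := Ideal.pow_le_self two_ne_zero hq
  have hd : deh0 F = deh0 F₀ + C q * deh0 B := by
    rw [hF]
    unfold deh0
    rw [map_add, map_mul, aeval_C, algebraMap_eq]
  refine ⟨?_, ?_, ?_, critOff_congr 𝔭 F F₀ B q hq hF h4⟩
  · rw [hd, coeff_add, coeff_C_mul]
    exact 𝔭.add_mem h1 (𝔭.mul_mem_right _ hq1)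
  · intro s
    rw [hd, map_add, pderiv_C_mul, coeff_add, coeff_C_mul]
    exact 𝔭.add_mem (h2 s) (𝔭.mul_mem_right _ hq1)
  · intro h5
    apply h3
    rw [← Ideal.Quotient.eq_zero_iff_mem] at h5 ⊢
    rw [RingHom.map_det] at h5 ⊢
    rw [← h5]
    congr 1
    ext s r
    simp only [RingHom.mapMatrix_apply, Matrix.map_apply, Matrix.of_apply]
    rw [hd, map_add, map_add, pderiv_C_mul, pderiv_C_mul, coeff_add, coeff_C_mul, map_add, map_mul,
      Ideal.Quotient.eq_zero_iff_mem.2 hq1, zero_mul, add_zero]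

/-- `F` is regular over `𝔭` or, after a linear change of coordinates, nodal. -/
def GoodAt {O : Type} [CommRing O] {n : ℕ} (𝔭 : Ideal O) (F : MvPolynomial (Fin (n + 1)) O) :
    Prop :=
  Reg 𝔭 F ∨ ∃ T T' : Matrix (Fin (n + 1)) (Fin (n + 1)) O, T * T' = 1 ∧
    NodeO 𝔭 (aeval (lin T) F)

theorem goodAt_congr {O : Type} [CommRing O] {n : ℕ} (𝔭 : Ideal O)
    (F F₀ B : MvPolynomial (Fin (n + 1)) O) (q : O) (hq : q ∈ 𝔭 ^ 2) (hF : F = F₀ + C q * B)
    (h : GoodAt 𝔭 F₀) : GoodAt 𝔭 F := by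
  rcases h with h | ⟨T, T', hT, h⟩
  · exact Or.inl (reg_congr 𝔭 F F₀ B q hq hF h)
  · refine Or.inr ⟨T, T', hT, nodeO_congr 𝔭 _ _ (aeval (lin T) B) q hq ?_ h⟩
    rw [hF, map_add, map_mul, aeval_C, algebraMap_eq]

theorem nodeO_equiv {O O' : Type} [CommRing O] [CommRing O'] {n : ℕ} (e : O ≃+* O')
    (𝔭' : Ideal O') (F : MvPolynomial (Fin (n + 1)) O)
    (h : NodeO 𝔭' (map (e : O →+* O') F)) : NodeO (𝔭'.comap (e : O →+* O')) F := by
  obtain ⟨h1, h2, h3, h4⟩ := h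
  refine ⟨?_, ?_, ?_, ?_⟩
  · rw [Ideal.mem_comap, ← coeff_map, ← deh0_map]
    exact h1
  · intro s
    rw [Ideal.mem_comap, ← coeff_map, ← pderiv_map, ← deh0_map]
    exact h2 s
  · rw [Ideal.mem_comap, RingHom.map_det]
    intro h5
    apply h3
    have h6 : (e : O →+* O').mapMatrix
        (Matrix.of fun s r => coeff 0 (pderiv s (pderiv r (deh0 F)))) =
        Matrix.of fun s r => coeff 0 (pderiv s (pderiv r (deh0 (map (e : O →+* O') F)))) := by
      ext s r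
      simp only [RingHom.mapMatrix_apply, Matrix.map_apply, Matrix.of_apply]
      rw [← coeff_map, ← pderiv_map, ← pderiv_map, ← deh0_map]
    rwa [← h6]
  · intro s Q hQ hC hG
    let E : MvPolynomial {j : Fin (n + 1) // j ≠ s} O ≃+*
      MvPolynomial {j : Fin (n + 1) // j ≠ s} O' := mapEquiv _ e
    have hE : ∀ x, E x = map (e : O →+* O') x := fun x => rfl
    let Q' : Ideal (MvPolynomial {j : Fin (n + 1) // j ≠ s} O') := Q.comap E.symm
    have hQ' : Q'.IsPrime := Ideal.comap_isPrime _ _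
    have hmem : ∀ x, E x ∈ Q' ↔ x ∈ Q := by
      intro x
      simp only [Q', Ideal.mem_comap]
      rw [RingEquiv.symm_apply_apply]
    have hmem2 : ∀ x ∈ Q ^ 2, E x ∈ Q' ^ 2 := by
      intro x hx
      have h1 : (Q ^ 2).map (E : _ →+* MvPolynomial {j : Fin (n + 1) // j ≠ s} O') ≤ Q' ^ 2 := by
        rw [Ideal.map_pow]
        refine Ideal.pow_right_mono (Ideal.map_le_iff_le_comap.2 fun r hr => ?_) 2
        exact (hmem r).2 hr
      exact h1 (Ideal.mem_map_of_mem _ hx)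
    have hd : E (deh s F) = deh s (map (e : O →+* O') F) := map_deh _ _ _
    have hC' : ∀ r' : O', C r' ∈ Q' ↔ r' ∈ 𝔭' := by
      intro r'
      obtain ⟨r, rfl⟩ := e.surjective r'
      have h1 : (C (e r) : MvPolynomial {j : Fin (n + 1) // j ≠ s} O') = E (C r) := by
        rw [hE, map_C]
        rfl
      rw [h1, hmem, hC]
      rfl
    have hG' : deh s (map (e : O →+* O') F) ∈ Q' := by
      rw [← hd, hmem]
      exact hG
    rcases h4 s Q' hQ' hC' hG' with ⟨j, hj⟩ | h5 | ⟨h5, h6⟩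
    · left
      refine ⟨j, fun h7 => hj ?_⟩
      rw [← hd, hE, pderiv_map, ← hE, hmem]
      exact h7
    · right
      left
      intro f hf hfG
      refine h5 (E f) (fun h7 => hf ((hmem f).1 h7)) ?_
      rw [← hd, ← map_mul]
      exact hmem2 _ hfG
    · right
      right
      refine ⟨h5, fun j => ?_⟩
      have h7 := h6 j
      rw [← hmem, hE, map_X]
      exact h7

/-- From the integers to the ring of integers of the rational numbers. -/
theorem goodAt_int {n : ℕ} (F : MvPolynomial (Fin (n + 1)) ℤ) (p : ℕ) (hp : p.Prime)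
    (h : GoodAt (Ideal.span {(p : ℤ)}) F) (𝔭 : Ideal (𝓞 ℚ)) (h𝔭 : 𝔭.IsPrime)
    (hp𝔭 : (p : 𝓞 ℚ) ∈ 𝔭) : GoodAt 𝔭 (map (Int.castRingHom (𝓞 ℚ)) F) := by
  let e : 𝓞 ℚ ≃+* ℤ := Rat.ringOfIntegersEquiv
  have h1 : 𝔭 = (Ideal.span {(p : ℤ)}).comap (e : 𝓞 ℚ →+* ℤ) := by
    have h2 : (Ideal.span {(p : ℤ)}).IsMaximal := by
      have h3 : Prime (p : ℤ) := Nat.prime_iff_prime_int.1 hp
      exact PrincipalIdealRing.isMaximal_of_irreducible h3.irreducible
    have h3 : ((Ideal.span {(p : ℤ)}).comap (e : 𝓞 ℚ →+* ℤ)).IsMaximal :=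
      Ideal.comap_isMaximal_of_surjective _ e.surjective
    symm
    refine h3.eq_of_le h𝔭.ne_top ?_
    intro x hx
    rw [Ideal.mem_comap, Ideal.mem_span_singleton] at hx
    obtain ⟨t, ht⟩ := hx
    have h4 : x = (p : 𝓞 ℚ) * e.symm t := by
      apply e.injective
      rw [map_mul, RingEquiv.apply_symm_apply, map_natCast]
      exact ht
    rw [h4]
    exact 𝔭.mul_mem_right _ hp𝔭
  have hmm : ∀ G : MvPolynomial (Fin (n + 1)) ℤ,
      map (e : 𝓞 ℚ →+* ℤ) (map (Int.castRingHom (𝓞 ℚ)) G) = G := by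
    intro G
    rw [map_map]
    have h9 : (e : 𝓞 ℚ →+* ℤ).comp (Int.castRingHom (𝓞 ℚ)) = RingHom.id _ := RingHom.ext_int _ _
    rw [h9, MvPolynomial.map_id]
  rcases h with h | ⟨T, T', hT, h⟩
  · left
    rw [h1]
    apply reg_equiv
    rw [hmm]
    exact h
  · right
    refine ⟨T.map (Int.castRingHom (𝓞 ℚ)), T'.map (Int.castRingHom (𝓞 ℚ)), ?_, ?_⟩
    · rw [← Matrix.map_mul, hT, Matrix.map_one _ (map_zero _) (map_one _)]
    · rw [h1, ← map_lin]
      apply nodeO_equiv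
      rw [hmm]
      exact h

end Pool.Agent.V8H73.EK
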