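import Pool.Agent.V8H73.EK.Cong

/-! Forms with integral coefficients which are regular or nodal at the small primes and not bad at
the large primes. -/

set_option autoImplicit false
set_option linter.unusedVariables false

namespace Pool.Agent.V8H73.EK

open MvPolynomial NumberField Pool.Agent.TH214.RM Pool.Agent.V8H73.ND

/-- The local equations of a form which is regular at the small primes and not bad at the large
primes. -/
theorem locNode_of (n d : ℕ) {I : Type}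
    (fam : I → MvPolynomial (Mon (n + 2) d) ℤ × MvPolynomial (Mon (n + 2) d) ℤ)
    (hcov : ∀ (L : Type) [Field L], (2 : L) ≠ 0 → ∀ F : MvPolynomial (Fin (n + 2)) L,
      F.IsHomogeneous d → BadF F →
      ∃ ι, aeval (fun m : Mon (n + 2) d => coeff m.1 F) (fam ι).1 = 0 ∧
        aeval (fun m : Mon (n + 2) d => coeff m.1 F) (fam ι).2 = 0)
    (M : ℕ) (hM : 2 ≤ M) (F : MvPolynomial (Fin (n + 2)) ℤ) (hF : F.IsHomogeneous d)
    (hsmall : ∀ 𝔭 : Ideal (𝓞 ℚ), 𝔭.IsPrime → 𝔭 ≠ ⊥ →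
      (∃ p : ℕ, p.Prime ∧ p ≤ M ∧ (p : 𝓞 ℚ) ∈ 𝔭) → GoodAt 𝔭 (map (Int.castRingHom (𝓞 ℚ)) F))
    (hlarge : ∀ ι, ∀ p : ℕ, p.Prime → M < p →
      ¬ ((p : ℤ) ∣ eval (fun m : Mon (n + 2) d => coeff m.1 F) (fam ι).1 ∧
        (p : ℤ) ∣ eval (fun m : Mon (n + 2) d => coeff m.1 F) (fam ι).2)) :
    LocNode (𝓞 ℚ) (map (Int.castRingHom ℚ) F) := by
  classical
  intro 𝔭 hp h0
  have hmax : 𝔭.IsMaximal := hp.isMaximal h0
  let _ : Field (𝓞 ℚ ⧸ 𝔭) := Ideal.Quotient.field 𝔭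
  have hfin : Finite (𝓞 ℚ ⧸ 𝔭) := Ideal.finiteQuotientOfFreeOfNeBot 𝔭 h0
  have hft : Fintype (𝓞 ℚ ⧸ 𝔭) := Fintype.ofFinite _
  obtain ⟨p, hpc⟩ := CharP.exists (𝓞 ℚ ⧸ 𝔭)
  have hpp : p.Prime := by
    rcases CharP.char_is_prime_or_zero (𝓞 ℚ ⧸ 𝔭) p with h | h
    · exact h
    · subst h
      have := CharP.charP_to_charZero (𝓞 ℚ ⧸ 𝔭)
      exact absurd hfin (not_finite_iff_infinite.2 (Infinite.of_injective
        (Nat.cast : ℕ → 𝓞 ℚ ⧸ 𝔭) Nat.cast_injective))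
  have hp𝔭 : (p : 𝓞 ℚ) ∈ 𝔭 := by
    rw [← Ideal.Quotient.eq_zero_iff_mem, map_natCast]
    exact CharP.cast_eq_zero _ p
  have hcomp : map (algebraMap (𝓞 ℚ) ℚ) (map (Int.castRingHom (𝓞 ℚ)) F) =
      map (Int.castRingHom ℚ) F := by
    rw [map_map]
    congr 1
  have hid : ∀ G : MvPolynomial (Fin (n + 2)) ℚ,
      aeval (fun i => ∑ j, C ((1 : Matrix (Fin (n + 2)) (Fin (n + 2)) ℚ) i j) * X j) G = G := by
    intro G
    have h1 : (aeval (fun i => ∑ j, C ((1 : Matrix (Fin (n + 2)) (Fin (n + 2)) ℚ) i j) * X j) :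
        MvPolynomial (Fin (n + 2)) ℚ →ₐ[ℚ] MvPolynomial (Fin (n + 2)) ℚ) = AlgHom.id ℚ _ := by
      apply MvPolynomial.algHom_ext
      intro i
      rw [aeval_X, AlgHom.id_apply]
      simp [Matrix.one_apply]
    rw [h1, AlgHom.id_apply]
  by_cases hpM : p ≤ M
  · rcases hsmall 𝔭 hp h0 ⟨p, hpp, hpM, hp𝔭⟩ with h3 | ⟨T, T', hT, h3⟩
    · refine ⟨map (Int.castRingHom (𝓞 ℚ)) F, 1, 1, 1, one_ne_zero, one_mul 1, ?_, Or.inl h3.crit⟩
      rw [hid, C_1, one_mul, hcomp]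
    · refine ⟨_, 1, T.map (algebraMap (𝓞 ℚ) ℚ), T'.map (algebraMap (𝓞 ℚ) ℚ), one_ne_zero, ?_,
        ?_, Or.inr h3⟩
      · rw [← Matrix.map_mul, hT, Matrix.map_one _ (map_zero _) (map_one _)]
      · rw [map_lin, hcomp, C_1, one_mul]
        rfl
  · push Not at hpM
    let L := AlgebraicClosure (𝓞 ℚ ⧸ 𝔭)
    have hLc : CharP L p := charP_of_injective_algebraMap
      (algebraMap (𝓞 ℚ ⧸ 𝔭) L).injective p
    have h2 : (2 : L) ≠ 0 := by
      intro h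
      have h3 : ((2 : ℕ) : L) = 0 := by exact_mod_cast h
      rw [CharP.cast_eq_zero_iff L p] at h3
      have := Nat.le_of_dvd (by norm_num) h3
      omega
    have hFO : (map (Int.castRingHom (𝓞 ℚ)) F).IsHomogeneous d := hF.map _
    have hnb : ¬ BadF (map ((algebraMap (𝓞 ℚ ⧸ 𝔭) L).comp (Ideal.Quotient.mk 𝔭))
        (map (Int.castRingHom (𝓞 ℚ)) F)) := by
      intro hb
      obtain ⟨ι, h3, h4⟩ := hcov L h2 _ (hFO.map _) hb
      have h5 : ∀ m : Mon (n + 2) d,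
          coeff m.1 (map ((algebraMap (𝓞 ℚ ⧸ 𝔭) L).comp (Ideal.Quotient.mk 𝔭))
            (map (Int.castRingHom (𝓞 ℚ)) F)) = ((coeff m.1 F : ℤ) : L) := by
        intro m
        rw [map_map, coeff_map]
        exact eq_intCast (((algebraMap (𝓞 ℚ ⧸ 𝔭) L).comp (Ideal.Quotient.mk 𝔭)).comp
          (Int.castRingHom (𝓞 ℚ))) _
      simp only [h5] at h3 h4
      rw [aeval_intCast (fun m : Mon (n + 2) d => coeff m.1 F),
        CharP.intCast_eq_zero_iff L p] at h3 h4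
      exact hlarge ι p hpp hpM ⟨h3, h4⟩
    rcases notBad (L := L) 𝔭 (Ideal.Quotient.mk 𝔭) Ideal.Quotient.mk_surjective
      (fun r => Ideal.Quotient.eq_zero_iff_mem) _ d hFO hnb with h3 | ⟨T, T', hT, h3⟩
    · refine ⟨map (Int.castRingHom (𝓞 ℚ)) F, 1, 1, 1, one_ne_zero, one_mul 1, ?_, Or.inl h3⟩
      rw [hid, C_1, one_mul, hcomp]
    · refine ⟨_, 1, T.map (algebraMap (𝓞 ℚ) ℚ), T'.map (algebraMap (𝓞 ℚ) ℚ), one_ne_zero, ?_,
        ?_, Or.inr h3⟩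
      · rw [← Matrix.map_mul, hT, Matrix.map_one _ (map_zero _) (map_one _)]
      · rw [map_lin, hcomp, C_1, one_mul]
        rfl

end Pool.Agent.V8H73.EK
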