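import Pool.Agent.V8H73.EK.Aff
import Pool.Agent.V8H73.EK.LocN

/-! The proportion of the forms with integral coefficients which are smooth and have regular or
nodal local equations. -/

set_option autoImplicit false
set_option linter.unusedVariables false

namespace Pool.Agent.V8H73.EK

open MvPolynomial NumberField Pool.Agent.TH214.RM Pool.Agent.V8H73.ND Finset

theorem sb_ne {n : ℕ} (q : ℕ) (hq : q ≠ 0) (a : Fin n → ℤ) (r : MvPolynomial (Fin n) ℤ)
    (hr : r ≠ 0) : sb q a r ≠ 0 := by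
  obtain ⟨M₁, hM₁⟩ := map_ne r hr
  obtain ⟨p, hp, hpp⟩ := Nat.exists_infinite_primes (M₁ + q + 1)
  have hpf : Fact p.Prime := ⟨hpp⟩
  have h1 := map_sb_ne q a r p
    (fun h => by have := Nat.le_of_dvd (by omega) h; omega) (hM₁ p (by omega))
  intro h
  rw [h, map_zero] at h1
  exact h1 rfl

/-- the good points of the box -/
noncomputable def Gd {N : ℕ} {I : Type} (S : I → Finset (MvPolynomial (Fin N) ℤ))
    (r : MvPolynomial (Fin N) ℤ) (M q : ℕ) (a : Fin N → ℤ) (H : ℕ) : Finset (Fin N → ℤ) :=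
  @Finset.filter _ (fun b => (∀ i, b ∉ BadA q a (S i) M H) ∧
    eval (fun j => a j + q * b j) r ≠ 0) (Classical.decPred _) (bx N H)

theorem mem_Gd {N : ℕ} {I : Type} {S : I → Finset (MvPolynomial (Fin N) ℤ)}
    {r : MvPolynomial (Fin N) ℤ} {M q : ℕ} {a : Fin N → ℤ} {H : ℕ} {b : Fin N → ℤ} :
    b ∈ Gd S r M q a H ↔ b ∈ bx N H ∧ (∀ i, b ∉ BadA q a (S i) M H) ∧
      eval (fun j => a j + q * b j) r ≠ 0 := by
  unfold Gd
  exact @Finset.mem_filter _ _ (Classical.decPred _) _ _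

theorem count_main (N : ℕ) {I : Type} [Fintype I] (S : I → Finset (MvPolynomial (Fin N) ℤ))
    (hS : ∀ i, ∀ D, (∀ f ∈ S i, D ∣ f) → IsUnit D) (r : MvPolynomial (Fin N) ℤ) (hr : r ≠ 0) :
    ∃ C : ℝ, 0 ≤ C ∧ ∀ M : ℕ, 1 ≤ M → ∀ (q : ℕ) (a : Fin N → ℤ), q ≠ 0 →
      (∀ p : ℕ, p.Prime → M < p → ¬ p ∣ q) → ∀ ε : ℝ, 0 < ε → ∃ H₀ : ℕ, ∀ H : ℕ, H₀ ≤ H →
      (1 - C / M - ε) * ((2 * H + 1 : ℕ) : ℝ) ^ N ≤ ((Gd S r M q a H).card : ℝ) := by
  classical
  choose C₁ hC₁ M₀ hM₀ using fun i => ekA N (S i) (hS i)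
  have hA : (0 : ℝ) ≤ ∑ i, C₁ i := Finset.sum_nonneg fun i _ => hC₁ i
  have hB : (0 : ℝ) ≤ ∑ i, (M₀ i : ℝ) := Finset.sum_nonneg fun i _ => Nat.cast_nonneg _
  refine ⟨∑ i, C₁ i + ∑ i, (M₀ i : ℝ), by positivity, ?_⟩
  intro M hM q a hq hMq ε hε
  have hM0 : (0 : ℝ) < M := by exact_mod_cast hM
  by_cases hall : ∀ i, M₀ i ≤ M
  · choose C₂ hC₂ hbd using fun i => hM₀ i q a hq
    obtain ⟨Cz, hCz⟩ := zeros_le (sb q a r) (sb_ne q hq a r hr)
    have hD : (0 : ℝ) ≤ ∑ i, C₂ i := Finset.sum_nonneg fun i _ => hC₂ i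
    obtain ⟨H₁, hH₁⟩ := exists_nat_ge ((∑ i, C₂ i + Cz) / ε)
    refine ⟨max 1 H₁, fun H hH => ?_⟩
    have hH1 : 1 ≤ H := le_trans (le_max_left _ _) hH
    have hH0 : (0 : ℝ) < H := by exact_mod_cast hH1
    set X : ℝ := ((2 * H + 1 : ℕ) : ℝ) ^ N with hX
    have hHX : (H : ℝ) ^ N ≤ X := by
      rw [hX]
      apply pow_le_pow_left₀ hH0.le
      push_cast
      linarith
    have hX0 : 0 ≤ X := le_trans (by positivity) hHX
    -- the bad points
    have hbad : ∀ i, ((BadA q a (S i) M H).card : ℝ) ≤ (C₁ i / M + C₂ i / H) * X := by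
      intro i
      have h1 := hbd i M H (hall i) hM hH1 hMq
      have h2 : ((BadA q a (S i) M H).card : ℝ) ≤ (C₁ i / M + C₂ i / H) * (H : ℝ) ^ N := by
        have h3 : ((BadA q a (S i) M H).card : ℝ) =
            (((BadA q a (S i) M H).card : ℝ) * H) / H := by field_simp
        rw [h3, div_le_iff₀ hH0]
        refine h1.trans (le_of_eq ?_)
        rw [pow_succ]
        field_simp
      refine h2.trans (mul_le_mul_of_nonneg_left hHX ?_)
      have := hC₁ i
      have := hC₂ i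
      positivity
    have hz : (((bx N H).filter (fun b => eval b (sb q a r) = 0)).card : ℝ) ≤ (Cz / H) * X := by
      have h1 := hCz H hH1
      have h2 : (((bx N H).filter (fun b => eval b (sb q a r) = 0)).card : ℝ) ≤
          (Cz / H) * (H : ℝ) ^ N := by
        rw [div_mul_eq_mul_div, le_div_iff₀ hH0]
        exact h1
      exact h2.trans (mul_le_mul_of_nonneg_left hHX (by positivity))
    have hcov : bx N H ⊆ Gd S r M q a H ∪ (Finset.univ.biUnion fun i => BadA q a (S i) M H) ∪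
        (bx N H).filter (fun b => eval b (sb q a r) = 0) := by
      intro b hb
      rw [mem_union, mem_union, mem_filter, mem_biUnion, mem_Gd, eval_sb]
      by_cases h1 : ∃ i, b ∈ BadA q a (S i) M H
      · obtain ⟨i, hi⟩ := h1
        exact Or.inl (Or.inr ⟨i, mem_univ _, hi⟩)
      · push Not at h1
        by_cases h2 : eval (fun j => a j + q * b j) r = 0
        · exact Or.inr ⟨hb, h2⟩
        · exact Or.inl (Or.inl ⟨hb, h1, h2⟩)
    have hcard : X ≤ ((Gd S r M q a H).card : ℝ) + ∑ i, ((BadA q a (S i) M H).card : ℝ) +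
        (((bx N H).filter (fun b => eval b (sb q a r) = 0)).card : ℝ) := by
      have h1 := (card_le_card hcov).trans ((card_union_le _ _).trans
        (Nat.add_le_add_right ((card_union_le _ _).trans (Nat.add_le_add_left card_biUnion_le _)) _))
      rw [card_box] at h1
      have h2 : (((2 * H + 1) ^ N : ℕ) : ℝ) ≤ _ := Nat.cast_le.2 h1
      push_cast at h2
      rw [hX]
      push_cast
      exact h2
    have hsum : ∑ i, ((BadA q a (S i) M H).card : ℝ) ≤
        ((∑ i, C₁ i) / M + (∑ i, C₂ i) / H) * X := by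
      refine (Finset.sum_le_sum fun i _ => hbad i).trans (le_of_eq ?_)
      rw [← Finset.sum_mul, Finset.sum_add_distrib, Finset.sum_div, Finset.sum_div]
    have hlast : (∑ i, C₂ i + Cz) / H ≤ ε := by
      have h1 : (H₁ : ℝ) ≤ H := by exact_mod_cast le_trans (le_max_right _ _) hH
      have h2 := hH₁.trans h1
      rw [div_le_iff₀ hε] at h2
      rw [div_le_iff₀ hH0]
      linarith
    have h5 : (∑ i, C₁ i) / M ≤ (∑ i, C₁ i + ∑ i, (M₀ i : ℝ)) / M := by
      apply div_le_div_of_nonneg_right _ hM0.le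
      linarith
    have h6 : ((∑ i, C₁ i) / M + (∑ i, C₂ i) / H) * X + (Cz / H) * X ≤
        ((∑ i, C₁ i + ∑ i, (M₀ i : ℝ)) / M + ε) * X := by
      rw [← add_mul]
      apply mul_le_mul_of_nonneg_right _ hX0
      have h7 : (∑ i, C₂ i + Cz) / H = (∑ i, C₂ i) / H + Cz / H := add_div _ _ _
      linarith
    have h8 : (1 - (∑ i, C₁ i + ∑ i, (M₀ i : ℝ)) / M - ε) * X =
        X - ((∑ i, C₁ i + ∑ i, (M₀ i : ℝ)) / M + ε) * X := by ring
    rw [h8]
    linarith
  · push Not at hall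
    obtain ⟨i, hi⟩ := hall
    refine ⟨0, fun H _ => ?_⟩
    have h1 : (M : ℝ) ≤ ∑ i, C₁ i + ∑ i, (M₀ i : ℝ) := by
      have h2 : (M₀ i : ℝ) ≤ ∑ i, (M₀ i : ℝ) :=
        Finset.single_le_sum (f := fun i => (M₀ i : ℝ)) (fun j _ => Nat.cast_nonneg _) (mem_univ i)
      have h3 : (M : ℝ) ≤ M₀ i := by exact_mod_cast hi.le
      linarith
    have h2 : 1 ≤ (∑ i, C₁ i + ∑ i, (M₀ i : ℝ)) / M := by
      rw [le_div_iff₀ hM0]
      linarith
    have h3 : (1 - (∑ i, C₁ i + ∑ i, (M₀ i : ℝ)) / M - ε) * ((2 * H + 1 : ℕ) : ℝ) ^ N ≤ 0 :=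
      mul_nonpos_of_nonpos_of_nonneg (by linarith) (by positivity)
    exact h3.trans (Nat.cast_nonneg _)

end Pool.Agent.V8H73.EK
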