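import Pool.Agent.V8H73.EK.Elim

/-! Forms with two singular points or a degenerate singular point come from families with few
parameters. -/

set_option autoImplicit false
set_option linter.unusedVariables false

namespace Pool.Agent.V8H73.EK

open MvPolynomial

section

variable {k : ℕ} {L : Type} [Field L]

/-- the chain rule -/
theorem pderiv_sub (w : Fin k → MvPolynomial (Fin k) L) (m : Fin k)
    (F : MvPolynomial (Fin k) L) :
    pderiv m (aeval w F) = ∑ l, pderiv m (w l) * aeval w (pderiv l F) := by
  classical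
  induction F using MvPolynomial.induction_on with
  | C a => simp
  | add p q hp hq =>
    simp only [map_add, hp, hq, mul_add, Finset.sum_add_distrib]
  | mul_X p i hp =>
    rw [map_mul, aeval_X, pderiv_mul, hp]
    have h3 : ∀ l, pderiv m (w l) * aeval w (pderiv l (p * X i)) =
        pderiv m (w l) * aeval w (pderiv l p) * w i +
          (if i = l then pderiv m (w l) * aeval w p else 0) := by
      intro l
      rw [pderiv_mul, pderiv_X, map_add, map_mul, aeval_X, mul_add, mul_assoc]
      congr 1
      simp only [Pi.single_apply]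
      split_ifs <;> simp_all
    simp only [h3, Finset.sum_add_distrib]
    congr 1
    · rw [Finset.sum_mul]
    · rw [Finset.sum_ite_eq Finset.univ i, if_pos (Finset.mem_univ _), mul_comm]

/-- the value of a form at a unit vector -/
theorem eval_single (G : MvPolynomial (Fin k) L) (D : ℕ) (hG : G.IsHomogeneous D) (i : Fin k) :
    eval (Pi.single i 1) G = coeff (Finsupp.single i D) G := by
  classical
  rw [eval_eq', Finset.sum_eq_single (Finsupp.single i D)]
  · have h1 : ∏ j, (Pi.single i (1 : L) : Fin k → L) j ^ (Finsupp.single i D : Fin k →₀ ℕ) j = 1 := by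
      refine Finset.prod_eq_one fun j _ => ?_
      by_cases h : j = i
      · subst h
        simp
      · rw [Finsupp.single_apply, if_neg (Ne.symm h), pow_zero]
    rw [h1, mul_one]
  · intro m hm hne
    have hdeg : m.degree = D := by
      by_contra h
      exact (mem_support_iff.1 hm) (hG.coeff_eq_zero h)
    obtain ⟨j, hj, hmj⟩ : ∃ j, j ≠ i ∧ m j ≠ 0 := by
      by_contra hcon
      push Not at hcon
      apply hne
      have h1 : m = Finsupp.single i (m i) := by
        ext j
        by_cases h : j = i
        · subst h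
          simp
        · rw [hcon j h, Finsupp.single_apply, if_neg (Ne.symm h)]
      rw [h1] at hdeg
      rw [Finsupp.degree_single] at hdeg
      rw [h1, hdeg]
    have h2 : ∏ j, (Pi.single i (1 : L) : Fin k → L) j ^ m j = 0 := by
      apply Finset.prod_eq_zero (Finset.mem_univ j)
      rw [Pi.single_eq_of_ne hj, zero_pow hmj]
    rw [h2, mul_zero]
  · intro h
    rw [notMem_support_iff.1 h, zero_mul]

theorem coef1 (F₀ : MvPolynomial (Fin k) L) (d : ℕ) (hd : 1 ≤ d) (hF₀ : F₀.IsHomogeneous d)
    (i : Fin k) (h0 : eval (Pi.single i 1) F₀ = 0)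
    (h1 : ∀ s, eval (Pi.single i 1) (pderiv s F₀) = 0) (s : Fin k) :
    coeff (Finsupp.single i (d - 1) + Finsupp.single s 1) F₀ = 0 := by
  classical
  by_cases hs : s = i
  · subst hs
    rw [← Finsupp.single_add, Nat.sub_add_cancel hd, ← eval_single F₀ d hF₀, h0]
  · have h2 := h1 s
    rw [eval_single (pderiv s F₀) (d - 1) hF₀.pderiv, coeff_pderiv, Finsupp.single_apply,
      if_neg (Ne.symm hs), Nat.cast_zero, zero_add, mul_one] at h2
    exact h2

theorem coef2 (F₀ : MvPolynomial (Fin k) L) (d : ℕ) (hd : 2 ≤ d) (hF₀ : F₀.IsHomogeneous d)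
    (h2 : (2 : L) ≠ 0) (i j : Fin k) (hij : j ≠ i)
    (h1 : ∀ s, eval (Pi.single i 1) (pderiv j (pderiv s F₀)) = 0) (s : Fin k) (hs : s ≠ i) :
    coeff (Finsupp.single i (d - 2) + Finsupp.single j 1 + Finsupp.single s 1) F₀ = 0 := by
  classical
  have h3 := h1 s
  have h4 : (pderiv j (pderiv s F₀)).IsHomogeneous (d - 2) := by
    have h5 := (hF₀.pderiv (i := s)).pderiv (i := j)
    rwa [show d - 1 - 1 = d - 2 by omega] at h5
  rw [eval_single _ (d - 2) h4, coeff_pderiv, coeff_pderiv, Finsupp.single_apply,
    if_neg (Ne.symm hij), Nat.cast_zero, zero_add, mul_one, Finsupp.add_apply,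
    Finsupp.single_apply, if_neg (Ne.symm hs), zero_add] at h3
  rcases mul_eq_zero.1 h3 with h5 | h5
  · exact h5
  · exfalso
    rw [Finsupp.single_apply] at h5
    split_ifs at h5
    · apply h2
      rw [← h5]
      norm_num
    · simp at h5

/-- `F` vanishes to the second order at `P`. -/
def Sing (F : MvPolynomial (Fin k) L) (P : Fin k → L) : Prop :=
  eval P F = 0 ∧ ∀ l, eval P (pderiv l F) = 0

/-- `F` has two singular points or a singular point with degenerate Hessian form. -/
def BadF (F : MvPolynomial (Fin k) L) : Prop :=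
  ∃ P Q : Fin k → L, (∀ a b : L, a • P + b • Q = 0 → a = 0 ∧ b = 0) ∧ Sing F P ∧
    (Sing F Q ∨ ∀ l, ∑ j, Q j * eval P (pderiv j (pderiv l F)) = 0)

theorem eval_smul' (G : MvPolynomial (Fin k) L) (D : ℕ) (hG : G.IsHomogeneous D) (c : L)
    (P : Fin k → L) : eval (c • P) G = c ^ D * eval P G := by
  classical
  rw [eval_eq', eval_eq', Finset.mul_sum]
  refine Finset.sum_congr rfl fun m hm => ?_
  have hdeg : m.degree = D := by
    by_contra h
    exact (mem_support_iff.1 hm) (hG.coeff_eq_zero h)
  have h1 : ∏ i, (c • P) i ^ m i = c ^ D * ∏ i, P i ^ m i := by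
    simp only [Pi.smul_apply, smul_eq_mul, mul_pow, Finset.prod_mul_distrib]
    rw [Finset.prod_pow_eq_pow_sum, ← hdeg, Finsupp.degree_eq_sum]
  rw [h1]
  ring

theorem Sing.smul {F : MvPolynomial (Fin k) L} {d : ℕ} (hF : F.IsHomogeneous d) {P : Fin k → L}
    (h : Sing F P) (c : L) : Sing F (c • P) := by
  refine ⟨?_, fun l => ?_⟩
  · rw [eval_smul' F d hF, h.1, mul_zero]
  · rw [eval_smul' _ (d - 1) hF.pderiv, h.2 l, mul_zero]

end

section

variable {k : ℕ} {R : Type} [CommRing R]

/-- the substitution which undoes `tg` -/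
noncomputable def sg (i j : Fin k) (lam : R) (P v : Fin k → R) (l : Fin k) :
    MvPolynomial (Fin k) R :=
  if l = i then C (1 + lam * P j) * X i - C lam * X j
  else if l = j then X j - C (P j) * X i
  else X l - C (P l) * X i - C (v l) * (X j - C (P j) * X i)

/-- the substitution which moves two unit vectors to `P` and `u` -/
noncomputable def tg (i j : Fin k) (P u : Fin k → R) (l : Fin k) : MvPolynomial (Fin k) R :=
  C (P l) * X i + C (u l) * X j + (if l = i ∨ l = j then 0 else X l)

theorem map_sg {R' : Type} [CommRing R'] (φ : R →+* R') (i j : Fin k) (lam : R)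
    (P v : Fin k → R) (l : Fin k) :
    map φ (sg i j lam P v l) = sg i j (φ lam) (fun l => φ (P l)) (fun l => φ (v l)) l := by
  unfold sg
  split_ifs <;> simp

theorem sg_congr (i j : Fin k) {a b : R} {P P' v v' : Fin k → R} (h0 : a = b)
    (h1 : ∀ l, P l = P' l) (h2 : ∀ l, v l = v' l) (l : Fin k) :
    sg i j a P v l = sg i j b P' v' l := by
  rw [h0, funext h1, funext h2]

theorem sg_tg (i j : Fin k) (hij : j ≠ i) (lam : R) (P v : Fin k → R) (hP : P i = 1)
    (hvi : v i = 0) (hvj : v j = 1) (F : MvPolynomial (Fin k) R) :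
    aeval (sg i j lam P v) (aeval (tg i j P (fun l => lam * P l + v l)) F) = F := by
  have h : (aeval (sg i j lam P v) : MvPolynomial (Fin k) R →ₐ[R] MvPolynomial (Fin k) R).comp
      (aeval (tg i j P (fun l => lam * P l + v l))) = AlgHom.id R _ := by
    apply MvPolynomial.algHom_ext
    intro l
    rw [AlgHom.comp_apply, aeval_X, AlgHom.id_apply]
    unfold tg
    rw [map_add, map_add, map_mul, map_mul, aeval_X, aeval_X, aeval_C, aeval_C, algebraMap_eq]
    by_cases h1 : l = i
    · subst h1
      rw [if_pos (Or.inl rfl), map_zero, hP]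
      simp only [sg, if_true, if_neg hij, mul_one, add_zero, C_1, C_add, C_mul, one_mul, hP, hvi]
      ring
    · by_cases h2 : l = j
      · subst h2
        rw [if_pos (Or.inr rfl), map_zero]
        simp only [sg, if_true, if_neg hij, add_zero, C_1, C_add, C_mul, one_mul, hvj]
        ring
      · rw [if_neg (by tauto), aeval_X]
        simp only [sg, if_true, if_neg hij, if_neg h1, if_neg h2, C_1, C_add, C_mul]
        ring
  exact congrArg (fun φ => φ F) (congrArg DFunLike.coe h)

end

section

variable {k : ℕ} {L : Type} [Field L]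

theorem pderiv_tg (i j : Fin k) (hij : j ≠ i) (P u : Fin k → L) (l m : Fin k) :
    pderiv m (tg i j P u l) = C (if m = i then P l else if m = j then u l else
      if l = m then 1 else 0) := by
  classical
  unfold tg
  rw [map_add, map_add, pderiv_C_mul, pderiv_C_mul, pderiv_X, pderiv_X]
  simp only [Pi.single_apply]
  by_cases h1 : m = i
  · subst h1
    rw [if_pos rfl, if_neg hij, if_pos rfl]
    split_ifs with h2
    · simp
    · rw [pderiv_X, Pi.single_apply, if_neg (fun h => h2 (Or.inl h))]
      simp
  · by_cases h2 : m = j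
    · subst h2
      rw [if_neg (Ne.symm hij), if_pos rfl, if_neg h1, if_pos rfl]
      split_ifs with h3
      · simp
      · rw [pderiv_X, Pi.single_apply, if_neg (fun h => h3 (Or.inr h))]
        simp
    · rw [if_neg (Ne.symm h1), if_neg (Ne.symm h2), if_neg h1, if_neg h2]
      split_ifs with h3 h4 h4
      · exfalso
        subst h4
        tauto
      · simp
      · subst h4
        rw [pderiv_X]
        simp
      · rw [pderiv_X, Pi.single_apply, if_neg h4]
        simp

theorem tg_homog (i j : Fin k) (P u : Fin k → L) (l : Fin k) :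
    (tg i j P u l).IsHomogeneous 1 := by
  unfold tg
  refine IsHomogeneous.add (IsHomogeneous.add ?_ ?_) ?_
  · have h2 := (isHomogeneous_C (Fin k) (P l)).mul (isHomogeneous_X L i)
    rwa [zero_add] at h2
  · have h2 := (isHomogeneous_C (Fin k) (u l)).mul (isHomogeneous_X L j)
    rwa [zero_add] at h2
  · split_ifs
    · exact isHomogeneous_zero _ _ _
    · exact isHomogeneous_X _ _

theorem eval_tg_i (i j : Fin k) (hij : j ≠ i) (P u : Fin k → L) (l : Fin k) :
    eval (Pi.single i 1) (tg i j P u l) = P l := by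
  classical
  unfold tg
  simp only [map_add, map_mul, eval_C, eval_X, Pi.single_eq_same, Pi.single_eq_of_ne hij, mul_one,
    mul_zero, add_zero]
  split_ifs with h
  · simp
  · rw [eval_X, Pi.single_eq_of_ne (fun h1 => h (Or.inl h1)), add_zero]

theorem eval_tg_j (i j : Fin k) (hij : j ≠ i) (P u : Fin k → L) (l : Fin k) :
    eval (Pi.single j 1) (tg i j P u l) = u l := by
  classical
  unfold tg
  simp only [map_add, map_mul, eval_C, eval_X, Pi.single_eq_same, Pi.single_eq_of_ne hij.symm,
    mul_one, mul_zero, zero_add]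
  split_ifs with h
  · simp
  · rw [eval_X, Pi.single_eq_of_ne (fun h1 => h (Or.inr h1)), add_zero]

theorem eval_aeval (w : Fin k → MvPolynomial (Fin k) L) (x : Fin k → L)
    (F : MvPolynomial (Fin k) L) : eval x (aeval w F) = eval (fun l => eval x (w l)) F := by
  have h : (eval x).comp (aeval w : MvPolynomial (Fin k) L →ₐ[L] MvPolynomial (Fin k) L).toRingHom =
      eval (fun l => eval x (w l)) := by
    apply MvPolynomial.ringHom_ext
    · intro r
      simp
    · intro l
      simp
  exact congrArg (fun φ => φ F) (congrArg DFunLike.coe h)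

theorem eval_F0 (i j : Fin k) (hij : j ≠ i) (P u : Fin k → L) (G : MvPolynomial (Fin k) L) :
    eval (Pi.single i 1) (aeval (tg i j P u) G) = eval P G ∧
      eval (Pi.single j 1) (aeval (tg i j P u) G) = eval u G := by
  refine ⟨?_, ?_⟩
  · rw [eval_aeval]
    congr 1
    congr 1
    funext l
    exact eval_tg_i i j hij P u l
  · rw [eval_aeval]
    congr 1
    congr 1
    funext l
    exact eval_tg_j i j hij P u l

theorem eval_dF0 (i j : Fin k) (hij : j ≠ i) (P u : Fin k → L) (F : MvPolynomial (Fin k) L)
    (m : Fin k) :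
    ((∀ l, eval P (pderiv l F) = 0) →
      eval (Pi.single i 1) (pderiv m (aeval (tg i j P u) F)) = 0) ∧
    ((∀ l, eval u (pderiv l F) = 0) →
      eval (Pi.single j 1) (pderiv m (aeval (tg i j P u) F)) = 0) := by
  refine ⟨fun h => ?_, fun h => ?_⟩
  · rw [pderiv_sub, map_sum]
    refine Finset.sum_eq_zero fun l _ => ?_
    rw [map_mul, (eval_F0 i j hij P u _).1, h l, mul_zero]
  · rw [pderiv_sub, map_sum]
    refine Finset.sum_eq_zero fun l _ => ?_
    rw [map_mul, (eval_F0 i j hij P u _).2, h l, mul_zero]

theorem eval_ddF0 (i j : Fin k) (hij : j ≠ i) (P u : Fin k → L) (F : MvPolynomial (Fin k) L)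
    (s : Fin k) (h : ∀ l, ∑ m, u m * eval P (pderiv m (pderiv l F)) = 0) :
    eval (Pi.single i 1) (pderiv j (pderiv s (aeval (tg i j P u) F))) = 0 := by
  rw [pderiv_sub, map_sum, map_sum]
  refine Finset.sum_eq_zero fun l _ => ?_
  rw [pderiv_tg i j hij, pderiv_C_mul, map_mul, pderiv_sub, map_sum]
  have h1 : ∑ m, eval (Pi.single i 1) (pderiv j (tg i j P u m) *
      aeval (tg i j P u) (pderiv m (pderiv l F))) =
      ∑ m, u m * eval P (pderiv m (pderiv l F)) := by
    refine Finset.sum_congr rfl fun m _ => ?_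
    rw [map_mul, (eval_F0 i j hij P u _).1, pderiv_tg i j hij, eval_C, if_neg hij, if_pos rfl]
  rw [h1, h l, mul_zero]

end

section families

variable {k : ℕ}

/-- the parameters of the degenerate forms -/
abbrev PA (i j : Fin k) : Type := {l : Fin k // l ≠ i} ⊕ {l : Fin k // l ≠ i ∧ l ≠ j}

theorem card_PA (i j : Fin k) (hij : j ≠ i) : Fintype.card (PA i j) + 3 = 2 * k := by
  classical
  have h1 : Fintype.card {l : Fin k // l ≠ i} = k - 1 := by
    rw [Fintype.card_subtype_compl, Fintype.card_subtype_eq, Fintype.card_fin]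
  have h2 : Fintype.card {l : Fin k // l ≠ i ∧ l ≠ j} = k - 2 := by
    rw [Fintype.card_subtype]
    have h3 : (Finset.univ.filter fun l : Fin k => l ≠ i ∧ l ≠ j) =
        (Finset.univ.erase i).erase j := by
      ext l
      simp only [Finset.mem_filter, Finset.mem_univ, true_and, Finset.mem_erase]
      tauto
    rw [h3, Finset.card_erase_of_mem, Finset.card_erase_of_mem (Finset.mem_univ _),
      Finset.card_univ, Fintype.card_fin]
    · omega
    · exact Finset.mem_erase.2 ⟨hij, Finset.mem_univ _⟩
  have h3 : 2 ≤ k := by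
    have hi := i.2
    have hj := j.2
    have : (j : ℕ) ≠ i := fun h => hij (Fin.ext h)
    omega
  rw [Fintype.card_sum, h1, h2]
  omega

/-- the monomials missing in the degenerate forms -/
noncomputable def eA (i j : Fin k) (d : ℕ) (hd : 2 ≤ d) :
    (Fin k ⊕ {l : Fin k // l ≠ i}) → Mon k d
  | Sum.inl s => ⟨Finsupp.single i (d - 1) + Finsupp.single s 1, by
      rw [map_add, Finsupp.degree_single, Finsupp.degree_single]
      omega⟩
  | Sum.inr s => ⟨Finsupp.single i (d - 2) + Finsupp.single j 1 + Finsupp.single s.1 1, by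
      rw [map_add, map_add, Finsupp.degree_single, Finsupp.degree_single, Finsupp.degree_single]
      omega⟩

theorem single_inj {i s s' : Fin k} {m : Fin k →₀ ℕ}
    (h : m + Finsupp.single s 1 = m + Finsupp.single s' 1) : s = s' := by
  have h1 := add_left_cancel h
  exact Finsupp.single_left_injective one_ne_zero h1

theorem eA_inj (i j : Fin k) (hij : j ≠ i) (d : ℕ) (hd : 2 ≤ d) :
    Function.Injective (eA i j d hd) := by
  classical
  have key : ∀ (s : Fin k) (s' : {l : Fin k // l ≠ i}),
      eA i j d hd (Sum.inl s) ≠ eA i j d hd (Sum.inr s') := by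
    intro s s' h
    have h1 := congrArg (fun m : Mon k d => m.1 i) h
    simp only [eA, Finsupp.add_apply, Finsupp.single_apply, if_true, if_neg hij,
      if_neg s'.2] at h1
    split_ifs at h1 <;> omega
  rintro (s | s) (s' | s') h
  · have h1 := congrArg Subtype.val h
    simp only [eA] at h1
    rw [single_inj (i := i) h1]
  · exact absurd h (key s s')
  · exact absurd h.symm (key s' s)
  · have h1 := congrArg Subtype.val h
    simp only [eA] at h1
    rw [Subtype.ext (single_inj (i := i) h1)]

/-- the monomials missing in the forms with two singular points -/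
noncomputable def eB (i j : Fin k) (d : ℕ) (hd : 3 ≤ d) : (Fin k ⊕ Fin k) → Mon k d
  | Sum.inl s => ⟨Finsupp.single i (d - 1) + Finsupp.single s 1, by
      rw [map_add, Finsupp.degree_single, Finsupp.degree_single]
      omega⟩
  | Sum.inr s => ⟨Finsupp.single j (d - 1) + Finsupp.single s 1, by
      rw [map_add, Finsupp.degree_single, Finsupp.degree_single]
      omega⟩

theorem eB_inj (i j : Fin k) (hij : j ≠ i) (d : ℕ) (hd : 3 ≤ d) :
    Function.Injective (eB i j d hd) := by
  classical
  have key : ∀ s s' : Fin k, eB i j d hd (Sum.inl s) ≠ eB i j d hd (Sum.inr s') := by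
    intro s s' h
    have h1 := congrArg (fun m : Mon k d => m.1 i) h
    simp only [eB, Finsupp.add_apply, Finsupp.single_apply, if_true, if_neg hij] at h1
    split_ifs at h1 <;> omega
  rintro (s | s) (s' | s') h
  · have h1 := congrArg Subtype.val h
    simp only [eB] at h1
    rw [single_inj (i := i) h1]
  · exact absurd h (key s s')
  · exact absurd h.symm (key s' s)
  · have h1 := congrArg Subtype.val h
    simp only [eB] at h1
    rw [single_inj (i := i) h1]

/-- Two equations without common factor for the forms with a degenerate singular point. -/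
theorem coverA (i j : Fin k) (hij : j ≠ i) (d : ℕ) (hd : 2 ≤ d) :
    ∃ f g : MvPolynomial (Mon k d) ℤ, (∀ D, D ∣ f → D ∣ g → IsUnit D) ∧
      ∀ (L : Type) [Field L], (2 : L) ≠ 0 → ∀ F : MvPolynomial (Fin k) L, F.IsHomogeneous d →
      ∀ P v : Fin k → L, P i = 1 → v i = 0 → v j = 1 → Sing F P →
      (∀ l, ∑ m, v m * eval P (pderiv m (pderiv l F)) = 0) →
      aeval (fun m : Mon k d => coeff m.1 F) f = 0 ∧
        aeval (fun m : Mon k d => coeff m.1 F) g = 0 := by
  classical
  let s : Fin k → MvPolynomial (Fin k) (MvPolynomial (PA i j) ℤ) :=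
    sg i j 0 (fun l => if h : l = i then 1 else X (Sum.inl ⟨l, h⟩))
      (fun l => if h : l ≠ i ∧ l ≠ j then X (Sum.inr ⟨l, h⟩) else if l = j then 1 else 0)
  obtain ⟨f, g, hfg, hcov⟩ := elim k d s (eA i j d hd) (eA_inj i j hij d hd) (by
    have h1 := card_PA i j hij
    have h3 : Fintype.card {l : Fin k // l ≠ i} = k - 1 := by
      rw [Fintype.card_subtype_compl, Fintype.card_subtype_eq, Fintype.card_fin]
    rw [Fintype.card_sum (α := Fin k) (β := {l : Fin k // l ≠ i}), h3, Fintype.card_fin]
    have := i.2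
    omega)
  refine ⟨f, g, hfg, ?_⟩
  intro L _ h2 F hF P v hP hvi hvj hsing hv
  have hF₀ : (aeval (tg i j P v) F).IsHomogeneous d := by
    have h1 := hF.aeval (tg i j P v) (fun l => tg_homog i j P v l)
    rwa [one_mul] at h1
  refine hcov L (Sum.elim (fun l => P l.1) (fun l => v l.1)) (aeval (tg i j P v) F) hF₀ ?_ F ?_
  · have h0 : eval (Pi.single i 1) (aeval (tg i j P v) F) = 0 := by
      rw [(eval_F0 i j hij P v F).1, hsing.1]
    rintro (x | x)
    · exact coef1 _ d (by omega) hF₀ i h0 (fun m => (eval_dF0 i j hij P v F m).1 hsing.2) x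
    · exact coef2 _ d hd hF₀ h2 i j hij (fun m => eval_ddF0 i j hij P v F m hv) x.1 x.2
  · have h1 := sg_tg i j hij (0 : L) P v hP hvi hvj F
    have h3 : (fun l => 0 * P l + v l) = v := by
      funext l
      rw [zero_mul, zero_add]
    rw [h3] at h1
    conv_lhs => rw [← h1]
    congr 2
    funext l
    simp only [s, map_sg]
    refine sg_congr i j ?_ (fun l => ?_) (fun l => ?_) l
    · simp
    · split_ifs with h
      · subst h
        simp [hP]
      · simp
    · split_ifs with h h'
      · simp
      · subst h'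
        simp [hvj]
      · have h5 : l = i := by
          by_contra h4
          exact h ⟨h4, h'⟩
        subst h5
        simp [hvi]

/-- Two equations without common factor for the forms with two singular points. -/
theorem coverB (i j : Fin k) (hij : j ≠ i) (d : ℕ) (hd : 3 ≤ d) :
    ∃ f g : MvPolynomial (Mon k d) ℤ, (∀ D, D ∣ f → D ∣ g → IsUnit D) ∧
      ∀ (L : Type) [Field L], ∀ F : MvPolynomial (Fin k) L, F.IsHomogeneous d →
      ∀ (P v : Fin k → L) (lam : L), P i = 1 → v i = 0 → v j = 1 → Sing F P →
      Sing F (fun l => lam * P l + v l) →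
      aeval (fun m : Mon k d => coeff m.1 F) f = 0 ∧
        aeval (fun m : Mon k d => coeff m.1 F) g = 0 := by
  classical
  let s : Fin k → MvPolynomial (Fin k) (MvPolynomial (Option (PA i j)) ℤ) :=
    sg i j (X none) (fun l => if h : l = i then 1 else X (some (Sum.inl ⟨l, h⟩)))
      (fun l => if h : l ≠ i ∧ l ≠ j then X (some (Sum.inr ⟨l, h⟩)) else if l = j then 1 else 0)
  obtain ⟨f, g, hfg, hcov⟩ := elim k d s (eB i j d hd) (eB_inj i j hij d hd) (by
    have h1 := card_PA i j hij
    rw [Fintype.card_option, Fintype.card_sum (α := Fin k) (β := Fin k), Fintype.card_fin]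
    have := i.2
    omega)
  refine ⟨f, g, hfg, ?_⟩
  intro L _ F hF P v lam hP hvi hvj hsing hsing2
  set u : Fin k → L := fun l => lam * P l + v l with hu
  have hF₀ : (aeval (tg i j P u) F).IsHomogeneous d := by
    have h1 := hF.aeval (tg i j P u) (fun l => tg_homog i j P u l)
    rwa [one_mul] at h1
  let t : Option (PA i j) → L := fun o => o.elim lam (Sum.elim (fun l => P l.1) (fun l => v l.1))
  refine hcov L t (aeval (tg i j P u) F) hF₀ ?_ F ?_
  · have h0 : eval (Pi.single i 1) (aeval (tg i j P u) F) = 0 := by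
      rw [(eval_F0 i j hij P u F).1, hsing.1]
    have h0' : eval (Pi.single j 1) (aeval (tg i j P u) F) = 0 := by
      rw [(eval_F0 i j hij P u F).2, hsing2.1]
    rintro (x | x)
    · exact coef1 _ d (by omega) hF₀ i h0 (fun m => (eval_dF0 i j hij P u F m).1 hsing.2) x
    · exact coef1 _ d (by omega) hF₀ j h0' (fun m => (eval_dF0 i j hij P u F m).2 hsing2.2) x
  · have h1 := sg_tg i j hij lam P v hP hvi hvj F
    conv_lhs => rw [← h1]
    congr 2
    funext l
    simp only [s, map_sg]
    refine sg_congr i j ?_ (fun l => ?_) (fun l => ?_) l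
    · simp [t]
    · split_ifs with h
      · subst h
        simp [hP]
      · simp [t]
    · split_ifs with h h'
      · simp [t]
      · subst h'
        simp [hvj]
      · have h5 : l = i := by
          by_contra h4
          exact h ⟨h4, h'⟩
        subst h5
        simp [hvi]

end families

/-- Finitely many pairs of equations without common factor such that the coefficients of every bad
form, over any field in which `2` is not zero, satisfy one of the pairs. -/
theorem cover (k d : ℕ) (hd : 3 ≤ d) :
    ∃ fam : Fin k × Fin k × Bool → MvPolynomial (Mon k d) ℤ × MvPolynomial (Mon k d) ℤ,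
      (∀ ι D, D ∣ (fam ι).1 → D ∣ (fam ι).2 → IsUnit D) ∧
      ∀ (L : Type) [Field L], (2 : L) ≠ 0 → ∀ F : MvPolynomial (Fin k) L, F.IsHomogeneous d →
      BadF F → ∃ ι, aeval (fun m : Mon k d => coeff m.1 F) (fam ι).1 = 0 ∧
        aeval (fun m : Mon k d => coeff m.1 F) (fam ι).2 = 0 := by
  classical
  have hex : ∀ ι : Fin k × Fin k × Bool, ∃ p : MvPolynomial (Mon k d) ℤ × MvPolynomial (Mon k d) ℤ,
      (∀ D, D ∣ p.1 → D ∣ p.2 → IsUnit D) ∧
      (ι.2.1 ≠ ι.1 → ∀ (L : Type) [Field L], (2 : L) ≠ 0 →
        ∀ F : MvPolynomial (Fin k) L, F.IsHomogeneous d →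
        ∀ (P v : Fin k → L) (lam : L), P ι.1 = 1 → v ι.1 = 0 → v ι.2.1 = 1 → Sing F P →
        ((ι.2.2 = true → Sing F (fun l => lam * P l + v l)) ∧ (ι.2.2 = false →
          ∀ l, ∑ m, v m * eval P (pderiv m (pderiv l F)) = 0)) →
        aeval (fun m : Mon k d => coeff m.1 F) p.1 = 0 ∧
          aeval (fun m : Mon k d => coeff m.1 F) p.2 = 0) := by
    rintro ⟨i, j, b⟩
    by_cases hij : j = i
    · exact ⟨(1, 1), fun D h _ => isUnit_of_dvd_one h, fun h => absurd hij h⟩
    · cases b with
      | true =>
        obtain ⟨f, g, hfg, hcov⟩ := coverB i j hij d hd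
        exact ⟨(f, g), hfg, fun _ L _ _ F hF P v lam hP hvi hvj hs h =>
          hcov L F hF P v lam hP hvi hvj hs (h.1 rfl)⟩
      | false =>
        obtain ⟨f, g, hfg, hcov⟩ := coverA i j hij d (by omega)
        exact ⟨(f, g), hfg, fun _ L _ h2 F hF P v lam hP hvi hvj hs h =>
          hcov L h2 F hF P v hP hvi hvj hs (h.2 rfl)⟩
  choose fam hfam1 hfam2 using hex
  refine ⟨fam, hfam1, ?_⟩
  intro L _ h2 F hF ⟨P, Q, hind, hP, hQ⟩
  obtain ⟨i, hi⟩ : ∃ i, P i ≠ 0 := by
    by_contra hcon
    push Not at hcon
    have h1 := hind 1 0 (by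
      funext l
      simp [hcon l])
    exact one_ne_zero h1.1
  obtain ⟨j, hj⟩ : ∃ j, Q j - Q i / P i * P j ≠ 0 := by
    by_contra hcon
    push Not at hcon
    have h1 := hind (-(Q i / P i)) 1 (by
      funext l
      have := hcon l
      simp only [Pi.add_apply, Pi.smul_apply, smul_eq_mul, Pi.zero_apply]
      linear_combination this)
    exact one_ne_zero h1.2
  have hij : j ≠ i := by
    rintro rfl
    apply hj
    rw [div_mul_cancel₀ _ hi, sub_self]
  set w := Q j - Q i / P i * P j with hw
  set P' : Fin k → L := (P i)⁻¹ • P with hP'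
  set v : Fin k → L := fun l => w⁻¹ * (Q l - Q i / P i * P l) with hv
  have hP'i : P' i = 1 := by simp [hP', inv_mul_cancel₀ hi]
  have hvi : v i = 0 := by
    simp only [hv]
    rw [div_mul_cancel₀ _ hi, sub_self, mul_zero]
  have hvj : v j = 1 := by
    simp only [hv]
    rw [← hw, inv_mul_cancel₀ hj]
  have hsP : Sing F P' := hP.smul hF _
  rcases hQ with hQ | hQ
  · refine ⟨(i, j, true), hfam2 (i, j, true) hij L h2 F hF P' v (w⁻¹ * Q i) hP'i hvi hvj hsP
      ⟨fun _ => ?_, fun h => by simp at h⟩⟩
    have h1 : (fun l => w⁻¹ * Q i * P' l + v l) = w⁻¹ • Q := by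
      funext l
      simp only [hv, hP', Pi.smul_apply, smul_eq_mul]
      field_simp
      ring
    rw [h1]
    exact hQ.smul hF _
  · refine ⟨(i, j, false), hfam2 (i, j, false) hij L h2 F hF P' v 0 hP'i hvi hvj hsP
      ⟨fun h => by simp at h, fun _ l => ?_⟩⟩
    have h1 : ∀ m, eval P' (pderiv m (pderiv l F)) =
        (P i)⁻¹ ^ (d - 1 - 1) * eval P (pderiv m (pderiv l F)) := by
      intro m
      exact eval_smul' _ _ (hF.pderiv.pderiv) _ _
    have h3 : ∑ m, P m * eval P (pderiv m (pderiv l F)) = 0 := by
      have h4 := (hF.pderiv (i := l)).sum_X_mul_pderiv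
      have h5 := congrArg (eval P) h4
      rw [map_sum, map_nsmul, hP.2 l, smul_zero] at h5
      simpa using h5
    simp only [h1, hv]
    have h4 : ∑ m, w⁻¹ * (Q m - Q i / P i * P m) *
        ((P i)⁻¹ ^ (d - 1 - 1) * eval P (pderiv m (pderiv l F))) =
        w⁻¹ * (P i)⁻¹ ^ (d - 1 - 1) * (∑ m, Q m * eval P (pderiv m (pderiv l F))) -
        w⁻¹ * (P i)⁻¹ ^ (d - 1 - 1) * (Q i / P i) *
          (∑ m, P m * eval P (pderiv m (pderiv l F))) := by
      rw [Finset.mul_sum, Finset.mul_sum, ← Finset.sum_sub_distrib]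
      refine Finset.sum_congr rfl fun m _ => ?_
      ring
    rw [h4, hQ l, h3]
    ring

end Pool.Agent.V8H73.EK
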