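import Pool.Agent.V8H73.EK.NB2

/-! An equation for the singular forms; smoothness of the other forms. -/

set_option autoImplicit false
set_option linter.unusedVariables false

namespace Pool.Agent.V8H73.EK

open MvPolynomial Pool.Agent.TH214.RM

/-- An equation for the forms obtained by the substitution of linear forms
depending on parameters from forms with some coefficients zero. -/
theorem elim1 (k d : ℕ) {τ ε : Type} [Fintype τ] [Fintype ε]
    (s : Fin k → MvPolynomial (Fin k) (MvPolynomial τ ℤ)) (e : ε → Mon k d)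
    (he : Function.Injective e) (hc : Fintype.card τ < Fintype.card ε) :
    ∃ f : MvPolynomial (Mon k d) ℤ, f ≠ 0 ∧
      ∀ (L : Type) [Field L] (t : τ → L) (F₀ : MvPolynomial (Fin k) L), F₀.IsHomogeneous d →
      (∀ x, coeff (e x).1 F₀ = 0) →
      ∀ F : MvPolynomial (Fin k) L,
        F = aeval (fun l => map ((aeval t : MvPolynomial τ ℤ →ₐ[ℤ] L) : _ →+* L) (s l)) F₀ →
      aeval (fun m : Mon k d => coeff m.1 F) f = 0 := by
  classical
  let ρ : Type := {m : Mon k d // m ∉ Set.range e}
  let σ : Type := ρ ⊕ τ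
  let ι : MvPolynomial τ ℤ →ₐ[ℤ] MvPolynomial σ ℤ := rename Sum.inr
  let s' : Fin k → MvPolynomial (Fin k) (MvPolynomial σ ℤ) := fun l =>
    map (ι : MvPolynomial τ ℤ →+* MvPolynomial σ ℤ) (s l)
  let G : MvPolynomial (Fin k) (MvPolynomial σ ℤ) := ∑ m : ρ, monomial m.1.1 (X (Sum.inl m))
  let Φ : MvPolynomial (Fin k) (MvPolynomial σ ℤ) := aeval s' G
  have hcard : Fintype.card σ < Fintype.card (Mon k d) := by
    rw [Fintype.card_sum]
    have h1 : Fintype.card ρ = Fintype.card (Mon k d) - Fintype.card ε := by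
      have h2 : Fintype.card {m : Mon k d // m ∈ Set.range e} = Fintype.card ε :=
        Fintype.card_congr (Equiv.ofInjective e he).symm
      have h3 := Fintype.card_subtype_compl (fun m : Mon k d => m ∈ Set.range e)
      rw [h2] at h3
      exact h3
    have h2 := Fintype.card_le_of_injective e he
    omega
  obtain ⟨f, hf0, hf⟩ := exists_rel hcard (fun m : Mon k d => coeff m.1 Φ)
  refine ⟨f, hf0, ?_⟩
  intro L _ t F₀ hF₀ hF₀e F hF
  let θ : MvPolynomial σ ℤ →ₐ[ℤ] L := aeval (Sum.elim (fun m => coeff m.1.1 F₀) t)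
  have h1 : map (θ : MvPolynomial σ ℤ →+* L) G = F₀ := by
    ext m
    simp only [G, map_sum, map_monomial, coeff_sum, coeff_monomial]
    by_cases hm : m.degree = d
    · by_cases hme : (⟨m, hm⟩ : Mon k d) ∈ Set.range e
      · obtain ⟨x, hx⟩ := hme
        have h2 : coeff m F₀ = 0 := by
          rw [← hF₀e x, hx]
        rw [h2]
        refine Finset.sum_eq_zero fun m' _ => ?_
        rw [if_neg]
        intro h3
        apply m'.2
        exact ⟨x, by rw [hx]; exact Subtype.ext h3.symm⟩
      · rw [Finset.sum_eq_single (⟨⟨m, hm⟩, hme⟩ : ρ)]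
        · simp [θ]
        · intro m' _ hne
          rw [if_neg]
          intro h3
          exact hne (Subtype.ext (Subtype.ext h3))
        · intro h3
          exact absurd (Finset.mem_univ _) h3
    · have h2 : coeff m F₀ = 0 := hF₀.coeff_eq_zero hm
      rw [h2]
      refine Finset.sum_eq_zero fun m' _ => ?_
      rw [if_neg]
      intro h3
      exact hm (h3 ▸ m'.1.2)
  have h2 : map (θ : MvPolynomial σ ℤ →+* L) Φ = F := by
    rw [hF]
    have h3 : (map (θ : MvPolynomial σ ℤ →+* L)).comp
        (aeval s' : MvPolynomial (Fin k) (MvPolynomial σ ℤ) →ₐ[MvPolynomial σ ℤ]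
          MvPolynomial (Fin k) (MvPolynomial σ ℤ)).toRingHom =
        (aeval (fun l => map ((aeval t : MvPolynomial τ ℤ →ₐ[ℤ] L) : _ →+* L) (s l)) :
          MvPolynomial (Fin k) L →ₐ[L] MvPolynomial (Fin k) L).toRingHom.comp
          (map (θ : MvPolynomial σ ℤ →+* L)) := by
      apply MvPolynomial.ringHom_ext
      · intro r
        simp
      · intro l
        simp only [RingHom.comp_apply, AlgHom.toRingHom_eq_coe, RingHom.coe_coe, aeval_X, map_X]
        simp only [s', map_map]
        have h5 : (θ : MvPolynomial σ ℤ →+* L).comp (ι : MvPolynomial τ ℤ →+* MvPolynomial σ ℤ) =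
            ((aeval t : MvPolynomial τ ℤ →ₐ[ℤ] L) : MvPolynomial τ ℤ →+* L) := by
          apply RingHom.ext
          intro r
          simp only [RingHom.comp_apply, RingHom.coe_coe, ι, θ, aeval_rename]
          rfl
        rw [h5]
    have h4 := congrArg (fun φ => φ G) (congrArg DFunLike.coe h3)
    simp only [RingHom.comp_apply, AlgHom.toRingHom_eq_coe, RingHom.coe_coe] at h4
    rw [h1] at h4
    exact h4
  have h3 : ∀ m : Mon k d, coeff m.1 F = θ (coeff m.1 Φ) := by
    intro m
    rw [← h2, coeff_map]
    rfl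
  have h4 : (aeval (fun m : Mon k d => coeff m.1 F) : MvPolynomial (Mon k d) ℤ →ₐ[ℤ] L) =
      θ.comp (aeval (fun m : Mon k d => coeff m.1 Φ)) := by
    apply MvPolynomial.algHom_ext
    intro m
    rw [aeval_X, AlgHom.comp_apply, aeval_X, h3]
  rw [h4, AlgHom.comp_apply, hf, map_zero]


/-- A nonzero polynomial vanishing at the coefficients of all the forms with a singular point. -/
theorem disc (k d : ℕ) (hk : 2 ≤ k) (hd : 1 ≤ d) :
    ∃ r : MvPolynomial (Mon k d) ℤ, r ≠ 0 ∧
      ∀ (L : Type) [Field L] (F : MvPolynomial (Fin k) L), F.IsHomogeneous d →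
      ∀ P : Fin k → L, P ≠ 0 → Sing F P → aeval (fun m : Mon k d => coeff m.1 F) r = 0 := by
  classical
  have hex : ∀ i : Fin k, ∃ f : MvPolynomial (Mon k d) ℤ, f ≠ 0 ∧
      ∀ (L : Type) [Field L] (F : MvPolynomial (Fin k) L), F.IsHomogeneous d →
      ∀ P : Fin k → L, P i = 1 → Sing F P → aeval (fun m : Mon k d => coeff m.1 F) f = 0 := by
    intro i
    have hnt : Nontrivial (Fin k) := Fin.nontrivial_iff_two_le.2 hk
    obtain ⟨j, hij⟩ := exists_ne i
    let s : Fin k → MvPolynomial (Fin k) (MvPolynomial {l : Fin k // l ≠ i} ℤ) :=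
      sg i j 0 (fun l => if h : l = i then 1 else X ⟨l, h⟩) (fun l => if l = j then 1 else 0)
    let e : Fin k → Mon k d := fun s => ⟨Finsupp.single i (d - 1) + Finsupp.single s 1, by
      rw [map_add, Finsupp.degree_single, Finsupp.degree_single]
      omega⟩
    have he : Function.Injective e := by
      intro x y h
      exact single_inj (i := i) (congrArg Subtype.val h)
    obtain ⟨f, hf0, hcov⟩ := elim1 k d s e he (by
      rw [Fintype.card_subtype_compl, Fintype.card_subtype_eq, Fintype.card_fin]
      omega)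
    refine ⟨f, hf0, ?_⟩
    intro L _ F hF P hP hsing
    let v : Fin k → L := Pi.single j 1
    have hvi : v i = 0 := Pi.single_eq_of_ne hij.symm _
    have hvj : v j = 1 := Pi.single_eq_same _ _
    have hF₀ : (aeval (tg i j P v) F).IsHomogeneous d := by
      have h1 := hF.aeval (tg i j P v) (fun l => tg_homog i j P v l)
      rwa [one_mul] at h1
    refine hcov L (fun l => P l.1) (aeval (tg i j P v) F) hF₀ ?_ F ?_
    · have h0 : eval (Pi.single i 1) (aeval (tg i j P v) F) = 0 := by
        rw [(eval_F0 i j hij P v F).1, hsing.1]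
      intro x
      exact coef1 _ d (by omega) hF₀ i h0 (fun m => (eval_dF0 i j hij P v F m).1 hsing.2) x
    · have h1 := sg_tg i j hij (0 : L) P v hP hvi hvj F
      have h3 : (fun l => 0 * P l + v l) = v := by
        funext l
        rw [zero_mul, zero_add]
      rw [h3] at h1
      conv_lhs => rw [← h1]
      congr 2
      funext l
      simp only [s, map_sg]
      refine sg_congr i j ?_ (fun l => ?_) (fun l => ?_) l
      · simp
      · split_ifs with h
        · subst h
          simp [hP]
        · simp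
      · split_ifs with h
        · subst h
          simp [hvj]
        · simp [v, h]
  choose f hf0 hf using hex
  refine ⟨∏ i, f i, Finset.prod_ne_zero_iff.2 fun i _ => hf0 i, ?_⟩
  intro L _ F hF P hP hs
  obtain ⟨i, hi⟩ : ∃ i, P i ≠ 0 := by
    by_contra hcon
    push Not at hcon
    exact hP (funext hcon)
  rw [map_prod]
  refine Finset.prod_eq_zero (Finset.mem_univ i) (hf i L F hF ((P i)⁻¹ • P) ?_ (hs.smul hF _))
  simp [inv_mul_cancel₀ hi]

/-- Smoothness from the absence of singular points over an algebraic closure. -/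
theorem smooth_of {k : ℕ} {K L : Type} [Field K] [Field L] [Algebra K L] [IsAlgClosed L]
    (G : MvPolynomial (Fin k) K) (d : ℕ) (hd : (d : L) ≠ 0) (hG : G.IsHomogeneous d)
    (h : ∀ P : Fin k → L, Sing (map (algebraMap K L) G) P → P = 0) : Smooth G := by
  intro i
  rw [← vanishingIdeal_zeroLocus_eq_radical (K := L), mem_vanishingIdeal_iff]
  intro x hx
  have h1 : ∀ j, eval x (pderiv j (map (algebraMap K L) G)) = 0 := by
    intro j
    have h2 := hx (pderiv j G) (Ideal.subset_span ⟨j, rfl⟩)
    rw [pderiv_map, eval_map, ← aeval_def]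
    exact h2
  have h3 : eval x (map (algebraMap K L) G) = 0 := by
    have h4 := congrArg (eval x) (hG.map (algebraMap K L)).sum_X_mul_pderiv
    rw [map_sum, map_nsmul, nsmul_eq_mul, Finset.sum_eq_zero] at h4
    · rcases mul_eq_zero.1 h4.symm with h5 | h5
      · exact absurd h5 hd
      · exact h5
    · intro j _
      rw [map_mul, h1, mul_zero]
  rw [aeval_X, h x ⟨h3, h1⟩]
  rfl

end Pool.Agent.V8H73.EK
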