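import Pool.Agent.N17.CO.COUNT
import Pool.Agent.R492.Bez.Box

/-! Integral points where polynomials without common factor are divisible by a large prime. -/

set_option autoImplicit false
set_option linter.unusedVariables false

namespace Pool.Agent.V8H73.EK

open MvPolynomial Finset Pool.Agent.R492.Bez

/-- the box -/
noncomputable def bx (n H : ℕ) : Finset (Fin n → ℤ) :=
  Fintype.piFinset fun _ => Icc (-(H : ℤ)) H

open Classical in
/-- The integral points of the box at which all the polynomials are divisible by a common prime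
number larger than `M`. -/
noncomputable def Bad {n : ℕ} (S : Finset (MvPolynomial (Fin n) ℤ)) (M H : ℕ) :
    Finset (Fin n → ℤ) :=
  (bx n H).filter (fun a => ∃ p : ℕ, p.Prime ∧ M < p ∧ ∀ f ∈ S, (p : ℤ) ∣ eval a f)

theorem mem_Bad {n : ℕ} {S : Finset (MvPolynomial (Fin n) ℤ)} {M H : ℕ} {a : Fin n → ℤ} :
    a ∈ Bad S M H ↔ a ∈ bx n H ∧ ∃ p : ℕ, p.Prime ∧ M < p ∧ ∀ f ∈ S, (p : ℤ) ∣ eval a f := by
  classical
  unfold Bad
  rw [mem_filter]

theorem card_box (n H : ℕ) : (bx n H).card = (2 * H + 1) ^ n := by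
  unfold bx
  rw [Fintype.card_piFinset]
  have h : (Icc (-(H : ℤ)) H).card = 2 * H + 1 := by rw [Int.card_Icc]; omega
  simp [h]

theorem Bx_false (n H : ℕ) : Bx (fun _ : Fin n => false) H = bx n H := by
  unfold Bx bx Iv
  simp

theorem map_ne {n : ℕ} (r : MvPolynomial (Fin n) ℤ) (hr : r ≠ 0) :
    ∃ M₀ : ℕ, ∀ p : ℕ, M₀ < p → map (Int.castRingHom (ZMod p)) r ≠ 0 := by
  obtain ⟨m, hm⟩ := MvPolynomial.ne_zero_iff.1 hr
  refine ⟨(coeff m r).natAbs, fun p hp h => hm ?_⟩
  have h1 := congrArg (coeff m) h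
  rw [coeff_map, coeff_zero, eq_intCast, ZMod.intCast_zmod_eq_zero_iff_dvd] at h1
  apply Int.eq_zero_of_abs_lt_dvd h1
  rw [Int.abs_eq_natAbs]
  exact_mod_cast hp

theorem td_map {n : ℕ} (p : ℕ) (r : MvPolynomial (Fin n) ℤ) :
    (map (Int.castRingHom (ZMod p)) r).totalDegree ≤ r.totalDegree := by
  unfold totalDegree
  exact Finset.sup_mono (support_map_subset _ _)

open Classical in
/-- the zeros modulo `p` -/
noncomputable def Zp {n : ℕ} (p : ℕ) [Fact p.Prime] (r : MvPolynomial (Fin n) (ZMod p)) :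
    Finset (Fin n → ZMod p) := univ.filter (fun ρ => eval ρ r = 0)

theorem card_Zp {n : ℕ} (p T : ℕ) [hp : Fact p.Prime] (r : MvPolynomial (Fin n) (ZMod p))
    (hr : r ≠ 0) (hT : r.totalDegree ≤ T) : ((Zp p r).card : ℝ) ≤ T * (p : ℝ) ^ n / p := by
  classical
  have h1 := MvPolynomial.schwartz_zippel_totalDegree hr (univ : Finset (ZMod p))
  have hc : (univ : Finset (ZMod p)).card = p := by rw [Finset.card_univ, ZMod.card]
  rw [hc] at h1
  have hp0 : (0 : ℝ) < p := by exact_mod_cast hp.out.pos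
  have h5 : (Zp p r).card ≤ ((Fintype.piFinset fun _ : Fin n => (univ : Finset (ZMod p))).filter
      (fun ρ => eval ρ r = 0)).card := by
    apply card_le_card
    intro x hx
    unfold Zp at hx
    rw [mem_filter] at hx ⊢
    exact ⟨Fintype.mem_piFinset.2 fun _ => mem_univ _, hx.2⟩
  generalize (Zp p r).card = c at h5 ⊢
  have h2 : (c : ℚ≥0) / (p : ℚ≥0) ^ n ≤ (r.totalDegree : ℚ≥0) / p := by
    refine le_trans ?_ h1
    gcongr
  generalize r.totalDegree = T' at h2 hT
  have h3 : (((c : ℚ≥0) / (p : ℚ≥0) ^ n : ℚ≥0) : ℝ) ≤ (((T' : ℚ≥0) / (p : ℚ≥0) : ℚ≥0) : ℝ) :=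
    NNRat.cast_le.2 h2
  push_cast at h3
  rw [div_le_div_iff₀ (by positivity) hp0] at h3
  rw [le_div_iff₀ hp0]
  have h6 : (T' : ℝ) ≤ T := by exact_mod_cast hT
  exact h3.trans (mul_le_mul_of_nonneg_right h6 (by positivity))

theorem eval_zmod {n : ℕ} (r : MvPolynomial (Fin n) ℤ) (p : ℕ) (a : Fin n → ℤ) :
    (p : ℤ) ∣ eval a r ↔
      eval (fun i => (a i : ZMod p)) (map (Int.castRingHom (ZMod p)) r) = 0 := by
  have h1 : eval (fun i => (a i : ZMod p)) (map (Int.castRingHom (ZMod p)) r) =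
      ((eval a r : ℤ) : ZMod p) := by
    have h2 : (eval (fun i => (a i : ZMod p))).comp (map (Int.castRingHom (ZMod p))) =
        (Int.castRingHom (ZMod p)).comp (eval a) := by
      apply MvPolynomial.ringHom_ext
      · intro z
        simp
      · intro i
        simp
    exact congrArg (fun f => f r) (congrArg DFunLike.coe h2)
  rw [h1, ZMod.intCast_zmod_eq_zero_iff_dvd]

theorem arith1 (c T H p : ℝ) (n : ℕ) (hp : 0 < p) (hH : 0 ≤ H) (h3 : c ≤ T * p ^ n / p) :
    c * (5 * H / p) ^ n ≤ T * 5 ^ n * H ^ n / p := by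
  have h4 : (0 : ℝ) ≤ (5 * H / p) ^ n := by positivity
  refine (mul_le_mul_of_nonneg_right h3 h4).trans (le_of_eq ?_)
  rw [div_pow, mul_pow]
  field_simp

theorem count_div {n : ℕ} (r : MvPolynomial (Fin n) ℤ) (p H : ℕ) [hp : Fact p.Prime]
    (hr : map (Int.castRingHom (ZMod p)) r ≠ 0) (hpH : p ≤ 2 * H)
    [DecidablePred fun a : Fin n → ℤ => (p : ℤ) ∣ eval a r] :
    (((bx n H).filter (fun a => (p : ℤ) ∣ eval a r)).card : ℝ) ≤
      r.totalDegree * 5 ^ n * (H : ℝ) ^ n / p := by
  classical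
  have hp0 : (0 : ℝ) < p := by exact_mod_cast hp.out.pos
  have h1 := Bx_cls_le (fun _ : Fin n => false) H p hp.out.pos hpH
     (Zp p (map (Int.castRingHom (ZMod p)) r))
  rw [Bx_false, Fintype.card_fin] at h1
  have h2 : ((bx n H).filter (fun a => (p : ℤ) ∣ eval a r)).card ≤
      ((bx n H).filter (fun z => (fun i => (z i : ZMod p)) ∈
        Zp p (map (Int.castRingHom (ZMod p)) r))).card := by
    apply card_le_card
    intro a ha
    rw [mem_filter] at ha ⊢
    refine ⟨ha.1, ?_⟩
    rw [Zp, mem_filter]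
    exact ⟨mem_univ _, (eval_zmod r p a).1 ha.2⟩
  have h3 := card_Zp p r.totalDegree (map (Int.castRingHom (ZMod p)) r) hr
    (td_map p r)
  have h2' : (((bx n H).filter (fun a => (p : ℤ) ∣ eval a r)).card : ℝ) ≤
      (((bx n H).filter (fun z => (fun i => (z i : ZMod p)) ∈
        Zp p (map (Int.castRingHom (ZMod p)) r))).card : ℝ) := by exact_mod_cast h2
  refine (h2'.trans h1).trans ?_
  exact arith1 _ _ _ _ n hp0 (Nat.cast_nonneg _) h3

/-- The number of integers `t` in the interval with `p ∣ f(t)`. -/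
theorem count_roots (g : Polynomial ℤ) (p H e : ℕ) [hp : Fact p.Prime]
    (hg : g.map (Int.castRingHom (ZMod p)) ≠ 0) (he : g.natDegree ≤ e)
    [DecidablePred fun t : ℤ => (p : ℤ) ∣ g.eval t] :
    (((Icc (-(H : ℤ)) H).filter (fun t => (p : ℤ) ∣ g.eval t)).card : ℝ) ≤
      (if p ≤ 2 * H then (e : ℝ) * (5 * (H : ℝ) / p) else (e : ℝ)) := by
  classical
  set G := (g.map (Int.castRingHom (ZMod p))).roots.toFinset with hG
  have hGc : G.card ≤ e := (Multiset.toFinset_card_le _).trans ((Polynomial.card_roots' _).trans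
    (Polynomial.natDegree_map_le.trans he))
  have hmem : ∀ t : ℤ, (p : ℤ) ∣ g.eval t → (t : ZMod p) ∈ G := by
    intro t ht
    rw [hG, Multiset.mem_toFinset, Polynomial.mem_roots hg, Polynomial.IsRoot.def]
    have h1 : Polynomial.eval (t : ZMod p) (g.map (Int.castRingHom (ZMod p))) =
        ((g.eval t : ℤ) : ZMod p) := by
      have := Polynomial.eval_intCast_map (Int.castRingHom (ZMod p)) g t
      simpa using this
    rw [h1, ZMod.intCast_zmod_eq_zero_iff_dvd]
    exact ht
  have h1 : ((Icc (-(H : ℤ)) H).filter (fun t => (p : ℤ) ∣ g.eval t)).card ≤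
      ∑ ρ ∈ G, ((Icc (-(H : ℤ)) H).filter (fun t : ℤ => (t : ZMod p) = ρ)).card := by
    rw [card_eq_sum_card_fiberwise (f := fun t : ℤ => (t : ZMod p)) (t := G)]
    · apply sum_le_sum
      intro ρ _
      apply card_le_card
      intro t ht
      rw [mem_filter, mem_filter] at ht
      rw [mem_filter]
      exact ⟨ht.1.1, ht.2⟩
    · intro t ht
      rw [mem_coe, mem_filter] at ht
      exact hmem t ht.2
  have h1' : (((Icc (-(H : ℤ)) H).filter (fun t => (p : ℤ) ∣ g.eval t)).card : ℝ) ≤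
      ∑ ρ ∈ G, (((Icc (-(H : ℤ)) H).filter (fun t : ℤ => (t : ZMod p) = ρ)).card : ℝ) := by
    exact_mod_cast h1
  refine h1'.trans ?_
  split_ifs with hpH
  · calc ∑ ρ ∈ G, (((Icc (-(H : ℤ)) H).filter (fun t : ℤ => (t : ZMod p) = ρ)).card : ℝ) ≤
        ∑ _ρ ∈ G, (5 * (H : ℝ) / p) := by
          apply sum_le_sum
          intro ρ _
          have h2 := Iv_cls_le (fun _ : Fin 1 => false) H 0 p hp.out.pos hpH ρ
          unfold Iv at h2
          simpa using h2
      _ = G.card * (5 * (H : ℝ) / p) := by rw [sum_const, nsmul_eq_mul]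
      _ ≤ _ := by
          have h3 : (G.card : ℝ) ≤ e := by exact_mod_cast hGc
          have h4 : (0 : ℝ) ≤ 5 * H / p := div_nonneg (by positivity) (Nat.cast_nonneg _)
          exact mul_le_mul_of_nonneg_right h3 h4
  · calc ∑ ρ ∈ G, (((Icc (-(H : ℤ)) H).filter (fun t : ℤ => (t : ZMod p) = ρ)).card : ℝ) ≤
        ∑ _ρ ∈ G, (1 : ℝ) := by
          apply sum_le_sum
          intro ρ _
          have h2 : ((Icc (-(H : ℤ)) H).filter (fun t : ℤ => (t : ZMod p) = ρ)).card ≤ 1 := by
            rw [card_le_one]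
            intro s hs t ht
            rw [mem_filter, mem_Icc] at hs ht
            have h3 : ((s - t : ℤ) : ZMod p) = 0 := by
              push_cast
              rw [hs.2, ht.2, sub_self]
            rw [ZMod.intCast_zmod_eq_zero_iff_dvd] at h3
            have h4 : s - t = 0 := by
              apply Int.eq_zero_of_abs_lt_dvd h3
              rw [abs_lt]
              push Not at hpH
              have : (2 * (H : ℤ)) < p := by exact_mod_cast hpH
              constructor <;> omega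
            omega
          exact_mod_cast h2
      _ = G.card := by rw [sum_const, nsmul_eq_mul, mul_one]
      _ ≤ _ := by exact_mod_cast hGc

end Pool.Agent.V8H73.EK
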