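import Mathlib.RingTheory.AlgebraicIndependent.TranscendenceBasis
import Mathlib.RingTheory.MvPolynomial.EulerIdentity
import Mathlib.RingTheory.UniqueFactorizationDomain.Defs
import Mathlib.RingTheory.Polynomial.UniqueFactorization
import Mathlib.Algebra.MvPolynomial.NoZeroDivisors
import Mathlib.Data.Finsupp.Weight
import Mathlib.Data.Real.Basic

/-! Two equations without common factor for families of forms with few parameters. -/

set_option autoImplicit false
set_option linter.unusedVariables false

namespace Pool.Agent.V8H73.EK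

open MvPolynomial

/-- fewer parameters than variables: a relation -/
theorem exists_rel {μ τ : Type} [Fintype μ] [Fintype τ] (h : Fintype.card τ < Fintype.card μ)
    (y : μ → MvPolynomial τ ℤ) : ∃ g : MvPolynomial μ ℤ, g ≠ 0 ∧ aeval y g = 0 := by
  by_contra hcon
  push Not at hcon
  have h1 : AlgebraicIndependent ℤ y := by
    rw [algebraicIndependent_iff]
    intro p hp
    by_contra h0
    exact hcon p h0 hp
  have h2 := h1.cardinalMk_le_trdeg
  rw [MvPolynomial.trdeg_of_isDomain, Cardinal.lift_id, Cardinal.mk_fintype,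
    Cardinal.mk_fintype, Nat.cast_le] at h2
  omega

/-- two fewer parameters than variables: two relations without common factor -/
theorem exists_pair {μ τ : Type} [Fintype μ] [Fintype τ]
    (h : Fintype.card τ + 2 ≤ Fintype.card μ) (y : μ → MvPolynomial τ ℤ) :
    ∃ f g : MvPolynomial μ ℤ, (∀ D, D ∣ f → D ∣ g → IsUnit D) ∧ aeval y f = 0 ∧ aeval y g = 0 := by
  classical
  obtain ⟨f₁, hf₁0, hf₁⟩ := exists_rel (by omega) y
  obtain ⟨s, hs, hs1⟩ := UniqueFactorizationMonoid.exists_prime_factors f₁ hf₁0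
  obtain ⟨f, hf, hfy⟩ : ∃ f ∈ s, aeval y f = 0 := by
    obtain ⟨u, hu⟩ := hs1
    have h1 : aeval y s.prod = 0 := by
      have h2 : aeval y s.prod * aeval y (u : MvPolynomial μ ℤ) = 0 := by
        rw [← map_mul, hu, hf₁]
      rcases mul_eq_zero.1 h2 with h3 | h3
      · exact h3
      · exact absurd h3 ((u.isUnit.map (aeval y : MvPolynomial μ ℤ →ₐ[ℤ] MvPolynomial τ ℤ)).ne_zero)
    rw [map_multiset_prod, Multiset.prod_eq_zero_iff, Multiset.mem_map] at h1
    obtain ⟨f, hf, hf1⟩ := h1
    exact ⟨f, hf, hf1⟩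
  have hfp := hs f hf
  obtain ⟨β, hβ⟩ : ∃ β, β ∈ f.vars := by
    by_contra hcon
    push Not at hcon
    have h1 : f.vars = ∅ := Finset.eq_empty_of_forall_notMem hcon
    rw [vars_eq_empty_iff_eq_C] at h1
    rw [h1, aeval_C, algebraMap_eq] at hfy
    have h2 := C_eq_zero.1 hfy
    rw [h2, C_0] at h1
    exact hfp.ne_zero h1
  obtain ⟨g', hg'0, hg'⟩ := exists_rel (μ := {m // m ≠ β}) (τ := τ) (by
    rw [Fintype.card_subtype_compl, Fintype.card_subtype_eq]
    omega) (fun m => y m.1)
  have hg0 : rename (Subtype.val : {m // m ≠ β} → μ) g' ≠ 0 := by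
    intro h0
    apply hg'0
    exact rename_injective _ Subtype.val_injective (by rw [h0, map_zero])
  refine ⟨f, rename Subtype.val g', ?_, hfy, ?_⟩
  · intro D hDf hDg
    obtain ⟨e, he⟩ := hDf
    rcases hfp.irreducible.isUnit_or_isUnit he with h1 | h1
    · exact h1
    · exfalso
      have h2 : f ∣ rename (Subtype.val : {m // m ≠ β} → μ) g' := by
        refine dvd_trans ?_ hDg
        rw [he]
        obtain ⟨u, rfl⟩ := h1
        exact ⟨(↑u⁻¹ : MvPolynomial μ ℤ), by rw [mul_assoc, u.mul_inv, mul_one]⟩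
      obtain ⟨k, hk⟩ := h2
      have hk0 : k ≠ 0 := by
        rintro rfl
        rw [mul_zero] at hk
        exact hg0 hk
      have h3 : degreeOf β (rename (Subtype.val : {m // m ≠ β} → μ) g') =
          degreeOf β f + degreeOf β k := by rw [hk, degreeOf_mul_eq hfp.ne_zero hk0]
      have h4 : degreeOf β (rename (Subtype.val : {m // m ≠ β} → μ) g') = 0 := by
        by_contra h0
        rw [← Ne, ← mem_vars_iff_degreeOf_ne_zero] at h0
        obtain ⟨m, _, hm⟩ := mem_vars_rename _ _ h0
        exact m.2 hm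
      have h5 : degreeOf β f ≠ 0 := by
        rw [← mem_vars_iff_degreeOf_ne_zero]
        exact hβ
      omega
  · rw [aeval_rename]
    exact hg'

/-- the monomials of degree `d` in `k` variables -/
abbrev Mon (k d : ℕ) : Type := {m : Fin k →₀ ℕ // m.degree = d}

instance finite_Mon (k d : ℕ) : Finite (Mon k d) :=
  (Finsupp.finite_of_degree_eq (σ := Fin k) d).to_subtype

noncomputable instance fintype_Mon (k d : ℕ) : Fintype (Mon k d) := Fintype.ofFinite _

/-- Two equations without common factor for the forms obtained by the substitution of linear forms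
depending on parameters from forms with some coefficients zero. -/
theorem elim (k d : ℕ) {τ ε : Type} [Fintype τ] [Fintype ε]
    (s : Fin k → MvPolynomial (Fin k) (MvPolynomial τ ℤ)) (e : ε → Mon k d)
    (he : Function.Injective e) (hc : Fintype.card τ + 2 ≤ Fintype.card ε) :
    ∃ f g : MvPolynomial (Mon k d) ℤ, (∀ D, D ∣ f → D ∣ g → IsUnit D) ∧
      ∀ (L : Type) [Field L] (t : τ → L) (F₀ : MvPolynomial (Fin k) L), F₀.IsHomogeneous d →
      (∀ x, coeff (e x).1 F₀ = 0) →
      ∀ F : MvPolynomial (Fin k) L,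
        F = aeval (fun l => map ((aeval t : MvPolynomial τ ℤ →ₐ[ℤ] L) : _ →+* L) (s l)) F₀ →
      aeval (fun m : Mon k d => coeff m.1 F) f = 0 ∧
        aeval (fun m : Mon k d => coeff m.1 F) g = 0 := by
  classical
  let ρ : Type := {m : Mon k d // m ∉ Set.range e}
  let σ : Type := ρ ⊕ τ
  let ι : MvPolynomial τ ℤ →ₐ[ℤ] MvPolynomial σ ℤ := rename Sum.inr
  let s' : Fin k → MvPolynomial (Fin k) (MvPolynomial σ ℤ) := fun l =>
    map (ι : MvPolynomial τ ℤ →+* MvPolynomial σ ℤ) (s l)
  let G : MvPolynomial (Fin k) (MvPolynomial σ ℤ) := ∑ m : ρ, monomial m.1.1 (X (Sum.inl m))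
  let Φ : MvPolynomial (Fin k) (MvPolynomial σ ℤ) := aeval s' G
  have hcard : Fintype.card σ + 2 ≤ Fintype.card (Mon k d) := by
    rw [Fintype.card_sum]
    have h1 : Fintype.card ρ = Fintype.card (Mon k d) - Fintype.card ε := by
      have h2 : Fintype.card {m : Mon k d // m ∈ Set.range e} = Fintype.card ε :=
        Fintype.card_congr (Equiv.ofInjective e he).symm
      have h3 := Fintype.card_subtype_compl (fun m : Mon k d => m ∈ Set.range e)
      rw [h2] at h3
      exact h3
    have h2 := Fintype.card_le_of_injective e he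
    omega
  obtain ⟨f, g, hfg, hf, hg⟩ := exists_pair hcard (fun m : Mon k d => coeff m.1 Φ)
  refine ⟨f, g, hfg, ?_⟩
  intro L _ t F₀ hF₀ hF₀e F hF
  let θ : MvPolynomial σ ℤ →ₐ[ℤ] L := aeval (Sum.elim (fun m => coeff m.1.1 F₀) t)
  have h1 : map (θ : MvPolynomial σ ℤ →+* L) G = F₀ := by
    ext m
    simp only [G, map_sum, map_monomial, coeff_sum, coeff_monomial]
    by_cases hm : m.degree = d
    · by_cases hme : (⟨m, hm⟩ : Mon k d) ∈ Set.range e
      · obtain ⟨x, hx⟩ := hme
        have h2 : coeff m F₀ = 0 := by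
          rw [← hF₀e x, hx]
        rw [h2]
        refine Finset.sum_eq_zero fun m' _ => ?_
        rw [if_neg]
        intro h3
        apply m'.2
        exact ⟨x, by rw [hx]; exact Subtype.ext h3.symm⟩
      · rw [Finset.sum_eq_single (⟨⟨m, hm⟩, hme⟩ : ρ)]
        · simp [θ]
        · intro m' _ hne
          rw [if_neg]
          intro h3
          exact hne (Subtype.ext (Subtype.ext h3))
        · intro h3
          exact absurd (Finset.mem_univ _) h3
    · have h2 : coeff m F₀ = 0 := hF₀.coeff_eq_zero hm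
      rw [h2]
      refine Finset.sum_eq_zero fun m' _ => ?_
      rw [if_neg]
      intro h3
      exact hm (h3 ▸ m'.1.2)
  have h2 : map (θ : MvPolynomial σ ℤ →+* L) Φ = F := by
    rw [hF]
    have h3 : (map (θ : MvPolynomial σ ℤ →+* L)).comp
        (aeval s' : MvPolynomial (Fin k) (MvPolynomial σ ℤ) →ₐ[MvPolynomial σ ℤ]
          MvPolynomial (Fin k) (MvPolynomial σ ℤ)).toRingHom =
        (aeval (fun l => map ((aeval t : MvPolynomial τ ℤ →ₐ[ℤ] L) : _ →+* L) (s l)) :
          MvPolynomial (Fin k) L →ₐ[L] MvPolynomial (Fin k) L).toRingHom.comp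
          (map (θ : MvPolynomial σ ℤ →+* L)) := by
      apply MvPolynomial.ringHom_ext
      · intro r
        simp
      · intro l
        simp only [RingHom.comp_apply, AlgHom.toRingHom_eq_coe, RingHom.coe_coe, aeval_X, map_X]
        simp only [s', map_map]
        have h5 : (θ : MvPolynomial σ ℤ →+* L).comp (ι : MvPolynomial τ ℤ →+* MvPolynomial σ ℤ) =
            ((aeval t : MvPolynomial τ ℤ →ₐ[ℤ] L) : MvPolynomial τ ℤ →+* L) := by
          apply RingHom.ext
          intro r
          simp only [RingHom.comp_apply, RingHom.coe_coe, ι, θ, aeval_rename]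
          rfl
        rw [h5]
    have h4 := congrArg (fun φ => φ G) (congrArg DFunLike.coe h3)
    simp only [RingHom.comp_apply, AlgHom.toRingHom_eq_coe, RingHom.coe_coe] at h4
    rw [h1] at h4
    exact h4
  have h3 : ∀ m : Mon k d, coeff m.1 F = θ (coeff m.1 Φ) := by
    intro m
    rw [← h2, coeff_map]
    rfl
  have h4 : (aeval (fun m : Mon k d => coeff m.1 F) : MvPolynomial (Mon k d) ℤ →ₐ[ℤ] L) =
      θ.comp (aeval (fun m : Mon k d => coeff m.1 Φ)) := by
    apply MvPolynomial.algHom_ext
    intro m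
    rw [aeval_X, AlgHom.comp_apply, aeval_X, h3]
  rw [h4, AlgHom.comp_apply, AlgHom.comp_apply, hf, hg, map_zero]
  exact ⟨rfl, rfl⟩

end Pool.Agent.V8H73.EK
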