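import Pool.Agent.V8H73.EK.Count

/-! The proportion of the forms with integral coefficients which are smooth and have regular or
nodal local equations: the forms. -/

set_option autoImplicit false
set_option linter.unusedVariables false

namespace Pool.Agent.V8H73.EK

open MvPolynomial NumberField Pool.Agent.TH214.RM Pool.Agent.V8H73.ND Finset

section fm

variable {k d : ℕ}

/-- the numbering of the monomials -/
noncomputable def nu (k d : ℕ) : Mon k d ≃ Fin (Fintype.card (Mon k d)) := Fintype.equivFin _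

/-- the form with given coefficients -/
noncomputable def fm (a : Fin (Fintype.card (Mon k d)) → ℤ) : MvPolynomial (Fin k) ℤ :=
  ∑ m : Mon k d, monomial m.1 (a (nu k d m))

theorem coeff_fm (a : Fin (Fintype.card (Mon k d)) → ℤ) (m : Mon k d) :
    coeff m.1 (fm a) = a (nu k d m) := by
  classical
  unfold fm
  rw [coeff_sum, Finset.sum_eq_single m]
  · rw [coeff_monomial, if_pos rfl]
  · intro m' _ hne
    rw [coeff_monomial, if_neg]
    intro h
    exact hne (Subtype.ext h)
  · intro h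
    exact absurd (mem_univ _) h

theorem fm_homog (a : Fin (Fintype.card (Mon k d)) → ℤ) : (fm a).IsHomogeneous d := by
  unfold fm
  refine IsHomogeneous.sum _ _ _ fun m _ => isHomogeneous_monomial _ m.2

theorem fm_inj : Function.Injective (fm : (Fin (Fintype.card (Mon k d)) → ℤ) → _) := by
  intro a b h
  funext j
  have h1 := congrArg (coeff ((nu k d).symm j).1) h
  rwa [coeff_fm, coeff_fm, Equiv.apply_symm_apply] at h1

/-- the forms of degree `d` with integral coefficients bounded by `H` -/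
def forms (k d H : ℕ) : Set (MvPolynomial (Fin k) ℤ) :=
  {F | F.IsHomogeneous d ∧ ∀ m, |coeff m F| ≤ H}

theorem fm_mem {H : ℕ} {b : Fin (Fintype.card (Mon k d)) → ℤ} (hb : b ∈ bx _ H) :
    fm b ∈ forms k d H := by
  refine ⟨fm_homog b, fun m => ?_⟩
  by_cases hm : m.degree = d
  · have h1 := coeff_fm b ⟨m, hm⟩
    simp only at h1
    rw [h1]
    have h2 := (Fintype.mem_piFinset.1 hb) (nu k d ⟨m, hm⟩)
    rw [mem_Icc] at h2
    exact abs_le.2 h2
  · rw [(fm_homog b).coeff_eq_zero hm, abs_zero]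
    exact Int.natCast_nonneg _

theorem forms_eq (H : ℕ) : forms k d H =
    fm '' ((bx (Fintype.card (Mon k d)) H : Finset _) :
      Set (Fin (Fintype.card (Mon k d)) → ℤ)) := by
  ext F
  constructor
  · rintro ⟨hF, hb⟩
    refine ⟨fun j => coeff ((nu k d).symm j).1 F, ?_, ?_⟩
    · rw [mem_coe]
      refine Fintype.mem_piFinset.2 fun j => ?_
      rw [mem_Icc]
      exact abs_le.1 (hb _)
    · ext m
      by_cases hm : m.degree = d
      · have h1 := coeff_fm (fun j => coeff ((nu k d).symm j).1 F) ⟨m, hm⟩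
        simp only [Equiv.symm_apply_apply] at h1
        exact h1
      · rw [(fm_homog _).coeff_eq_zero hm, hF.coeff_eq_zero hm]
  · rintro ⟨b, hb, rfl⟩
    exact fm_mem (mem_coe.1 hb)

theorem forms_finite (H : ℕ) : (forms k d H).Finite := by
  rw [forms_eq]
  exact (Finset.finite_toSet _).image _

theorem ncard_forms (H : ℕ) :
    (forms k d H).ncard = (2 * H + 1) ^ (Fintype.card (Mon k d)) := by
  rw [forms_eq, Set.ncard_image_of_injective _ fm_inj, Set.ncard_coe_finset, card_box]

theorem le_ncard {H : ℕ} (P : MvPolynomial (Fin k) ℤ → Prop)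
    (B : Finset (Fin (Fintype.card (Mon k d)) → ℤ)) (hB : B ⊆ bx _ H) (hP : ∀ b ∈ B, P (fm b)) :
    B.card ≤ {F | F ∈ forms k d H ∧ P F}.ncard := by
  have h1 : (fm '' (B : Set (Fin (Fintype.card (Mon k d)) → ℤ))).ncard = B.card := by
    rw [Set.ncard_image_of_injective _ fm_inj, Set.ncard_coe_finset]
  rw [← h1]
  apply Set.ncard_le_ncard
  · rintro _ ⟨b, hb, rfl⟩
    exact ⟨fm_mem (hB (mem_coe.1 hb)), hP b (mem_coe.1 hb)⟩
  · exact (forms_finite H).subset fun F hF => hF.1

end fm

/-- `F` is smooth over the rational numbers and has regular or nodal local equations. -/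
def GoodF {n : ℕ} (F : MvPolynomial (Fin (n + 2)) ℤ) : Prop :=
  Smooth (map (Int.castRingHom ℚ) F) ∧ LocNode (𝓞 ℚ) (map (Int.castRingHom ℚ) F)

theorem part2 (n d : ℕ) (hd : 3 ≤ d) : ∃ c : ℝ, 0 ≤ c ∧ ∀ M : ℕ, 1 ≤ M →
    ∀ F₀ : MvPolynomial (Fin (n + 2)) ℤ, F₀.IsHomogeneous d →
    (∀ 𝔭 : Ideal (𝓞 ℚ), 𝔭.IsPrime → 𝔭 ≠ ⊥ → (∃ p : ℕ, p.Prime ∧ p ≤ M ∧ (p : 𝓞 ℚ) ∈ 𝔭) →
      GoodAt 𝔭 (map (Int.castRingHom (𝓞 ℚ)) F₀)) →
    ∀ ε : ℝ, 0 < ε → ∃ H₀ : ℕ, ∀ H : ℕ, H₀ ≤ H →
    (1 - c / M - ε) * ((forms (n + 2) d H).ncard : ℝ) ≤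
      ({G | G ∈ forms (n + 2) d H ∧
        GoodF (F₀ + C ((M.factorial : ℤ) ^ 2) * G)}.ncard : ℝ) := by
  classical
  obtain ⟨fam, hfam, hcov⟩ := cover (n + 2) d hd
  obtain ⟨r, hr0, hr⟩ := disc (n + 2) d (by omega) (by omega)
  let N := Fintype.card (Mon (n + 2) d)
  let e := nu (n + 2) d
  let S : Fin (n + 2) × Fin (n + 2) × Bool → Finset (MvPolynomial (Fin N) ℤ) := fun ι =>
    {rename e (fam ι).1, rename e (fam ι).2}
  have hS : ∀ ι, ∀ D, (∀ f ∈ S ι, D ∣ f) → IsUnit D := by
    intro ι D hD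
    have h1 := hD _ (mem_insert_self _ _)
    have h2 := hD _ (mem_insert_of_mem (mem_singleton_self _))
    have h3 : ∀ f : MvPolynomial (Mon (n + 2) d) ℤ, D ∣ rename e f → rename e.symm D ∣ f := by
      intro f hf
      have h4 := map_dvd (rename e.symm : MvPolynomial (Fin N) ℤ →ₐ[ℤ] _) hf
      rw [rename_rename] at h4
      have h5 : (e.symm : Fin N → Mon (n + 2) d) ∘ e = id := by
        funext x
        simp
      rwa [h5, rename_id] at h4
    have h4 := hfam ι _ (h3 _ h1) (h3 _ h2)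
    have h5 := h4.map (rename e : MvPolynomial (Mon (n + 2) d) ℤ →ₐ[ℤ] _)
    rw [rename_rename] at h5
    have h6 : (e : Mon (n + 2) d → Fin N) ∘ e.symm = id := by
      funext x
      simp
    rwa [h6, rename_id] at h5
  have hr' : rename e r ≠ 0 := by
    intro h
    exact hr0 (rename_injective _ e.injective (by rw [h, map_zero]))
  obtain ⟨c, hc, hcount⟩ := count_main N S hS (rename e r) hr'
  refine ⟨c + 2, by positivity, ?_⟩
  intro M hM F₀ hF₀ hreg ε hε
  have hM0 : (0 : ℝ) < M := by exact_mod_cast hM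
  rcases Nat.eq_or_lt_of_le hM with hM1 | hM2
  · refine ⟨0, fun H _ => ?_⟩
    have h1 : (1 - (c + 2) / (M : ℝ) - ε) * ((forms (n + 2) d H).ncard : ℝ) ≤ 0 := by
      apply mul_nonpos_of_nonpos_of_nonneg _ (Nat.cast_nonneg _)
      rw [← hM1, Nat.cast_one, div_one]
      linarith
    exact h1.trans (Nat.cast_nonneg _)
  · let q : ℕ := M.factorial ^ 2
    have hq0 : q ≠ 0 := pow_ne_zero _ (Nat.factorial_ne_zero M)
    have hqM : ∀ p : ℕ, p.Prime → M < p → ¬ p ∣ q := by
      intro p hp hMp h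
      have h1 := hp.dvd_of_dvd_pow h
      rw [hp.dvd_factorial] at h1
      omega
    let a : Fin N → ℤ := fun j => coeff (e.symm j).1 F₀
    obtain ⟨H₀, hH₀⟩ := hcount M hM q a hq0 hqM ε hε
    refine ⟨H₀, fun H hH => ?_⟩
    have h1 := hH₀ H hH
    have h2 : ((forms (n + 2) d H).ncard : ℝ) = ((2 * H + 1 : ℕ) : ℝ) ^ N := by
      rw [ncard_forms]
      push_cast
      rfl
    rw [h2]
    have h3 : (1 - (c + 2) / (M : ℝ) - ε) * ((2 * H + 1 : ℕ) : ℝ) ^ N ≤
        (1 - c / (M : ℝ) - ε) * ((2 * H + 1 : ℕ) : ℝ) ^ N := by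
      apply mul_le_mul_of_nonneg_right _ (by positivity)
      have h4 : c / (M : ℝ) ≤ (c + 2) / M := div_le_div_of_nonneg_right (by linarith) hM0.le
      linarith
    refine h3.trans (h1.trans ?_)
    have h4 := le_ncard (k := n + 2) (d := d) (H := H)
      (fun G => GoodF (F₀ + C ((M.factorial : ℤ) ^ 2) * G)) (Gd S (rename e r) M q a H)
      (fun b hb => (mem_Gd.1 hb).1) ?_
    · exact_mod_cast h4
    · intro b hb
      obtain ⟨hb1, hb2, hb3⟩ := mem_Gd.1 hb
      set F := F₀ + C ((M.factorial : ℤ) ^ 2) * fm b with hF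
      have hFd : F.IsHomogeneous d := by
        refine hF₀.add ?_
        have h5 := (isHomogeneous_C (Fin (n + 2)) ((M.factorial : ℤ) ^ 2)).mul (fm_homog b)
        rwa [zero_add] at h5
      have hco : (fun m : Mon (n + 2) d => coeff m.1 F) = (fun j => a j + q * b j) ∘ e := by
        funext m
        rw [hF, coeff_add, coeff_C_mul, coeff_fm]
        simp only [Function.comp_apply, a, e, Equiv.symm_apply_apply, q]
        push_cast
        rfl
      have hev : ∀ f : MvPolynomial (Mon (n + 2) d) ℤ,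
          eval (fun m : Mon (n + 2) d => coeff m.1 F) f =
            eval (fun j => a j + q * b j) (rename e f) := by
        intro f
        rw [hco, eval_rename]
      refine ⟨?_, ?_⟩
      · refine smooth_of (L := AlgebraicClosure ℚ) _ d ?_ (hFd.map _) ?_
        · have : d ≠ 0 := by omega
          exact_mod_cast this
        · intro P hP
          by_contra hP0
          have h5 := hr (AlgebraicClosure ℚ) _ ((hFd.map _).map _) P hP0 hP
          have h6 : ∀ m : Mon (n + 2) d,
              coeff m.1 (map (algebraMap ℚ (AlgebraicClosure ℚ)) (map (Int.castRingHom ℚ) F)) =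
                ((coeff m.1 F : ℤ) : AlgebraicClosure ℚ) := by
            intro m
            rw [MvPolynomial.map_map, coeff_map]
            exact eq_intCast ((algebraMap ℚ (AlgebraicClosure ℚ)).comp (Int.castRingHom ℚ)) _
          simp only [h6] at h5
          rw [aeval_intCast (fun m : Mon (n + 2) d => coeff m.1 F), Int.cast_eq_zero, hev] at h5
          exact hb3 h5
      · refine locNode_of n d fam hcov M hM2 F hFd ?_ ?_
        · rintro 𝔭 hp h0 ⟨p, hpp, hpM, hp𝔭⟩
          refine goodAt_congr 𝔭 _ (map (Int.castRingHom (𝓞 ℚ)) F₀)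
            (map (Int.castRingHom (𝓞 ℚ)) (fm b)) ((M.factorial : 𝓞 ℚ) ^ 2) ?_ ?_
            (hreg 𝔭 hp h0 ⟨p, hpp, hpM, hp𝔭⟩)
          · apply Ideal.pow_mem_pow
            obtain ⟨t, ht⟩ := (hpp.dvd_factorial).2 hpM
            rw [ht, Nat.cast_mul]
            exact 𝔭.mul_mem_right _ hp𝔭
          · rw [hF]
            simp
        · intro ι p hpp hpM ⟨h5, h6⟩
          apply hb2 ι
          rw [mem_BadA]
          refine ⟨hb1, p, hpp, hpM, ?_⟩
          intro f hf
          rw [mem_insert, mem_singleton] at hf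
          rcases hf with rfl | rfl
          · rw [← hev]
            exact h5
          · rw [← hev]
            exact h6

end Pool.Agent.V8H73.EK
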