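import Pool.Agent.V8H73.EK.Ek

/-! The number of integral points where polynomials without common factor are divisible by a
large prime: the induction. -/

set_option autoImplicit false
set_option linter.unusedVariables false

namespace Pool.Agent.V8H73.EK

open MvPolynomial Finset Pool.Agent.R492.Bez

/-- The fibre over a point `b`. -/
theorem fibre_le {n : ℕ} (S : Finset (MvPolynomial (Fin (n + 1)) ℤ))
    (S' : Finset (MvPolynomial (Fin n) ℤ)) (r : MvPolynomial (Fin n) ℤ) (e₀ : ℕ)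
    (hS'' : ∀ c ∈ S', ∃ f ∈ S, ∃ k, (finSuccEquiv ℤ n f).coeff k = c)
    (hr : Polynomial.C r ∈ Ideal.span ((fun f => finSuccEquiv ℤ n f) '' (S : Set _)))
    (hD : ∀ f ∈ S, (finSuccEquiv ℤ n f).natDegree ≤ e₀) (M H : ℕ) (b : Fin n → ℤ)
    (hb : b ∈ bx n H) (hb0 : eval b r ≠ 0) (hb' : b ∉ Bad S' M H)
    [DecidablePred fun a : Fin (n + 1) → ℤ => Fin.tail a = b] :
    (((Bad S M H).filter (fun a => Fin.tail a = b)).card : ℝ) ≤
      ∑ p ∈ (eval b r).natAbs.primeFactors.filter (fun p => M < p),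
        (if p ≤ 2 * H then (e₀ : ℝ) * (5 * (H : ℝ) / p) else (e₀ : ℝ)) := by
  classical
  have hev : ∀ (t : ℤ) (f : MvPolynomial (Fin (n + 1)) ℤ),
      eval (Fin.cons t b : Fin (n + 1) → ℤ) f = Polynomial.eval t
        (Polynomial.map (eval b) (finSuccEquiv ℤ n f)) := fun t f => eval_eq_eval_mv_eval' b t f
  set PF := (eval b r).natAbs.primeFactors.filter (fun p => M < p) with hPF
  let A : ℕ → Finset ℤ := fun p => (Icc (-(H : ℤ)) H).filter
    (fun t => ∀ f ∈ S, (p : ℤ) ∣ eval (Fin.cons t b : Fin (n + 1) → ℤ) f)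
  -- primes dividing all the values divide `r`
  have hdiv : ∀ (p : ℕ) (t : ℤ), (∀ f ∈ S, (p : ℤ) ∣ eval (Fin.cons t b : Fin (n + 1) → ℤ) f) →
      (p : ℤ) ∣ eval b r := by
    intro p t ht
    let φ : Polynomial (MvPolynomial (Fin n) ℤ) →+* ℤ :=
      (Polynomial.evalRingHom t).comp (Polynomial.mapRingHom (eval b))
    have h1 : Ideal.span ((fun f => finSuccEquiv ℤ n f) '' (S : Set _)) ≤
        (Ideal.span {(p : ℤ)}).comap φ := by
      rw [Ideal.span_le]
      rintro _ ⟨f, hf, rfl⟩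
      rw [SetLike.mem_coe, Ideal.mem_comap, Ideal.mem_span_singleton]
      have h2 := ht f hf
      rw [hev] at h2
      exact h2
    have h3 := h1 hr
    rw [Ideal.mem_comap, Ideal.mem_span_singleton] at h3
    have h4 : φ (Polynomial.C r) = eval b r := by simp [φ]
    rwa [h4] at h3
  have hcard : ((Bad S M H).filter (fun a => Fin.tail a = b)).card ≤ ∑ p ∈ PF, (A p).card := by
    refine le_trans ?_ card_biUnion_le
    refine card_le_card_of_injOn (fun a => a 0) ?_ ?_
    · intro a ha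
      rw [mem_coe, mem_filter, mem_Bad] at ha
      obtain ⟨⟨ha1, p, hp, hMp, hpa⟩, ha2⟩ := ha
      have hcons : (Fin.cons (a 0) b : Fin (n + 1) → ℤ) = a := by
        rw [← ha2, Fin.cons_self_tail]
      have hpa' : ∀ f ∈ S, (p : ℤ) ∣ eval (Fin.cons (a 0) b : Fin (n + 1) → ℤ) f := by
        rw [hcons]
        exact hpa
      rw [mem_coe, mem_biUnion]
      refine ⟨p, ?_, ?_⟩
      · rw [hPF, mem_filter, Nat.mem_primeFactors]
        refine ⟨⟨hp, ?_, ?_⟩, hMp⟩
        · exact Int.natCast_dvd.1 (hdiv p (a 0) hpa')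
        · exact Int.natAbs_ne_zero.2 hb0
      · simp only [A]
        rw [mem_filter]
        refine ⟨?_, hpa'⟩
        have := (Fintype.mem_piFinset.1 ha1) 0
        exact this
    · intro a ha a' ha' h0
      rw [mem_coe, mem_filter] at ha ha'
      rw [← Fin.cons_self_tail a, ← Fin.cons_self_tail a', ha.2, ha'.2]
      have : a 0 = a' 0 := h0
      rw [this]
  have hcard' : (((Bad S M H).filter (fun a => Fin.tail a = b)).card : ℝ) ≤
      ∑ p ∈ PF, ((A p).card : ℝ) := by exact_mod_cast hcard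
  refine hcard'.trans (sum_le_sum fun p hp => ?_)
  rw [hPF, mem_filter, Nat.mem_primeFactors] at hp
  have hpp : Fact p.Prime := ⟨hp.1.1⟩
  obtain ⟨c, hc, hcp⟩ : ∃ c ∈ S', ¬ (p : ℤ) ∣ eval b c := by
    by_contra hcon
    push Not at hcon
    exact hb' (mem_Bad.2 ⟨hb, p, hp.1.1, hp.2, hcon⟩)
  obtain ⟨f, hf, k, hk⟩ := hS'' c hc
  set g := Polynomial.map (eval b) (finSuccEquiv ℤ n f) with hg
  have hg0 : g.map (Int.castRingHom (ZMod p)) ≠ 0 := by
    intro h0
    apply hcp
    have h1 := congrArg (fun q => Polynomial.coeff q k) h0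
    simp only [Polynomial.coeff_map, Polynomial.coeff_zero, hg, hk, eq_intCast] at h1
    rwa [ZMod.intCast_zmod_eq_zero_iff_dvd] at h1
  have hge : g.natDegree ≤ e₀ := Polynomial.natDegree_map_le.trans (hD f hf)
  refine le_trans ?_ (count_roots g p H e₀ hg0 hge)
  have h2 : (A p).card ≤ ((Icc (-(H : ℤ)) H).filter (fun t => (p : ℤ) ∣ g.eval t)).card := by
    apply card_le_card
    intro t ht
    simp only [A] at ht
    rw [mem_filter] at ht ⊢
    refine ⟨ht.1, ?_⟩
    have h3 := ht.2 f hf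
    rw [hev] at h3
    exact h3
  exact_mod_cast h2

/-- The sum over the primes. -/
theorem sum_primes {n : ℕ} (r : MvPolynomial (Fin n) ℤ) (M₁ : ℕ)
    (hM₁ : ∀ p : ℕ, p.Prime → M₁ < p → map (Int.castRingHom (ZMod p)) r ≠ 0) (Cr kr : ℕ)
    (hbd : ∀ H : ℕ, 1 ≤ H → ∀ z : Fin n → ℤ, (∀ i, |z i| ≤ H) → |eval z r| ≤ Cr * H ^ kr)
    (e₀ M H : ℕ) (hM : M₁ ≤ M) (hM1 : 1 ≤ M) (hH : 1 ≤ H) (hCr : Cr < 2 * H) :
    ∑ b ∈ (bx n H).filter (fun b => eval b r ≠ 0),
      ∑ p ∈ (eval b r).natAbs.primeFactors.filter (fun p => M < p),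
        (if p ≤ 2 * H then (e₀ : ℝ) * (5 * (H : ℝ) / p) else (e₀ : ℝ)) ≤
      e₀ * r.totalDegree * 5 ^ (n + 1) * (H : ℝ) ^ (n + 1) / M +
        e₀ * kr * ((2 * H + 1 : ℕ) : ℝ) ^ n := by
  classical
  set B := (bx n H).filter (fun b => eval b r ≠ 0) with hB
  have hsplit : ∀ b ∈ B, ∑ p ∈ (eval b r).natAbs.primeFactors.filter (fun p => M < p),
        (if p ≤ 2 * H then (e₀ : ℝ) * (5 * (H : ℝ) / p) else (e₀ : ℝ)) ≤
      ∑ p ∈ (Ioc M (2 * H)).filter (fun p => p.Prime),
        (if (p : ℤ) ∣ eval b r then (e₀ : ℝ) * (5 * (H : ℝ) / p) else 0) + e₀ * kr := by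
    intro b hb
    rw [hB, mem_filter] at hb
    rw [← sum_filter_add_sum_filter_not _ (fun p => p ≤ 2 * H)]
    apply add_le_add
    · rw [← sum_filter (s := (Ioc M (2 * H)).filter (fun p => p.Prime))]
      have h1 : ∑ p ∈ ((eval b r).natAbs.primeFactors.filter (fun p => M < p)).filter
          (fun p => p ≤ 2 * H), (if p ≤ 2 * H then (e₀ : ℝ) * (5 * (H : ℝ) / p) else (e₀ : ℝ)) =
          ∑ p ∈ ((eval b r).natAbs.primeFactors.filter (fun p => M < p)).filter
          (fun p => p ≤ 2 * H), (e₀ : ℝ) * (5 * (H : ℝ) / p) := by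
        refine sum_congr rfl fun p hp => ?_
        rw [mem_filter] at hp
        rw [if_pos hp.2]
      rw [h1]
      apply sum_le_sum_of_subset_of_nonneg
      · intro p hp
        rw [mem_filter, mem_filter, Nat.mem_primeFactors] at hp
        rw [mem_filter, mem_filter, mem_Ioc]
        exact ⟨⟨⟨hp.1.2, hp.2⟩, hp.1.1.1⟩, Int.natCast_dvd.2 hp.1.1.2.1⟩
      · intro p _ _
        positivity
    · have h1 : ∑ p ∈ ((eval b r).natAbs.primeFactors.filter (fun p => M < p)).filter
          (fun p => ¬ p ≤ 2 * H), (if p ≤ 2 * H then (e₀ : ℝ) * (5 * (H : ℝ) / p) else (e₀ : ℝ)) =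
          ∑ p ∈ ((eval b r).natAbs.primeFactors.filter (fun p => M < p)).filter
          (fun p => ¬ p ≤ 2 * H), (e₀ : ℝ) := by
        refine sum_congr rfl fun p hp => ?_
        rw [mem_filter] at hp
        rw [if_neg hp.2]
      rw [h1, sum_const, nsmul_eq_mul, mul_comm]
      have h2 : (((eval b r).natAbs.primeFactors.filter (fun p => M < p)).filter
          (fun p => ¬ p ≤ 2 * H)).card ≤ kr := by
        have hz : ∀ i, |b i| ≤ H := by
          intro i
          have := (Fintype.mem_piFinset.1 hb.1) i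
          rw [mem_Icc] at this
          exact abs_le.2 this
        have h3 := hbd H hH b hz
        have h4 : |eval b r| ≤ (Cr : ℤ) * ((2 * H : ℕ) : ℤ) ^ kr := by
          refine h3.trans ?_
          have h5 : (H : ℤ) ≤ ((2 * H : ℕ) : ℤ) := by
            push_cast
            omega
          exact mul_le_mul_of_nonneg_left (pow_le_pow_left₀ (by positivity) h5 _) (by positivity)
        refine le_trans (card_le_card ?_) (few_primes (eval b r) hb.2 (2 * H) Cr kr hCr h4)
        intro p hp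
        rw [mem_filter, mem_filter] at hp
        rw [mem_filter]
        exact ⟨hp.1.1, by omega⟩
      have h6 : ((((eval b r).natAbs.primeFactors.filter (fun p => M < p)).filter
          (fun p => ¬ p ≤ 2 * H)).card : ℝ) ≤ kr := by exact_mod_cast h2
      exact mul_le_mul_of_nonneg_left h6 (Nat.cast_nonneg _)
  refine (sum_le_sum hsplit).trans ?_
  rw [sum_add_distrib, sum_comm]
  apply add_le_add
  · have h1 : ∀ p ∈ (Ioc M (2 * H)).filter (fun p => p.Prime),
        ∑ b ∈ B, (if (p : ℤ) ∣ eval b r then (e₀ : ℝ) * (5 * (H : ℝ) / p) else 0) ≤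
        e₀ * r.totalDegree * 5 ^ (n + 1) * (H : ℝ) ^ (n + 1) * ((p : ℝ) ^ 2)⁻¹ := by
      intro p hp
      rw [mem_filter, mem_Ioc] at hp
      have hpp : Fact p.Prime := ⟨hp.2⟩
      have hp0 : (0 : ℝ) < p := by exact_mod_cast hp.2.pos
      rw [← sum_filter, sum_const, nsmul_eq_mul]
      have h2 : ((B.filter (fun b => (p : ℤ) ∣ eval b r)).card : ℝ) ≤
          r.totalDegree * 5 ^ n * (H : ℝ) ^ n / p := by
        refine le_trans ?_ (count_div r p H (hM₁ p hp.2 (by omega)) hp.1.2)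
        have h3 : (B.filter (fun b => (p : ℤ) ∣ eval b r)).card ≤
            ((bx n H).filter (fun b => (p : ℤ) ∣ eval b r)).card := by
          apply card_le_card
          intro b hb
          rw [mem_filter, hB, mem_filter] at hb
          rw [mem_filter]
          exact ⟨hb.1.1, hb.2⟩
        exact_mod_cast h3
      have h4 : (0 : ℝ) ≤ (e₀ : ℝ) * (5 * (H : ℝ) / p) := by positivity
      refine (mul_le_mul_of_nonneg_right h2 h4).trans (le_of_eq ?_)
      rw [pow_succ (5 : ℝ), pow_succ (H : ℝ)]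
      field_simp
    refine (sum_le_sum h1).trans ?_
    rw [← mul_sum]
    have h5 : ∑ p ∈ (Ioc M (2 * H)).filter (fun p => p.Prime), ((p : ℝ) ^ 2)⁻¹ ≤ (M : ℝ)⁻¹ := by
      rcases le_or_gt M (2 * H) with hMH | hMH
      · calc ∑ p ∈ (Ioc M (2 * H)).filter (fun p => p.Prime), ((p : ℝ) ^ 2)⁻¹ ≤
            ∑ p ∈ Ioc M (2 * H), ((p : ℝ) ^ 2)⁻¹ := by
              apply sum_le_sum_of_subset_of_nonneg (filter_subset _ _)
              intro p _ _
              positivity
          _ ≤ (M : ℝ)⁻¹ - ((2 * H : ℕ) : ℝ)⁻¹ := sum_Ioc_inv_sq_le_sub (by omega) hMH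
          _ ≤ (M : ℝ)⁻¹ := by
              have : (0 : ℝ) ≤ ((2 * H : ℕ) : ℝ)⁻¹ := by positivity
              linarith
      · rw [Ioc_eq_empty (by omega), filter_empty, sum_empty]
        positivity
    rw [div_eq_mul_inv]
    exact mul_le_mul_of_nonneg_left h5 (by positivity)
  · rw [sum_const, nsmul_eq_mul]
    have h2 : (B.card : ℝ) ≤ ((2 * H + 1 : ℕ) : ℝ) ^ n := by
      have h3 : B.card ≤ (2 * H + 1) ^ n := by
        rw [← card_box]
        exact card_filter_le _ _
      exact_mod_cast h3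
    have h4 : (0 : ℝ) ≤ (e₀ : ℝ) * kr := by positivity
    rw [mul_comm]
    exact mul_le_mul_of_nonneg_left h2 h4

/-- The zeros of `r`. -/
theorem zeros_le {n : ℕ} (r : MvPolynomial (Fin n) ℤ) (hr : r ≠ 0) :
    ∃ C : ℕ, ∀ H : ℕ, 1 ≤ H → (((bx n H).filter (fun b => eval b r = 0)).card : ℝ) * H ≤
      C * (H : ℝ) ^ n := by
  obtain ⟨C, hC⟩ := zc r hr
  rcases Nat.eq_zero_or_pos n with rfl | hn
  · refine ⟨0, fun H _ => ?_⟩
    have h1 : (bx 0 H).filter (fun b => eval b r = 0) = ∅ := by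
      apply filter_false_of_mem
      intro b _ h
      apply hr
      rw [eq_C_of_isEmpty r, eval_C] at h
      rw [eq_C_of_isEmpty r, h, C_0]
    rw [h1]
    simp
  · refine ⟨C, fun H hH => ?_⟩
    have h1 := hC H hH
    rw [Fintype.card_fin] at h1
    have h2 : (((bx n H).filter (fun b => eval b r = 0)).card : ℝ) ≤ C * (H : ℝ) ^ (n - 1) := by
      exact_mod_cast h1
    calc _ ≤ (C * (H : ℝ) ^ (n - 1)) * H := mul_le_mul_of_nonneg_right h2 (Nat.cast_nonneg _)
      _ = C * (H : ℝ) ^ n := by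
        rw [mul_assoc, ← pow_succ, Nat.sub_add_cancel hn]

theorem ek_zero (S : Finset (MvPolynomial (Fin 0) ℤ)) (hS : ∀ d, (∀ f ∈ S, d ∣ f) → IsUnit d)
    (M H : ℕ) : Bad S M H = ∅ := by
  rw [eq_empty_iff_forall_notMem]
  intro a ha
  obtain ⟨_, p, hp, _, hpS⟩ := mem_Bad.1 ha
  have h1 : IsUnit (C (p : ℤ) : MvPolynomial (Fin 0) ℤ) := by
    apply hS
    intro f hf
    have h2 := hpS f hf
    rw [eq_C_of_isEmpty f, eval_C] at h2
    rw [eq_C_of_isEmpty f]
    exact map_dvd C h2
  have h3 := h1.map (eval (0 : Fin 0 → ℤ))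
  rw [eval_C] at h3
  have h4 := Int.natAbs_of_isUnit h3
  rw [Int.natAbs_natCast] at h4
  exact hp.one_lt.ne' h4

theorem ek (n : ℕ) : ∀ S : Finset (MvPolynomial (Fin n) ℤ),
    (∀ d, (∀ f ∈ S, d ∣ f) → IsUnit d) → ∃ C : ℝ, 0 ≤ C ∧ ∃ M₀ : ℕ, ∀ M H : ℕ, M₀ ≤ M → 1 ≤ M →
    1 ≤ H → ((Bad S M H).card : ℝ) * H ≤ C * ((H : ℝ) ^ (n + 1) / M + (H : ℝ) ^ n) := by
  classical
  induction n with
  | zero =>
    intro S hS
    refine ⟨0, le_rfl, 0, fun M H _ _ _ => ?_⟩
    rw [ek_zero S hS]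
    simp
  | succ n ih =>
    intro S hS
    let e := finSuccEquiv ℤ n
    obtain ⟨r, hr0, hr⟩ := Pool.Agent.N17.CO.COUNT.exists_const
      ((fun f => finSuccEquiv ℤ n f) '' (S : Set _)) (by
        intro d hd
        have h1 : IsUnit (e.symm d) := by
          apply hS
          intro f hf
          have h2 := map_dvd e.symm (hd _ ⟨f, hf, rfl⟩)
          rwa [AlgEquiv.symm_apply_apply] at h2
        have h2 := h1.map e
        rwa [AlgEquiv.apply_symm_apply] at h2)
    let S' : Finset (MvPolynomial (Fin n) ℤ) := S.biUnion fun f =>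
      (range ((e f).natDegree + 1)).image fun k => (e f).coeff k
    have hS'1 : ∀ d, (∀ f ∈ S', d ∣ f) → IsUnit d := by
      intro d hd
      have h1 : IsUnit (e.symm (Polynomial.C d)) := by
        apply hS
        intro f hf
        have h2 : Polynomial.C d ∣ e f := by
          rw [Polynomial.C_dvd_iff_dvd_coeff]
          intro k
          by_cases hk : k ≤ (e f).natDegree
          · apply hd
            rw [mem_biUnion]
            exact ⟨f, hf, mem_image.2 ⟨k, mem_range.2 (by omega), rfl⟩⟩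
          · rw [Polynomial.coeff_eq_zero_of_natDegree_lt (by omega)]
            exact dvd_zero _
        have h3 := map_dvd e.symm h2
        rwa [AlgEquiv.symm_apply_apply] at h3
      have h2 := h1.map e
      rw [AlgEquiv.apply_symm_apply] at h2
      exact Polynomial.isUnit_C.1 h2
    have hS'2 : ∀ c ∈ S', ∃ f ∈ S, ∃ k, (finSuccEquiv ℤ n f).coeff k = c := by
      intro c hc
      obtain ⟨f, hf, hc⟩ := mem_biUnion.1 hc
      obtain ⟨k, _, hk⟩ := mem_image.1 hc
      exact ⟨f, hf, k, hk⟩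
    obtain ⟨C', hC', M₀', hih⟩ := ih S' hS'1
    obtain ⟨M₁, hM₁⟩ := map_ne r hr0
    obtain ⟨Cr, kr, hbd⟩ := bd r
    obtain ⟨Cz, hCz⟩ := zeros_le r hr0
    let e₀ := S.sup fun f => (finSuccEquiv ℤ n f).natDegree
    have hD : ∀ f ∈ S, (finSuccEquiv ℤ n f).natDegree ≤ e₀ := fun f hf =>
      Finset.le_sup (f := fun f => (finSuccEquiv ℤ n f).natDegree) hf
    refine ⟨3 * Cz + 3 * C' + e₀ * r.totalDegree * 5 ^ (n + 1) + 3 ^ n * e₀ * kr +
      3 ^ (n + 1) * Cr, by positivity, max M₀' M₁, fun M H hM hM1 hH => ?_⟩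
    have hH0 : (1 : ℝ) ≤ H := by exact_mod_cast hH
    have hM0 : (0 : ℝ) < M := by exact_mod_cast hM1
    have hbox3 : ∀ k : ℕ, ((2 * H + 1 : ℕ) : ℝ) ^ k ≤ 3 ^ k * (H : ℝ) ^ k := by
      intro k
      rw [← mul_pow]
      apply pow_le_pow_left₀ (by positivity)
      push_cast
      linarith
    have hX : (0 : ℝ) ≤ (H : ℝ) ^ (n + 1 + 1) / M := by positivity
    have hY : (0 : ℝ) ≤ (H : ℝ) ^ (n + 1) := by positivity
    by_cases hCr : Cr < 2 * H
    · -- the main case
      have hmaps : ∀ a ∈ Bad S M H, Fin.tail a ∈ bx n H := by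
        intro a ha
        have h1 := Fintype.mem_piFinset.1 (mem_Bad.1 ha).1
        exact Fintype.mem_piFinset.2 fun i => h1 i.succ
      have hcard : ((Bad S M H).card : ℝ) =
          ∑ b ∈ bx n H, (((Bad S M H).filter (fun a => Fin.tail a = b)).card : ℝ) := by
        rw [card_eq_sum_card_fiberwise hmaps]
        push_cast
        rfl
      have hfib : ∀ b ∈ bx n H, (((Bad S M H).filter (fun a => Fin.tail a = b)).card : ℝ) ≤
          2 * H + 1 := by
        intro b hb
        have h1 : ((Bad S M H).filter (fun a => Fin.tail a = b)).card ≤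
            (Icc (-(H : ℤ)) H).card := by
          refine card_le_card_of_injOn (fun a => a 0) ?_ ?_
          · intro a ha
            rw [mem_coe, mem_filter, mem_Bad] at ha
            exact (Fintype.mem_piFinset.1 ha.1.1) 0
          · intro a ha a' ha' h0
            rw [mem_coe, mem_filter] at ha ha'
            rw [← Fin.cons_self_tail a, ← Fin.cons_self_tail a', ha.2, ha'.2]
            have : a 0 = a' 0 := h0
            rw [this]
        have h2 : (Icc (-(H : ℤ)) H).card = 2 * H + 1 := by rw [Int.card_Icc]; omega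
        rw [h2] at h1
        exact_mod_cast h1
      have hle : ∀ b ∈ bx n H, (((Bad S M H).filter (fun a => Fin.tail a = b)).card : ℝ) ≤
          (if eval b r = 0 then (2 * (H : ℝ) + 1) else 0) +
          (if b ∈ Bad S' M H then (2 * (H : ℝ) + 1) else 0) +
          (if eval b r ≠ 0 then
            ∑ p ∈ (eval b r).natAbs.primeFactors.filter (fun p => M < p),
              (if p ≤ 2 * H then (e₀ : ℝ) * (5 * (H : ℝ) / p) else (e₀ : ℝ)) else 0) := by
        intro b hb
        have hpos : (0 : ℝ) ≤ ∑ p ∈ (eval b r).natAbs.primeFactors.filter (fun p => M < p),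
              (if p ≤ 2 * H then (e₀ : ℝ) * (5 * (H : ℝ) / p) else (e₀ : ℝ)) := by
          apply sum_nonneg
          intro p _
          split_ifs <;> positivity
        have h0 : (0 : ℝ) ≤ 2 * (H : ℝ) + 1 := by positivity
        by_cases h1 : eval b r = 0
        · rw [if_pos h1, if_neg (not_not.2 h1), add_zero]
          have := hfib b hb
          split_ifs <;> linarith
        · rw [if_neg h1, if_pos h1, zero_add]
          by_cases h2 : b ∈ Bad S' M H
          · rw [if_pos h2]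
            have := hfib b hb
            linarith
          · rw [if_neg h2, zero_add]
            exact fibre_le S S' r e₀ hS'2 hr hD M H b hb h1 h2
      have htot : ((Bad S M H).card : ℝ) ≤
          (2 * (H : ℝ) + 1) * ((bx n H).filter (fun b => eval b r = 0)).card +
          (2 * (H : ℝ) + 1) * (Bad S' M H).card +
          (e₀ * r.totalDegree * 5 ^ (n + 1) * (H : ℝ) ^ (n + 1) / M +
            e₀ * kr * ((2 * H + 1 : ℕ) : ℝ) ^ n) := by
        rw [hcard]
        refine (sum_le_sum hle).trans ?_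
        rw [sum_add_distrib, sum_add_distrib]
        apply add_le_add (add_le_add _ _)
        · rw [← sum_filter]
          exact sum_primes r M₁ (fun p _ h => hM₁ p h) Cr kr hbd e₀ M H (by omega) hM1 hH hCr
        · rw [← sum_filter, sum_const, nsmul_eq_mul, mul_comm]
        · rw [← sum_filter, sum_const, nsmul_eq_mul, mul_comm]
          apply mul_le_mul_of_nonneg_left _ (by positivity)
          have h3 : ((bx n H).filter (fun b => b ∈ Bad S' M H)).card ≤ (Bad S' M H).card :=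
            card_le_card fun b hb => (mem_filter.1 hb).2
          exact_mod_cast h3
      have h1 := hCz H hH
      have h2 := hih M H (by omega) hM1 hH
      have h3 : 2 * (H : ℝ) + 1 ≤ 3 * H := by linarith
      set z : ℝ := (((bx n H).filter (fun b => eval b r = 0)).card : ℝ) with hz
      set w : ℝ := ((Bad S' M H).card : ℝ) with hw
      have hz0 : 0 ≤ z := Nat.cast_nonneg _
      have hw0 : 0 ≤ w := Nat.cast_nonneg _
      have i1 : (2 * (H : ℝ) + 1) * z * H ≤ 3 * Cz * (H : ℝ) ^ (n + 1) := by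
        calc (2 * (H : ℝ) + 1) * z * H ≤ (3 * H) * z * H := by gcongr
          _ = (3 * H) * (z * H) := by ring
          _ ≤ (3 * H) * (Cz * (H : ℝ) ^ n) := mul_le_mul_of_nonneg_left h1 (by positivity)
          _ = _ := by ring
      have i2 : (2 * (H : ℝ) + 1) * w * H ≤
          3 * C' * ((H : ℝ) ^ (n + 1 + 1) / M + (H : ℝ) ^ (n + 1)) := by
        calc (2 * (H : ℝ) + 1) * w * H ≤ (3 * H) * w * H := by gcongr
          _ = (3 * H) * (w * H) := by ring
          _ ≤ (3 * H) * (C' * ((H : ℝ) ^ (n + 1) / M + (H : ℝ) ^ n)) :=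
            mul_le_mul_of_nonneg_left h2 (by positivity)
          _ = _ := by ring
      have i3 : e₀ * kr * ((2 * H + 1 : ℕ) : ℝ) ^ n * H ≤ 3 ^ n * e₀ * kr * (H : ℝ) ^ (n + 1) := by
        calc e₀ * kr * ((2 * H + 1 : ℕ) : ℝ) ^ n * H ≤
            e₀ * kr * (3 ^ n * (H : ℝ) ^ n) * H := by
              have := hbox3 n
              gcongr
          _ = _ := by ring
      have hCr0 : (0 : ℝ) ≤ 3 ^ (n + 1) * Cr := by positivity
      have hCz0 : (0 : ℝ) ≤ Cz := Nat.cast_nonneg _
      have hA0 : (0 : ℝ) ≤ e₀ * r.totalDegree * 5 ^ (n + 1) := by positivity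
      have hB0 : (0 : ℝ) ≤ 3 ^ n * e₀ * kr := by positivity
      calc ((Bad S M H).card : ℝ) * H ≤ ((2 * (H : ℝ) + 1) * z + (2 * (H : ℝ) + 1) * w +
          (e₀ * r.totalDegree * 5 ^ (n + 1) * (H : ℝ) ^ (n + 1) / M +
            e₀ * kr * ((2 * H + 1 : ℕ) : ℝ) ^ n)) * H :=
            mul_le_mul_of_nonneg_right htot (Nat.cast_nonneg _)
        _ = (2 * (H : ℝ) + 1) * z * H + (2 * (H : ℝ) + 1) * w * H +
            e₀ * r.totalDegree * 5 ^ (n + 1) * ((H : ℝ) ^ (n + 1 + 1) / M) +
            e₀ * kr * ((2 * H + 1 : ℕ) : ℝ) ^ n * H := by ring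
        _ ≤ 3 * Cz * (H : ℝ) ^ (n + 1) +
            3 * C' * ((H : ℝ) ^ (n + 1 + 1) / M + (H : ℝ) ^ (n + 1)) +
            e₀ * r.totalDegree * 5 ^ (n + 1) * ((H : ℝ) ^ (n + 1 + 1) / M) +
            3 ^ n * e₀ * kr * (H : ℝ) ^ (n + 1) := by linarith
        _ ≤ _ := by
            have j1 : 0 ≤ 3 * Cz * ((H : ℝ) ^ (n + 1 + 1) / M) := by positivity
            have j2 : 0 ≤ e₀ * r.totalDegree * 5 ^ (n + 1) * (H : ℝ) ^ (n + 1) :=
              mul_nonneg hA0 hY
            have j3 : 0 ≤ 3 ^ n * e₀ * kr * ((H : ℝ) ^ (n + 1 + 1) / M) := mul_nonneg hB0 hX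
            have j4 : 0 ≤ 3 ^ (n + 1) * Cr * ((H : ℝ) ^ (n + 1 + 1) / M + (H : ℝ) ^ (n + 1)) :=
              mul_nonneg hCr0 (add_nonneg hX hY)
            nlinarith [j1, j2, j3, j4]
    · -- small `H`
      have h1 : ((Bad S M H).card : ℝ) ≤ 3 ^ (n + 1) * (H : ℝ) ^ (n + 1) := by
        have h2 : (Bad S M H).card ≤ (2 * H + 1) ^ (n + 1) := by
          rw [← card_box]
          exact card_le_card fun a ha => (mem_Bad.1 ha).1
        have h3 : ((Bad S M H).card : ℝ) ≤ ((2 * H + 1 : ℕ) : ℝ) ^ (n + 1) := by exact_mod_cast h2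
        exact h3.trans (hbox3 _)
      have h2 : (H : ℝ) ≤ Cr := by
        have : H ≤ Cr := by omega
        exact_mod_cast this
      calc ((Bad S M H).card : ℝ) * H ≤ (3 ^ (n + 1) * (H : ℝ) ^ (n + 1)) * Cr :=
            mul_le_mul h1 h2 (Nat.cast_nonneg _) (by positivity)
        _ = 3 ^ (n + 1) * Cr * (H : ℝ) ^ (n + 1) := by ring
        _ ≤ 3 ^ (n + 1) * Cr * ((H : ℝ) ^ (n + 1 + 1) / M + (H : ℝ) ^ (n + 1)) := by
            apply mul_le_mul_of_nonneg_left _ (by positivity)
            linarith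
        _ ≤ _ := by
            apply mul_le_mul_of_nonneg_right _ (add_nonneg hX hY)
            have j1 : (0 : ℝ) ≤ 3 * Cz + 3 * C' + e₀ * r.totalDegree * 5 ^ (n + 1) +
                3 ^ n * e₀ * kr := by positivity
            linarith

end Pool.Agent.V8H73.EK
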