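import Pool.Agent.V8H73.EK.NotBad

/-! Forms which are not bad modulo a prime ideal are regular over the prime or have an ordinary
double point there: the change of coordinates. -/

set_option autoImplicit false
set_option linter.unusedVariables false

namespace Pool.Agent.V8H73.EK

open MvPolynomial Pool.Agent.TH214.RM Pool.Agent.V8H73.ND

section mat

variable {R : Type} [CommRing R] {n : ℕ}

/-- the matrix which moves the first unit vector to `p` -/
def TT (i : Fin (n + 1)) (p : Fin (n + 1) → R) : Matrix (Fin (n + 1)) (Fin (n + 1)) R :=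
  Matrix.of fun l j => (if j = Equiv.swap 0 i l then 1 else 0) + (if j = 0 ∧ l ≠ i then p l else 0)

/-- the inverse matrix -/
def TI (i : Fin (n + 1)) (p : Fin (n + 1) → R) : Matrix (Fin (n + 1)) (Fin (n + 1)) R :=
  Matrix.of fun j m => (if m = Equiv.swap 0 i j then 1 else 0) -
    (if m = i ∧ j ≠ 0 then p (Equiv.swap 0 i j) else 0)

theorem TT_mul_TI (i : Fin (n + 1)) (p : Fin (n + 1) → R) : TT i p * TI i p = 1 := by
  ext l m
  rw [Matrix.mul_apply, Matrix.one_apply]
  simp only [TT, Matrix.of_apply, add_mul, Finset.sum_add_distrib, ite_mul, one_mul, zero_mul]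
  rw [Finset.sum_ite_eq' Finset.univ (Equiv.swap 0 i l), if_pos (Finset.mem_univ _)]
  by_cases hl : l = i
  · subst hl
    have h1 : ∀ j, (if j = 0 ∧ l ≠ l then p l * TI l p j m else 0) = 0 := by
      intro j
      rw [if_neg (by tauto)]
    simp only [h1, Finset.sum_const_zero, add_zero]
    simp only [TI, Matrix.of_apply, Equiv.swap_apply_right, Equiv.swap_apply_left]
    simp [eq_comm]
  · have h1 : ∀ j, (if j = 0 ∧ l ≠ i then p l * TI i p j m else 0) =
        if j = 0 then p l * TI i p j m else 0 := by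
      intro j
      simp [hl]
    simp only [h1]
    rw [Finset.sum_ite_eq' Finset.univ 0, if_pos (Finset.mem_univ _)]
    have hl0 : Equiv.swap 0 i l ≠ 0 := by
      intro h
      apply hl
      have := congrArg (Equiv.swap 0 i) h
      rwa [Equiv.swap_apply_self, Equiv.swap_apply_left] at this
    simp only [TI, Matrix.of_apply, Equiv.swap_apply_self, Equiv.swap_apply_left]
    by_cases hm : m = i
    · subst hm
      rw [if_neg (Ne.symm hl), if_pos ⟨rfl, hl0⟩, if_pos rfl, if_neg (by tauto), if_neg hl]
      ring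
    · simp only [hm, false_and, if_false, sub_zero, mul_zero, add_zero]
      by_cases hml : m = l
      · rw [if_pos hml, if_pos hml.symm]
      · rw [if_neg hml, if_neg (Ne.symm hml)]

theorem TT_e (i : Fin (n + 1)) (p : Fin (n + 1) → R) (hp : p i = 1) (l : Fin (n + 1)) :
    TT i p l 0 = p l := by
  simp only [TT, Matrix.of_apply]
  by_cases hl : l = i
  · subst hl
    rw [Equiv.swap_apply_right, if_pos rfl, if_neg (by tauto), hp, add_zero]
  · have hl0 : Equiv.swap 0 i l ≠ 0 := by
      intro h
      apply hl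
      have := congrArg (Equiv.swap 0 i) h
      rwa [Equiv.swap_apply_self, Equiv.swap_apply_left] at this
    rw [if_neg (Ne.symm hl0), zero_add]
    simp [hl]

end mat

variable {O k L : Type} [CommRing O] [Field k] [Field L] [Algebra k L]

theorem notBad [IsAlgClosed L] [Fintype k] {n : ℕ} (𝔭 : Ideal O) (ψ : O →+* k)
    (hψ : Function.Surjective ψ) (hker : ∀ r, ψ r = 0 ↔ r ∈ 𝔭)
    (F : MvPolynomial (Fin (n + 1)) O) (d : ℕ) (hF : F.IsHomogeneous d)
    (hbad : ¬ BadF (map ((algebraMap k L).comp ψ) F)) :
    Crit 𝔭 F ∨ ∃ T T' : Matrix (Fin (n + 1)) (Fin (n + 1)) O, T * T' = 1 ∧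
      NodeO 𝔭 (aeval (lin T) F) := by
  classical
  set φ : O →+* L := (algebraMap k L).comp ψ with hφ
  have hF' : (map φ F).IsHomogeneous d := hF.map φ
  by_cases hs : ∃ P : Fin (n + 1) → L, P ≠ 0 ∧ Sing (map φ F) P
  · right
    obtain ⟨P₀, hP₀, hsP₀⟩ := hs
    obtain ⟨i, hi⟩ : ∃ i, P₀ i ≠ 0 := by
      by_contra hcon
      push Not at hcon
      exact hP₀ (funext hcon)
    set P : Fin (n + 1) → L := (P₀ i)⁻¹ • P₀ with hP
    have hPi : P i = 1 := by simp [hP, inv_mul_cancel₀ hi]
    have hsP : Sing (map φ F) P := hsP₀.smul hF' _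
    have hmm : map φ F = map (algebraMap k L) (map ψ F) := by rw [map_map]
    have hsQ : Sing (map φ F) (fun j => P j ^ Fintype.card k) := by
      rw [hmm] at hsP ⊢
      exact sing_frob (map ψ F) P hsP
    have hfix : ∀ j, P j ^ Fintype.card k = P j := by
      intro j
      have h1 := prop_of_not (P := P) (Q := fun j => P j ^ Fintype.card k)
        (fun h => hbad ⟨_, _, h, hsP, Or.inl hsQ⟩) i hPi j
      simp only [hPi, one_pow, one_mul] at h1
      exact h1
    have hlift : ∀ j, ∃ r : O, φ r = P j := by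
      intro j
      obtain ⟨a, ha⟩ := mem_range_of_pow (k := k) (P j) (hfix j)
      obtain ⟨r, hr⟩ := hψ a
      exact ⟨r, by rw [hφ, RingHom.comp_apply, hr, ha]⟩
    choose p₀ hp₀ using hlift
    let p : Fin (n + 1) → O := Function.update p₀ i 1
    have hpi : p i = 1 := Function.update_self _ _ _
    have hp : ∀ j, φ (p j) = P j := by
      intro j
      by_cases hj : j = i
      · subst hj
        rw [hpi, map_one, hPi]
      · simp only [p]
        rw [Function.update_of_ne hj, hp₀]
    refine ⟨TT i p, TI i p, TT_mul_TI i p, ?_⟩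
    have hmat : (TT i p).map φ * (TI i p).map φ = 1 := by
      rw [← Matrix.map_mul, TT_mul_TI, Matrix.map_one _ (map_zero φ) (map_one φ)]
    have hH : (aeval (lin (TT i p)) F).IsHomogeneous d := by
      have h1 := hF.aeval (lin (TT i p)) (fun l => lin_homog (TT i p) l)
      rwa [one_mul] at h1
    refine nodeO_of (L := L) 𝔭 ψ hψ hker _ d hH ?_ ?_
    · rw [← hφ, map_lin]
      exact fun h => hbad (bad_lin _ _ hmat _ h)
    · rw [← hφ, map_lin, sing_lin _ _ hmat]
      have h1 : (fun l => ∑ j, (TT i p).map φ l j * (Pi.single 0 1 : Fin (n + 1) → L) j) = P := by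
        funext l
        rw [Finset.sum_eq_single 0]
        · rw [Pi.single_eq_same, mul_one, Matrix.map_apply, TT_e i p hpi, hp]
        · intro j _ hj
          rw [Pi.single_eq_of_ne hj, mul_zero]
        · intro h
          exact absurd (Finset.mem_univ _) h
      rw [h1]
      exact hsP
  · left
    intro s Q hQ hC hG
    left
    by_contra hcon
    push Not at hcon
    obtain ⟨x, hx, _⟩ := nss (L := L) 𝔭 ψ hψ hker Q hQ hC 1 ((Ideal.ne_top_iff_one Q).1 hQ.ne_top)
    apply hs
    refine ⟨xx s x, ?_, sing_of φ F d hF s x (hx _ hG) fun j => hx _ (hcon j)⟩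
    intro h
    have h1 := congrFun h s
    simp [xx] at h1

end Pool.Agent.V8H73.EK
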