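import Pool.Agent.V8H73.EK.Cover
import Pool.Agent.V8H73.ND.Node
import Mathlib.RingTheory.Nullstellensatz
import Mathlib.FieldTheory.Finite.Basic

/-! Forms which are not bad modulo a prime ideal are regular over the prime or have an ordinary
double point there. -/

set_option autoImplicit false
set_option linter.unusedVariables false

namespace Pool.Agent.V8H73.EK

open MvPolynomial Pool.Agent.TH214.RM Pool.Agent.V8H73.ND

section lin

variable {k : ℕ} {R : Type} [CommRing R]

/-- the linear substitution with matrix `T` -/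
noncomputable def lin (T : Matrix (Fin k) (Fin k) R) (l : Fin k) : MvPolynomial (Fin k) R :=
  ∑ j, C (T l j) * X j

theorem eval_lin (T : Matrix (Fin k) (Fin k) R) (x : Fin k → R) (l : Fin k) :
    eval x (lin T l) = ∑ j, T l j * x j := by
  unfold lin
  simp

theorem pderiv_linf (T : Matrix (Fin k) (Fin k) R) (m l : Fin k) :
    pderiv m (lin T l) = C (T l m) := by
  classical
  unfold lin
  rw [map_sum]
  have h2 : ∀ j, pderiv m (C (T l j) * (X j : MvPolynomial (Fin k) R)) =
      if j = m then C (T l j) else 0 := by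
    intro j
    rw [pderiv_C_mul, pderiv_X]
    simp only [Pi.single_apply]
    split_ifs <;> simp_all
  simp only [h2]
  rw [Finset.sum_ite_eq' Finset.univ m, if_pos (Finset.mem_univ _)]

theorem map_lin {R' : Type} [CommRing R'] (φ : R →+* R') (T : Matrix (Fin k) (Fin k) R)
    (F : MvPolynomial (Fin k) R) :
    map φ (aeval (lin T) F) = aeval (lin (T.map φ)) (map φ F) := by
  have h : (map φ).comp (aeval (lin T) : MvPolynomial (Fin k) R →ₐ[R] _).toRingHom =
      (aeval (lin (T.map φ)) : MvPolynomial (Fin k) R' →ₐ[R'] _).toRingHom.comp (map φ) := by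
    apply MvPolynomial.ringHom_ext
    · intro r
      simp
    · intro l
      simp [lin]
  exact congrArg (fun ψ => ψ F) (congrArg DFunLike.coe h)

theorem lin_homog (T : Matrix (Fin k) (Fin k) R) (l : Fin k) : (lin T l).IsHomogeneous 1 := by
  refine IsHomogeneous.sum _ _ _ fun j _ => ?_
  have h2 := (isHomogeneous_C (Fin k) (T l j)).mul (isHomogeneous_X R j)
  rwa [zero_add] at h2

end lin

section badlin

variable {k : ℕ} {L : Type} [Field L]

theorem mulVec_zero_of (T T' : Matrix (Fin k) (Fin k) L) (hT : T * T' = 1) (z : Fin k → L)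
    (h : ∀ m, ∑ l, T l m * z l = 0) : ∀ l, z l = 0 := by
  have h1 : Matrix.vecMul z T = 0 := by
    funext m
    have h3 : Matrix.vecMul z T m = ∑ l, z l * T l m := rfl
    rw [h3, Pi.zero_apply, ← h m]
    exact Finset.sum_congr rfl fun l _ => mul_comm _ _
  have h2 : Matrix.vecMul z (T * T') = 0 := by
    rw [← Matrix.vecMul_vecMul, h1, Matrix.zero_vecMul]
  rw [hT, Matrix.vecMul_one] at h2
  exact fun l => congrFun h2 l

theorem sing_lin (T T' : Matrix (Fin k) (Fin k) L) (hT : T * T' = 1)
    (F : MvPolynomial (Fin k) L) (x : Fin k → L) :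
    Sing (aeval (lin T) F) x ↔ Sing F (fun l => ∑ j, T l j * x j) := by
  have h1 : ∀ G : MvPolynomial (Fin k) L,
      eval x (aeval (lin T) G) = eval (fun l => ∑ j, T l j * x j) G := by
    intro G
    rw [eval_aeval]
    simp only [eval_lin]
  have h2 : ∀ m, eval x (pderiv m (aeval (lin T) F)) =
      ∑ l, T l m * eval (fun l => ∑ j, T l j * x j) (pderiv l F) := by
    intro m
    rw [pderiv_sub, map_sum]
    refine Finset.sum_congr rfl fun l _ => ?_
    rw [map_mul, h1, pderiv_linf, eval_C]
  constructor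
  · rintro ⟨h3, h4⟩
    refine ⟨by rw [← h1, h3], ?_⟩
    apply mulVec_zero_of T T' hT
    intro m
    rw [← h2, h4]
  · rintro ⟨h3, h4⟩
    refine ⟨by rw [h1, h3], fun m => ?_⟩
    rw [h2]
    exact Finset.sum_eq_zero fun l _ => by rw [h4, mul_zero]

theorem bad_lin (T T' : Matrix (Fin k) (Fin k) L) (hT : T * T' = 1)
    (F : MvPolynomial (Fin k) L) (h : BadF (aeval (lin T) F)) : BadF F := by
  obtain ⟨P, Q, hind, hP, hQ⟩ := h
  have hT' : T' * T = 1 := mul_eq_one_comm.1 hT
  have hmul : ∀ x : Fin k → L, (fun l => ∑ j, T l j * x j) = T.mulVec x := by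
    intro x
    rfl
  have h1 : ∀ G : MvPolynomial (Fin k) L,
      eval P (aeval (lin T) G) = eval (fun l => ∑ j, T l j * P j) G := by
    intro G
    rw [eval_aeval]
    simp only [eval_lin]
  refine ⟨fun l => ∑ j, T l j * P j, fun l => ∑ j, T l j * Q j, ?_,
    (sing_lin T T' hT F P).1 hP, ?_⟩
  · intro a b hab
    apply hind
    rw [hmul, hmul, ← Matrix.mulVec_smul, ← Matrix.mulVec_smul, ← Matrix.mulVec_add] at hab
    have h2 := congrArg T'.mulVec hab
    rw [Matrix.mulVec_mulVec, hT', Matrix.one_mulVec, Matrix.mulVec_zero] at h2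
    exact h2
  · rcases hQ with hQ | hQ
    · exact Or.inl ((sing_lin T T' hT F Q).1 hQ)
    · right
      apply mulVec_zero_of T T' hT
      intro m
      rw [← hQ m]
      have h3 : ∀ j, eval P (pderiv j (pderiv m (aeval (lin T) F))) =
          ∑ l, T l m * ∑ b, T b j * eval (fun l => ∑ j, T l j * P j) (pderiv b (pderiv l F)) := by
        intro j
        rw [pderiv_sub, map_sum, map_sum]
        refine Finset.sum_congr rfl fun l _ => ?_
        rw [pderiv_linf, pderiv_C_mul, map_mul, eval_C, pderiv_sub, map_sum]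
        congr 1
        refine Finset.sum_congr rfl fun b _ => ?_
        rw [map_mul, h1, pderiv_linf, eval_C]
      simp only [h3, Finset.mul_sum, Finset.sum_mul]
      symm
      rw [Finset.sum_comm]
      refine Finset.sum_congr rfl fun l _ => ?_
      rw [Finset.sum_comm]
      refine Finset.sum_congr rfl fun b _ => Finset.sum_congr rfl fun j _ => ?_
      ring

end badlin

section points

variable {O k L : Type} [CommRing O] [Field k] [Field L] [Algebra k L]

theorem ker_map_le {σ : Type} (𝔭 : Ideal O) (ψ : O →+* k) (hker : ∀ r, ψ r = 0 ↔ r ∈ 𝔭)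
    (Q : Ideal (MvPolynomial σ O)) (hC : ∀ r : O, C r ∈ Q ↔ r ∈ 𝔭) :
    RingHom.ker (map ψ : MvPolynomial σ O →+* MvPolynomial σ k) ≤ Q := by
  intro f hf
  rw [RingHom.mem_ker] at hf
  apply mem_ideal_of_coeff_mem_ideal
  intro m
  rw [Ideal.mem_comap, hC, ← hker]
  have h1 := congrArg (coeff m) hf
  rwa [coeff_map, coeff_zero] at h1

theorem nss [IsAlgClosed L] (𝔭 : Ideal O) (ψ : O →+* k) (hψ : Function.Surjective ψ)
    (hker : ∀ r, ψ r = 0 ↔ r ∈ 𝔭) {σ : Type} [Finite σ] (Q : Ideal (MvPolynomial σ O))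
    (hQ : Q.IsPrime) (hC : ∀ r : O, C r ∈ Q ↔ r ∈ 𝔭) (g : MvPolynomial σ O) (hg : g ∉ Q) :
    ∃ x : σ → L, (∀ f ∈ Q, eval x (map ((algebraMap k L).comp ψ) f) = 0) ∧
      eval x (map ((algebraMap k L).comp ψ) g) ≠ 0 := by
  have hsurj : Function.Surjective (map ψ : MvPolynomial σ O →+* MvPolynomial σ k) :=
    map_surjective ψ hψ
  have hk := ker_map_le 𝔭 ψ hker Q hC
  have hQ' : (Q.map (map ψ : MvPolynomial σ O →+* MvPolynomial σ k)).IsPrime :=
    Ideal.map_isPrime_of_surjective hsurj hk
  have hev : ∀ (x : σ → L) (f : MvPolynomial σ O),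
      eval x (map ((algebraMap k L).comp ψ) f) = aeval x (map ψ f) := by
    intro x f
    rw [aeval_def, eval₂_map, eval_map]
  have h1 : map ψ g ∉ Q.map (map ψ : MvPolynomial σ O →+* MvPolynomial σ k) := by
    intro h
    rw [Ideal.mem_map_iff_of_surjective _ hsurj] at h
    obtain ⟨f, hf, hfg⟩ := h
    apply hg
    have h2 : g - f ∈ Q := hk (by rw [RingHom.mem_ker, map_sub, hfg, sub_self])
    have h3 := Q.add_mem h2 hf
    rwa [sub_add_cancel] at h3
  rw [← IsPrime.vanishingIdeal_zeroLocus (K := L)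
    (Q.map (map ψ : MvPolynomial σ O →+* MvPolynomial σ k)), mem_vanishingIdeal_iff] at h1
  push Not at h1
  obtain ⟨x, hx, hxg⟩ := h1
  refine ⟨x, fun f hf => ?_, ?_⟩
  · rw [hev]
    exact hx _ (Ideal.mem_map_of_mem _ hf)
  · rw [hev]
    exact hxg

/-- the point of the projective space with coordinate `1` at `s` -/
def xx {N : ℕ} (s : Fin N) (x : {j : Fin N // j ≠ s} → L) (j : Fin N) : L :=
  if h : j = s then 1 else x ⟨j, h⟩

theorem eval_deh {N : ℕ} (s : Fin N) (x : {j : Fin N // j ≠ s} → L)
    (G : MvPolynomial (Fin N) L) : eval x (deh s G) = eval (xx s x) G := by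
  have h := aeval_deh (A := L) s (xx s x) (by simp [xx]) G
  have h1 : (fun j : {j : Fin N // j ≠ s} => xx s x j) = x := by
    funext j
    simp [xx, j.2]
  rw [h1] at h
  simpa [aeval_eq_eval] using h

theorem sing_of {N : ℕ} (φ : O →+* L) (F : MvPolynomial (Fin N) O) (d : ℕ)
    (hF : F.IsHomogeneous d) (s : Fin N) (x : {j : Fin N // j ≠ s} → L)
    (h0 : eval x (map φ (deh s F)) = 0) (h1 : ∀ j, eval x (map φ (pderiv j (deh s F))) = 0) :
    Sing (map φ F) (xx s x) := by
  have hF' : (map φ F).IsHomogeneous d := hF.map φ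
  have h2 : eval (xx s x) (map φ F) = 0 := by
    rw [← eval_deh, ← map_deh, h0]
  have h3 : ∀ j, j ≠ s → eval (xx s x) (pderiv j (map φ F)) = 0 := by
    intro j hj
    have h4 := h1 ⟨j, hj⟩
    rw [pderiv_deh, map_deh, eval_deh, ← pderiv_map] at h4
    exact h4
  refine ⟨h2, fun l => ?_⟩
  by_cases hl : l = s
  · subst hl
    have h4 := congrArg (eval (xx l x)) hF'.sum_X_mul_pderiv
    rw [map_sum, map_nsmul, h2, smul_zero, Finset.sum_eq_single l] at h4
    · rw [map_mul, eval_X] at h4
      simpa [xx] using h4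
    · intro j _ hj
      rw [map_mul, h3 j hj, mul_zero]
    · intro h
      exact absurd (Finset.mem_univ _) h
  · exact h3 l hl

/-- elements fixed by the Frobenius -/
theorem mem_range_of_pow [Fintype k] (x : L) (hx : x ^ Fintype.card k = x) :
    ∃ a : k, algebraMap k L a = x := by
  classical
  have hinj : Function.Injective (algebraMap k L) := (algebraMap k L).injective
  let P : Polynomial L := Polynomial.X ^ Fintype.card k - Polynomial.X
  have hP : P ≠ 0 := FiniteField.X_pow_card_sub_X_ne_zero L Fintype.one_lt_card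
  have hdeg : P.natDegree = Fintype.card k :=
    FiniteField.X_pow_card_sub_X_natDegree_eq L Fintype.one_lt_card
  have h1 : (Finset.univ.image (algebraMap k L)) ⊆ P.roots.toFinset := by
    intro y hy
    obtain ⟨a, _, rfl⟩ := Finset.mem_image.1 hy
    rw [Multiset.mem_toFinset, Polynomial.mem_roots hP, Polynomial.IsRoot.def]
    simp only [P, Polynomial.eval_sub, Polynomial.eval_pow, Polynomial.eval_X]
    rw [← map_pow, FiniteField.pow_card, sub_self]
  have h2 : P.roots.toFinset.card ≤ (Finset.univ.image (algebraMap k L)).card := by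
    rw [Finset.card_image_of_injective _ hinj, Finset.card_univ, ← hdeg]
    exact (Multiset.toFinset_card_le _).trans (Polynomial.card_roots' P)
  have h3 := Finset.eq_of_subset_of_card_le h1 h2
  have h4 : x ∈ P.roots.toFinset := by
    rw [Multiset.mem_toFinset, Polynomial.mem_roots hP, Polynomial.IsRoot.def]
    simp only [P, Polynomial.eval_sub, Polynomial.eval_pow, Polynomial.eval_X]
    rw [hx, sub_self]
  rw [← h3] at h4
  obtain ⟨a, _, ha⟩ := Finset.mem_image.1 h4
  exact ⟨a, ha⟩

/-- the Frobenius moves singular points to singular points -/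
theorem sing_frob [Fintype k] {N : ℕ} (F : MvPolynomial (Fin N) k) (P : Fin N → L)
    (h : Sing (map (algebraMap k L) F) P) :
    Sing (map (algebraMap k L) F) (fun j => P j ^ Fintype.card k) := by
  have key : ∀ G : MvPolynomial (Fin N) k, eval P (map (algebraMap k L) G) = 0 →
      eval (fun j => P j ^ Fintype.card k) (map (algebraMap k L) G) = 0 := by
    intro G hG
    let σ := FiniteField.frobeniusAlgHom k L
    have h1 : eval (fun j => P j ^ Fintype.card k) (map (algebraMap k L) G) =
        σ (eval P (map (algebraMap k L) G)) := by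
      rw [eval_map, eval_map, ← aeval_def, ← aeval_def]
      have h2 : (aeval (fun j => P j ^ Fintype.card k) : MvPolynomial (Fin N) k →ₐ[k] L) =
          σ.comp (aeval P) := by
        apply MvPolynomial.algHom_ext
        intro j
        rw [aeval_X, AlgHom.comp_apply, aeval_X]
        rfl
      rw [h2]
      rfl
    rw [h1, hG, map_zero]
  refine ⟨key F h.1, fun l => ?_⟩
  rw [pderiv_map]
  apply key
  rw [← pderiv_map]
  exact h.2 l

end points

section node

theorem pderiv_deh0' {R : Type} [CommRing R] {n : ℕ} (G : MvPolynomial (Fin (n + 1)) R)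
    (j : Fin n) : pderiv j (deh0 G) = deh0 (pderiv j.succ G) := by
  classical
  unfold deh0
  induction G using MvPolynomial.induction_on with
  | C a => simp
  | add p q hp hq =>
    simp only [map_add] at hp hq ⊢
    rw [hp, hq]
  | mul_X p i hp =>
    simp only [map_mul, aeval_X]
    rw [pderiv_mul, pderiv_mul, hp]
    simp only [map_add, map_mul, aeval_X]
    congr 2
    refine Fin.cases ?_ (fun i => ?_) i
    · simp only [Fin.cases_zero, pderiv_one]
      rw [pderiv_X_of_ne (Fin.succ_ne_zero j).symm, map_zero]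
    · simp only [Fin.cases_succ]
      by_cases h : i = j
      · subst h
        rw [pderiv_X_self, pderiv_X_self, map_one]
      · rw [pderiv_X_of_ne h, pderiv_X_of_ne (fun h' => h (Fin.succ_injective _ h')), map_zero]

theorem pderiv_swap {R ι : Type} [CommRing R] (i j : ι) (G : MvPolynomial ι R) :
    pderiv i (pderiv j G) = pderiv j (pderiv i G) := by
  classical
  have h : ⁅(pderiv i : Derivation R (MvPolynomial ι R) (MvPolynomial ι R)),
      (pderiv j : Derivation R (MvPolynomial ι R) (MvPolynomial ι R))⁆ = 0 := by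
    apply MvPolynomial.derivation_ext
    intro l
    rw [Derivation.commutator_apply, pderiv_X, pderiv_X]
    simp only [Pi.single_apply]
    split_ifs <;> simp
  have h1 := congrArg (fun D => D G) h
  simp only [Derivation.commutator_apply] at h1
  exact sub_eq_zero.1 h1

variable {O k L : Type} [CommRing O] [Field k] [Field L] [Algebra k L]

theorem c0 {n : ℕ} (φ : O →+* L) (G : MvPolynomial (Fin (n + 1)) O) :
    φ (coeff 0 (deh0 G)) = eval (Pi.single 0 1) (map φ G) := by
  rw [← coeff_map, ← deh0_map]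
  have h1 : coeff 0 (deh0 (map φ G)) = aeval (0 : Fin n → L) (deh0 (map φ G)) := by
    rw [aeval_zero, constantCoeff_eq]
    rfl
  rw [h1, aeval_deh0]
  have h2 : (Fin.cases 1 (0 : Fin n → L) : Fin (n + 1) → L) = Pi.single 0 1 := by
    funext l
    refine Fin.cases ?_ (fun r => ?_) l
    · simp
    · simp
  rw [h2]
  simp [aeval_eq_eval]

theorem prop_of_not {N : ℕ} {P Q : Fin N → L}
    (h : ¬ ∀ a b : L, a • P + b • Q = 0 → a = 0 ∧ b = 0) (i : Fin N) (hP : P i = 1) (j : Fin N) :
    Q j = Q i * P j := by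
  push Not at h
  obtain ⟨a, b, h1, h2⟩ := h
  have h3 := congrFun h1 i
  have h4 := congrFun h1 j
  simp only [Pi.add_apply, Pi.smul_apply, smul_eq_mul, Pi.zero_apply, hP, mul_one] at h3 h4
  have hb : b ≠ 0 := by
    intro hb
    rw [hb, zero_mul, add_zero] at h3
    exact h2 h3 hb
  have h5 : a = -(b * Q i) := by linear_combination h3
  rw [h5] at h4
  have h6 : b * (Q j - Q i * P j) = 0 := by linear_combination h4
  rcases mul_eq_zero.1 h6 with h7 | h7
  · exact absurd h7 hb
  · exact sub_eq_zero.1 h7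

theorem nodeO_of [IsAlgClosed L] {n : ℕ} (𝔭 : Ideal O) (ψ : O →+* k)
    (hψ : Function.Surjective ψ) (hker : ∀ r, ψ r = 0 ↔ r ∈ 𝔭)
    (H : MvPolynomial (Fin (n + 1)) O) (d : ℕ) (hH : H.IsHomogeneous d)
    (hbad : ¬ BadF (map ((algebraMap k L).comp ψ) H))
    (hs : Sing (map ((algebraMap k L).comp ψ) H) (Pi.single 0 1)) : NodeO 𝔭 H := by
  classical
  set φ : O →+* L := (algebraMap k L).comp ψ with hφ
  have hφ𝔭 : ∀ r, φ r = 0 ↔ r ∈ 𝔭 := by
    intro r
    rw [hφ, RingHom.comp_apply, map_eq_zero_iff _ (algebraMap k L).injective, hker]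
  have hHd : (map φ H).IsHomogeneous d := hH.map φ
  refine ⟨?_, ?_, ?_, ?_⟩
  · rw [← hφ𝔭, c0, hs.1]
  · intro s
    rw [← hφ𝔭, pderiv_deh0', c0, ← pderiv_map, hs.2]
  · intro hdet
    rw [← hφ𝔭, RingHom.map_det] at hdet
    obtain ⟨w, hw0, hw⟩ := Matrix.exists_vecMul_eq_zero_iff.2 hdet
    apply hbad
    refine ⟨Pi.single 0 1, Fin.cons 0 w, ?_, hs, Or.inr ?_⟩
    · intro a b hab
      have hb : b = 0 := by
        by_contra hb
        apply hw0
        funext l
        have h1 := congrFun hab l.succ
        simp only [Pi.add_apply, Pi.smul_apply, smul_eq_mul, Pi.zero_apply,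
          Pi.single_eq_of_ne (Fin.succ_ne_zero l), mul_zero, zero_add, Fin.cons_succ] at h1
        exact (mul_eq_zero.1 h1).resolve_left hb
      have h1 := congrFun hab 0
      simp only [Pi.add_apply, Pi.smul_apply, smul_eq_mul, Pi.zero_apply,
        Pi.single_eq_same, mul_one, Fin.cons_zero, mul_zero, add_zero] at h1
      exact ⟨h1, hb⟩
    · intro l
      rw [Fin.sum_univ_succ, Fin.cons_zero, zero_mul, zero_add]
      simp only [Fin.cons_succ]
      refine Fin.cases ?_ (fun r => ?_) l
      · refine Finset.sum_eq_zero fun s _ => ?_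
        have h1 : eval (Pi.single 0 1) (pderiv s.succ (pderiv 0 (map φ H))) = 0 := by
          rw [pderiv_swap]
          have h4 := congrArg (eval (Pi.single 0 1 : Fin (n + 1) → L))
            (hHd.pderiv (i := s.succ)).sum_X_mul_pderiv
          rw [map_sum, map_nsmul, hs.2, smul_zero, Finset.sum_eq_single 0] at h4
          · rw [map_mul, eval_X, Pi.single_eq_same, one_mul] at h4
            exact h4
          · intro j _ hj
            rw [map_mul, eval_X, Pi.single_eq_of_ne hj, zero_mul]
          · intro h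
            exact absurd (Finset.mem_univ _) h
        rw [h1, mul_zero]
      · have h1 := congrFun hw r
        rw [Pi.zero_apply] at h1
        rw [← h1]
        refine Finset.sum_congr rfl fun s _ => ?_
        congr 1
        simp only [RingHom.mapMatrix_apply, Matrix.map_apply, Matrix.of_apply]
        rw [pderiv_deh0', pderiv_deh0', c0, pderiv_map, pderiv_map]
  · intro s Q hQ hC hG
    by_cases hj : ∃ j, pderiv j (deh s H) ∉ Q
    · exact Or.inl hj
    right
    right
    push Not at hj
    have key : ∀ g, g ∉ Q → ∃ x : {j // j ≠ s} → L, eval x (map φ g) ≠ 0 ∧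
        ∀ j, j ≠ 0 → xx s x j = 0 := by
      intro g hg
      obtain ⟨x, hx, hxg⟩ := nss (L := L) 𝔭 ψ hψ hker Q hQ hC g hg
      refine ⟨x, hxg, fun j hj0 => ?_⟩
      have h1 : Sing (map φ H) (xx s x) := sing_of φ H d hH s x (hx _ hG) fun j => hx _ (hj j)
      have h2 := prop_of_not (P := (Pi.single 0 1 : Fin (n + 1) → L)) (Q := xx s x)
        (fun h => hbad ⟨_, _, h, hs, Or.inl h1⟩) 0 (Pi.single_eq_same 0 1) j
      rw [h2, Pi.single_eq_of_ne hj0, mul_zero]
    have hs0 : s = 0 := by
      by_contra hs0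
      obtain ⟨x, _, hx⟩ := key 1 ((Ideal.ne_top_iff_one Q).1 hQ.ne_top)
      have h1 := hx s hs0
      simp [xx] at h1
    refine ⟨hs0, fun j => ?_⟩
    by_contra hXj
    obtain ⟨x, hx1, hx⟩ := key (X j) hXj
    have hj0 : (j : Fin (n + 1)) ≠ 0 := by
      rw [← hs0]
      exact j.2
    have h1 := hx j hj0
    rw [xx, dif_neg j.2] at h1
    rw [map_X, eval_X] at hx1
    exact hx1 h1

end node

end Pool.Agent.V8H73.EK
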