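import Pool.Agent.V8H73.EK.Forms

/-! A positive proportion of the forms with integral coefficients is smooth and has regular or
nodal local equations. -/

set_option autoImplicit false
set_option linter.unusedVariables false

namespace Pool.Agent.V8H73.EK

open MvPolynomial NumberField Pool.Agent.TH214.RM Pool.Agent.V8H73.ND

theorem exists_bound {k : ℕ} (F : MvPolynomial (Fin k) ℤ) : ∃ A : ℕ, ∀ m, |coeff m F| ≤ A := by
  refine ⟨∑ m ∈ F.support, (coeff m F).natAbs, fun m => ?_⟩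
  by_cases hm : m ∈ F.support
  · have h1 : (coeff m F).natAbs ≤ ∑ m ∈ F.support, (coeff m F).natAbs :=
      Finset.single_le_sum (f := fun m => (coeff m F).natAbs) (fun _ _ => Nat.zero_le _) hm
    rw [Int.abs_eq_natAbs]
    exact_mod_cast h1
  · rw [notMem_support_iff.1 hm, abs_zero]
    exact Int.natCast_nonneg _

theorem part1 (n d : ℕ) (hd : 3 ≤ d) : ∃ c : ℝ, 0 < c ∧ ∃ H₀ : ℕ, ∀ H : ℕ, H₀ ≤ H →
    c * ((forms (n + 2) d H).ncard : ℝ) ≤
      ({F | F ∈ forms (n + 2) d H ∧ GoodF F}.ncard : ℝ) := by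
  classical
  obtain ⟨F₀, hF₀, hreg⟩ := exists_reg n d hd
  obtain ⟨c₀, hc₀, h2⟩ := part2 n d hd
  obtain ⟨M₁, hM₁⟩ := exists_nat_ge (4 * c₀)
  let M := M₁ + 1
  have hM : (0 : ℝ) < (M : ℕ) := by
    have : 0 < M := Nat.succ_pos _
    exact_mod_cast this
  have hcM : c₀ / (M : ℝ) ≤ 1 / 4 := by
    rw [div_le_iff₀ hM]
    have : (M : ℝ) = M₁ + 1 := by simp [M]
    rw [this]
    linarith
  obtain ⟨H₁, hH₁⟩ := h2 M (Nat.succ_pos _) F₀ hF₀ (fun 𝔭 hp h0 _ => Or.inl (hreg 𝔭 hp h0)) (1 / 4)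
    (by norm_num)
  obtain ⟨A, hA⟩ := exists_bound F₀
  let q : ℕ := M.factorial ^ 2
  have hq0 : 0 < q := pow_pos (Nat.factorial_pos M) 2
  have hqR : (0 : ℝ) < q := by exact_mod_cast hq0
  set N := Fintype.card (Mon (n + 2) d) with hN
  refine ⟨1 / 2 * (1 / (4 * q)) ^ N, by positivity, A + q * H₁ + 8 * A + 4 * q + 1,
    fun H hH => ?_⟩
  let H' : ℕ := (H - A) / q
  have hAH : A ≤ H := by omega
  have hH' : H₁ ≤ H' := by
    rw [Nat.le_div_iff_mul_le hq0]
    have : H₁ * q = q * H₁ := mul_comm _ _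
    omega
  have hH'2 : q * H' ≤ H - A := Nat.mul_div_le _ _
  have hH'3 : H - A < q * (H' + 1) := by
    have := Nat.lt_mul_div_succ (H - A) hq0
    exact this
  have h3 := hH₁ H' hH'
  have h4 : ({G | G ∈ forms (n + 2) d H' ∧
      GoodF (F₀ + C ((M.factorial : ℤ) ^ 2) * G)}.ncard : ℝ) ≤
      ({F | F ∈ forms (n + 2) d H ∧ GoodF F}.ncard : ℝ) := by
    have h5 : {G | G ∈ forms (n + 2) d H' ∧
      GoodF (F₀ + C ((M.factorial : ℤ) ^ 2) * G)}.ncard ≤
      {F | F ∈ forms (n + 2) d H ∧ GoodF F}.ncard := by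
      refine Set.ncard_le_ncard_of_injOn (fun G => F₀ + C ((M.factorial : ℤ) ^ 2) * G) ?_ ?_
        ((forms_finite H).subset fun F hF => hF.1)
      · rintro G ⟨⟨hG1, hG2⟩, hG3⟩
        refine ⟨⟨?_, fun m => ?_⟩, hG3⟩
        · refine hF₀.add ?_
          have h5 := (isHomogeneous_C (Fin (n + 2)) ((M.factorial : ℤ) ^ 2)).mul hG1
          rwa [zero_add] at h5
        · rw [coeff_add, coeff_C_mul]
          have h6 : |((M.factorial : ℤ) ^ 2) * coeff m G| ≤ (q : ℤ) * H' := by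
            rw [abs_mul]
            have h7 : |((M.factorial : ℤ) ^ 2)| = (q : ℤ) := by
              rw [abs_of_nonneg (by positivity)]
              simp [q]
            rw [h7]
            exact mul_le_mul_of_nonneg_left (hG2 m) (by positivity)
          have h8 : (q : ℤ) * H' ≤ H - A := by
            have : ((q * H' : ℕ) : ℤ) ≤ ((H - A : ℕ) : ℤ) := by exact_mod_cast hH'2
            push_cast [hAH] at this
            exact this
          calc |coeff m F₀ + (M.factorial : ℤ) ^ 2 * coeff m G| ≤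
              |coeff m F₀| + |(M.factorial : ℤ) ^ 2 * coeff m G| := abs_add_le _ _
            _ ≤ A + (H - A) := add_le_add (hA m) (h6.trans h8)
            _ = H := by ring
      · intro G _ G' _ h
        have h5 : C ((M.factorial : ℤ) ^ 2) * G = C ((M.factorial : ℤ) ^ 2) * G' :=
          add_left_cancel h
        have h6 : (C ((M.factorial : ℤ) ^ 2) : MvPolynomial (Fin (n + 2)) ℤ) ≠ 0 := by
          rw [Ne, C_eq_zero]
          exact pow_ne_zero _ (by exact_mod_cast Nat.factorial_ne_zero M)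
        exact mul_left_cancel₀ h6 h5
    exact_mod_cast h5
  refine le_trans ?_ (h3.trans h4)
  rw [ncard_forms, ncard_forms, ← hN]
  have h5 : (1 : ℝ) / 2 ≤ 1 - c₀ / (M : ℝ) - 1 / 4 := by linarith
  have h6 : (1 : ℝ) / (4 * q) * (2 * H + 1 : ℕ) ≤ (2 * H' + 1 : ℕ) := by
    rw [div_mul_eq_mul_div, one_mul, div_le_iff₀ (by positivity)]
    have h7 : (H : ℤ) - A < q * (H' + 1) := by
      have : ((H - A : ℕ) : ℤ) < ((q * (H' + 1) : ℕ) : ℤ) := by exact_mod_cast hH'3
      push_cast [hAH] at this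
      exact this
    have h8 : (H : ℝ) - A < q * (H' + 1) := by exact_mod_cast h7
    have h9 : (A : ℝ) + q * H₁ + 8 * A + 4 * q + 1 ≤ H := by exact_mod_cast hH
    have h10 : (0 : ℝ) ≤ q * H₁ := by positivity
    have h11 : (0 : ℝ) ≤ A := Nat.cast_nonneg _
    push_cast
    nlinarith
  calc 1 / 2 * (1 / (4 * (q : ℝ))) ^ N * (((2 * H + 1) ^ N : ℕ) : ℝ) =
      1 / 2 * ((1 / (4 * (q : ℝ))) * (2 * H + 1 : ℕ)) ^ N := by
        rw [mul_pow]
        push_cast
        ring
    _ ≤ 1 / 2 * ((2 * H' + 1 : ℕ) : ℝ) ^ N := by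
        apply mul_le_mul_of_nonneg_left _ (by norm_num)
        exact pow_le_pow_left₀ (by positivity) h6 _
    _ ≤ (1 - c₀ / (M : ℝ) - 1 / 4) * ((2 * H' + 1 : ℕ) : ℝ) ^ N :=
        mul_le_mul_of_nonneg_right h5 (by positivity)
    _ = _ := by push_cast; rfl

end Pool.Agent.V8H73.EK
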