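import Pool.Agent.V8H73.EK.Disc
import Pool.Agent.V8H73.ND.Glob
import Pool.Agent.TH214.RM.Exq
import Mathlib.RingTheory.Radical.Basic

/-! Forms with integral coefficients which are regular at the small primes and not bad at the large
primes. -/

set_option autoImplicit false
set_option linter.unusedVariables false

namespace Pool.Agent.V8H73.EK

open MvPolynomial NumberField Pool.Agent.TH214.RM Pool.Agent.V8H73.ND

theorem reg_congr {O ι : Type} [CommRing O] [DecidableEq ι] (𝔭 : Ideal O)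
    (F F₀ B : MvPolynomial ι O) (q : O) (hq : q ∈ 𝔭 ^ 2) (hF : F = F₀ + C q * B)
    (h : Reg 𝔭 F₀) : Reg 𝔭 F := by
  intro s Q hQ hC hG f hf hfG
  have hCq : (C q : MvPolynomial {j : ι // j ≠ s} O) ∈ Q ^ 2 := by
    have h1 : (𝔭 ^ 2).map (C : O →+* MvPolynomial {j : ι // j ≠ s} O) ≤ Q ^ 2 := by
      rw [Ideal.map_pow]
      exact Ideal.pow_right_mono (Ideal.map_le_iff_le_comap.2 fun r hr => (hC r).2 hr) 2
    exact h1 (Ideal.mem_map_of_mem _ hq)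
  have hd : deh s F = deh s F₀ + C q * deh s B := by
    rw [hF]
    unfold deh
    rw [map_add, map_mul, aeval_C, algebraMap_eq]
  have h2 : deh s F₀ ∈ Q := by
    have h3 := Q.sub_mem hG (Q.mul_mem_right (deh s B) (Ideal.pow_le_self two_ne_zero hCq))
    rwa [hd, add_sub_cancel_right] at h3
  refine h s Q hQ hC h2 f hf ?_
  have h3 := (Q ^ 2).sub_mem hfG ((Q ^ 2).mul_mem_right (f * deh s B) hCq)
  rw [hd] at h3
  have h4 : f * (deh s F₀ + C q * deh s B) - C q * (f * deh s B) = f * deh s F₀ := by ring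
  rwa [h4] at h3

theorem reg_equiv {O O' ι : Type} [CommRing O] [CommRing O'] [DecidableEq ι] (e : O ≃+* O')
    (𝔭' : Ideal O') (F : MvPolynomial ι O) (h : Reg 𝔭' (map (e : O →+* O') F)) :
    Reg (𝔭'.comap (e : O →+* O')) F := by
  intro s Q hQ hC hG f hf hfG
  let E : MvPolynomial {j : ι // j ≠ s} O ≃+* MvPolynomial {j : ι // j ≠ s} O' := mapEquiv _ e
  have hE : ∀ x, E x = map (e : O →+* O') x := fun x => rfl
  let Q' : Ideal (MvPolynomial {j : ι // j ≠ s} O') := Q.comap E.symm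
  have hQ' : Q'.IsPrime := Ideal.comap_isPrime _ _
  have hmem : ∀ x, E x ∈ Q' ↔ x ∈ Q := by
    intro x
    simp only [Q', Ideal.mem_comap]
    rw [RingEquiv.symm_apply_apply]
  have hmem2 : ∀ x ∈ Q ^ 2, E x ∈ Q' ^ 2 := by
    intro x hx
    have h1 : (Q ^ 2).map (E : _ →+* MvPolynomial {j : ι // j ≠ s} O') ≤ Q' ^ 2 := by
      rw [Ideal.map_pow]
      refine Ideal.pow_right_mono (Ideal.map_le_iff_le_comap.2 fun r hr => ?_) 2
      exact (hmem r).2 hr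
    exact h1 (Ideal.mem_map_of_mem _ hx)
  have hd : E (deh s F) = deh s (map (e : O →+* O') F) := map_deh _ _ _
  refine h s Q' hQ' ?_ ?_ (E f) ?_ ?_
  · intro r'
    obtain ⟨r, rfl⟩ := e.surjective r'
    have h1 : (C (e r) : MvPolynomial {j : ι // j ≠ s} O') = E (C r) := by
      rw [hE, map_C]
      rfl
    rw [h1, hmem, hC]
    rfl
  · rw [← hd, hmem]
    exact hG
  · rw [hmem]
    exact hf
  · rw [← hd, ← map_mul]
    exact hmem2 _ hfG

/-- Forms over the integers whose schemes are regular. -/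
theorem exists_reg (n d : ℕ) (hd : 3 ≤ d) :
    ∃ F : MvPolynomial (Fin (n + 2)) ℤ, F.IsHomogeneous d ∧
      ∀ 𝔭 : Ideal (𝓞 ℚ), 𝔭.IsPrime → 𝔭 ≠ ⊥ → Reg 𝔭 (map (Int.castRingHom (𝓞 ℚ)) F) := by
  let b : ℕ := UniqueFactorizationMonoid.radical (d - 1)
  have hb : Squarefree b := UniqueFactorizationMonoid.squarefree_radical
  have hbd : ∀ p : ℕ, p.Prime → p ∣ d - 1 → p ∣ b := fun p hp hpd =>
    (UniqueFactorizationMonoid.dvd_radical_iff_of_irreducible hp.prime.irreducible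
      (by omega : d - 1 ≠ 0)).2 hpd
  have hb0 : (b : 𝓞 ℚ) ≠ 0 := fun h => hb.ne_zero (Nat.cast_eq_zero.1 h)
  obtain ⟨h1, h2, h3⟩ := data_zero2 (K := ℚ) d hd (b : 𝓞 ℚ) hb0 (fun 𝔭 hp h0 =>
    ⟨rat_notMem_sq b hb 𝔭 hp, fun p hp' hpd hp𝔭 => rat_add_pow_notMem b hb 𝔭 hp p hp'
      (hbd p hp' hpd) hp𝔭⟩)
  have hom := isHomogeneous_zero (O := 𝓞 ℚ) d (b : 𝓞 ℚ)
  obtain ⟨h4, h5⟩ := base_of_adm (K := ℚ) d hd _ hom h1 h2 h3
  let e : 𝓞 ℚ ≃+* ℤ := Rat.ringOfIntegersEquiv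
  have key : ∀ k, ∃ F : MvPolynomial (Fin (k + 2)) (𝓞 ℚ), F.IsHomogeneous d ∧
      ∀ 𝔭 : Ideal (𝓞 ℚ), 𝔭.IsPrime → 𝔭 ≠ ⊥ → Reg 𝔭 F := by
    intro k
    have h6 : 0 + k + 2 = k + 2 := by omega
    rw [← h6]
    have hbot : ∃ 𝔭 : Ideal (𝓞 ℚ), 𝔭.IsPrime ∧ 𝔭 ≠ ⊥ := by
      obtain ⟨𝔭, hp⟩ := Ideal.exists_maximal (𝓞 ℚ)
      exact ⟨𝔭, hp.isPrime, (𝔭.bot_lt_of_maximal (RingOfIntegers.not_isField ℚ)).ne'⟩
    refine ⟨towr d (C (b : 𝓞 ℚ) * X 0 ^ d : MvPolynomial (Fin (0 + 1)) (𝓞 ℚ)) k, ?_, ?_⟩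
    · obtain ⟨𝔭, hp, h0⟩ := hbot
      have h7 := h5 𝔭 hp h0
      rw [chain_eq] at h7
      exact (crit_towr 𝔭 d hd _ hom h7.crit k).1
    · intro 𝔭 hp h0
      have h7 := h5 𝔭 hp h0
      rw [chain_eq] at h7
      exact (crit_towr 𝔭 d hd _ hom h7.crit k).2.reg
  obtain ⟨F, hF, hreg⟩ := key n
  have hinj : Function.Injective (Int.castRingHom (𝓞 ℚ)) := Int.cast_injective
  have h8 : map (Int.castRingHom (𝓞 ℚ)) (map (e : 𝓞 ℚ →+* ℤ) F) = F := by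
    rw [map_map]
    have h9 : (Int.castRingHom (𝓞 ℚ)).comp (e : 𝓞 ℚ →+* ℤ) = RingHom.id _ := by
      have h10 : (e.symm : ℤ →+* 𝓞 ℚ) = Int.castRingHom (𝓞 ℚ) := RingHom.ext_int _ _
      rw [← h10]
      ext x
      simp
    rw [h9, MvPolynomial.map_id]
  refine ⟨map (e : 𝓞 ℚ →+* ℤ) F, hF.map _, ?_⟩
  rw [h8]
  exact hreg

theorem aeval_intCast {μ L : Type} [Field L] (a : μ → ℤ) (f : MvPolynomial μ ℤ) :
    aeval (fun m => (a m : L)) f = ((eval a f : ℤ) : L) := by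
  have h : (aeval (fun m => (a m : L)) : MvPolynomial μ ℤ →ₐ[ℤ] L).toRingHom =
      (Int.castRingHom L).comp (eval a) := by
    apply MvPolynomial.ringHom_ext
    · intro r
      simp
    · intro m
      simp
  exact congrArg (fun φ => φ f) (congrArg DFunLike.coe h)

end Pool.Agent.V8H73.EK
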